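import Pool.Agent.EE2.Defs2

/-!
# EE2 / Cara: few distinct vectors are enough (Eisenbrand and Shmonin)
-/

set_option autoImplicit false

namespace Pool.Agent.EE2

open Pool.Agent.EEF Pool.Agent.REV Finset

variable {d : ℕ}

/-- exchange along two disjoint sets with the same sum -/
private theorem cara_step (R : Finset (Vec d)) (m : Vec d → ℕ) {P N : Finset (Vec d)}
    (hP : P ⊆ R.filter fun v => m v ≠ 0) (hN : N ⊆ R.filter fun v => m v ≠ 0)
    (hPN : Disjoint P N) (hne : P.Nonempty) (hs : ∑ v ∈ P, v = ∑ v ∈ N, v) :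
    ∃ m' : Vec d → ℕ, ∑ v ∈ R, m' v • v = ∑ v ∈ R, m v • v ∧ (∀ v, m v = 0 → m' v = 0) ∧
      (R.filter fun v => m' v ≠ 0).card < (R.filter fun v => m v ≠ 0).card := by
  classical
  obtain ⟨s, hsP, hmin⟩ := exists_min_image P m hne
  have hPR : P ⊆ R := hP.trans (filter_subset _ _)
  have hNR : N ⊆ R := hN.trans (filter_subset _ _)
  set m' : Vec d → ℕ := fun v => if v ∈ P then m v - m s else if v ∈ N then m v + m s else m v
    with hm'
  have hz : ∀ v, (m' v : ℤ) = (m v : ℤ) - (if v ∈ P then (m s : ℤ) else 0) +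
      (if v ∈ N then (m s : ℤ) else 0) := by
    intro v
    by_cases h1 : v ∈ P
    · have h2 : v ∉ N := disjoint_left.1 hPN h1
      have h3 := hmin v h1
      simp only [hm', h1, h2, if_true, if_false]
      push_cast [Nat.cast_sub h3]
      ring
    · by_cases h2 : v ∈ N
      · simp only [hm', h1, h2, if_true, if_false]
        push_cast
        ring
      · simp only [hm', h1, h2, if_false]
        ring
  refine ⟨m', ?_, ?_, ?_⟩
  · funext k
    have e1 : ∀ (f : Vec d → ℕ), (∑ v ∈ R, f v • v) k = ∑ v ∈ R, (f v : ℤ) * v k := by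
      intro f
      rw [Finset.sum_apply]
      refine sum_congr rfl fun v _ => ?_
      rw [Pi.smul_apply, nsmul_eq_mul]
    rw [e1, e1]
    have e2 : ∀ v ∈ R, (m' v : ℤ) * v k = (m v : ℤ) * v k - (if v ∈ P then (m s : ℤ) * v k else 0) +
        (if v ∈ N then (m s : ℤ) * v k else 0) := by
      intro v _
      rw [hz v]
      split_ifs <;> ring
    rw [sum_congr rfl e2, sum_add_distrib, sum_sub_distrib, ← sum_filter, ← sum_filter,
      filter_mem_eq_inter, filter_mem_eq_inter, inter_eq_right.2 hPR, inter_eq_right.2 hNR,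
      ← mul_sum, ← mul_sum]
    have e3 : ∑ v ∈ P, v k = ∑ v ∈ N, v k := by
      have := congrFun hs k
      rwa [Finset.sum_apply, Finset.sum_apply] at this
    rw [e3]
    ring
  · intro v hv
    have h1 : v ∉ P := fun h => (mem_filter.1 (hP h)).2 hv
    have h2 : v ∉ N := fun h => (mem_filter.1 (hN h)).2 hv
    simp only [hm', h1, h2, if_false, hv]
  · apply card_lt_card
    rw [ssubset_iff_of_subset]
    · refine ⟨s, hP hsP, fun h => (mem_filter.1 h).2 ?_⟩
      simp only [hm', hsP, if_true, Nat.sub_self]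
    · intro v hv
      rw [mem_filter] at hv ⊢
      refine ⟨hv.1, fun h => hv.2 ?_⟩
      have h1 : v ∉ P := fun h' => (mem_filter.1 (hP h')).2 h
      have h2 : v ∉ N := fun h' => (mem_filter.1 (hN h')).2 h
      simp only [hm', h1, h2, if_false, h]

/-- pigeonhole: two disjoint sets with the same sum -/
private theorem cara_pig {g A : ℕ} (S : Finset (Vec d)) (hS : ∀ v ∈ S, ∀ k, |v k| ≤ A)
    (hg : Module.finrank ℚ (Submodule.span ℚ {c : Fin d → ℚ | ∃ v ∈ S, c = qv v}) ≤ g)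
    (hc : (2 * (S.card * A) + 1) ^ g < 2 ^ S.card) :
    ∃ P N : Finset (Vec d), P ⊆ S ∧ N ⊆ S ∧ Disjoint P N ∧ P.Nonempty ∧
      ∑ v ∈ P, v = ∑ v ∈ N, v := by
  classical
  obtain ⟨J, hJ, hJ0⟩ := exists_coords (Submodule.span ℚ {c : Fin d → ℚ | ∃ v ∈ S, c = qv v})
  set B : ℤ := ((S.card * A : ℕ) : ℤ) with hB
  have hmaps : ∀ X ∈ S.powerset, (fun j : J => (∑ v ∈ X, v) j.1) ∈
      Fintype.piFinset fun _ : J => Icc (-B) B := by
    intro X hX
    rw [mem_powerset] at hX
    rw [Fintype.mem_piFinset]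
    intro j
    rw [mem_Icc, ← abs_le, Finset.sum_apply]
    calc |∑ v ∈ X, v j.1| ≤ ∑ v ∈ X, |v j.1| := abs_sum_le_sum_abs _ _
      _ ≤ ∑ _v ∈ X, (A : ℤ) := sum_le_sum fun v hv => hS v (hX hv) _
      _ = X.card * A := by rw [sum_const, nsmul_eq_mul]
      _ ≤ B := by
        rw [hB]
        exact_mod_cast Nat.mul_le_mul_right A (card_le_card hX)
  have hcard : (Fintype.piFinset fun _ : J => Icc (-B) B).card < S.powerset.card := by
    rw [Fintype.card_piFinset, card_powerset]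
    refine lt_of_le_of_lt ?_ hc
    have e : (Icc (-B) B).card = 2 * (S.card * A) + 1 := by
      rw [Int.card_Icc, hB]
      omega
    simp only [e]
    rw [prod_const, card_univ, Fintype.card_coe, hJ]
    exact Nat.pow_le_pow_right (by omega) hg
  obtain ⟨X, hX, Y, hY, hne, he⟩ := exists_ne_map_eq_of_card_lt_of_maps_to hcard hmaps
  rw [mem_powerset] at hX hY
  have hsum : ∑ v ∈ X, v = ∑ v ∈ Y, v := by
    have hmem : ∀ Z ⊆ S, qv (∑ v ∈ Z, v) ∈
        Submodule.span ℚ {c : Fin d → ℚ | ∃ v ∈ S, c = qv v} := by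
      intro Z hZ
      have e : qv (∑ v ∈ Z, v) = ∑ v ∈ Z, qv v := by
        funext k
        simp only [qv, Finset.sum_apply]
        push_cast
        rfl
      rw [e]
      exact Submodule.sum_mem _ fun v hv => Submodule.subset_span ⟨v, hZ hv, rfl⟩
    have h1 := hJ0 _ ((Submodule.span ℚ _).sub_mem (hmem X hX) (hmem Y hY)) (fun j hj => by
      have h2 := congrFun he ⟨j, hj⟩
      simp only at h2
      simp only [Pi.sub_apply, qv, h2, sub_self])
    exact qv_inj (sub_eq_zero.1 h1)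
  have hdisj : Disjoint (X \ Y) (Y \ X) := disjoint_sdiff_sdiff
  have hs : ∑ v ∈ X \ Y, v = ∑ v ∈ Y \ X, v := by
    have h1 := Finset.sum_sdiff_sub_sum_sdiff (s₁ := Y) (s₂ := X) (f := fun v : Vec d => v)
    rw [hsum, sub_self] at h1
    exact sub_eq_zero.1 h1
  by_cases hXY : (X \ Y).Nonempty
  · exact ⟨X \ Y, Y \ X, sdiff_subset.trans hX, sdiff_subset.trans hY, hdisj, hXY, hs⟩
  · refine ⟨Y \ X, X \ Y, sdiff_subset.trans hY, sdiff_subset.trans hX, hdisj.symm, ?_, hs.symm⟩
    rw [nonempty_iff_ne_empty]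
    intro h
    rw [not_nonempty_iff_eq_empty] at hXY
    exact hne (subset_antisymm (sdiff_eq_empty_iff_subset.1 hXY) (sdiff_eq_empty_iff_subset.1 h))

private theorem cara_cube {b : ℕ} (h : 10 ≤ b) : b ^ 3 ≤ 2 ^ b := by
  induction b, h using Nat.le_induction with
  | base => norm_num
  | succ b hb ih =>
    have h1 : (b + 1) ^ 3 ≤ 2 * b ^ 3 := by
      have h2 : 3 * b ^ 2 + 3 * b + 1 ≤ b ^ 3 := by
        have h3 : 10 * b ^ 2 ≤ b * b ^ 2 := Nat.mul_le_mul_right _ hb
        nlinarith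
      nlinarith
    calc (b + 1) ^ 3 ≤ 2 * b ^ 3 := h1
      _ ≤ 2 * 2 ^ b := Nat.mul_le_mul_left _ ih
      _ = 2 ^ (b + 1) := by ring

/-- bound for the number of distinct vectors -/
def cE (g A : ℕ) : ℕ := 10 * (g + 1) * (g + 1 + A)

private theorem cara_num {g A s : ℕ} (hs : cE g A ≤ s) : (2 * (s * A) + 1) ^ g < 2 ^ s := by
  obtain ⟨h, hh⟩ : ∃ h, h = g + 1 := ⟨_, rfl⟩
  have hh0 : 0 < h := by omega
  unfold cE at hs
  rw [← hh] at hs
  obtain ⟨b, hb⟩ : ∃ b, b = s / h := ⟨_, rfl⟩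
  have h1 : 10 * (h + A) ≤ b := by
    rw [hb, Nat.le_div_iff_mul_le hh0]
    calc 10 * (h + A) * h = 10 * h * (h + A) := by ring
      _ ≤ s := hs
  have h2 : b * h ≤ s := by rw [hb]; exact Nat.div_mul_le_self s h
  have h3 : s < (b + 1) * h := by
    rw [hb]
    have := Nat.lt_div_mul_add (a := s) hh0
    calc s < s / h * h + h := this
      _ = (s / h + 1) * h := by ring
  have h4 : 2 * (s * A) + 1 ≤ b ^ 3 := by
    have h5 : s * A ≤ (b + 1) * h * A := Nat.mul_le_mul_right _ h3.le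
    have h6 : 4 * (h * A) ≤ (h + A) ^ 2 := by
      zify
      nlinarith [sq_nonneg ((h : ℤ) - A)]
    have h7 : 100 * (h + A) ^ 2 ≤ b ^ 2 := by
      calc 100 * (h + A) ^ 2 = (10 * (h + A)) ^ 2 := by ring
        _ ≤ b ^ 2 := Nat.pow_le_pow_left h1 2
    have h8 : 400 * (h * A) ≤ b ^ 2 := by omega
    have h9 : 1 ≤ b := by omega
    have h10 : 400 * (s * A) ≤ (b + 1) * b ^ 2 := by
      calc 400 * (s * A) ≤ 400 * ((b + 1) * h * A) := Nat.mul_le_mul_left _ h5
        _ = (b + 1) * (400 * (h * A)) := by ring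
        _ ≤ (b + 1) * b ^ 2 := Nat.mul_le_mul_left _ h8
    have h11 : (b + 1) * b ^ 2 ≤ 2 * b ^ 3 := by
      calc (b + 1) * b ^ 2 ≤ (b + b) * b ^ 2 := Nat.mul_le_mul_right _ (by omega)
        _ = 2 * b ^ 3 := by ring
    have h12 : 1 ≤ b ^ 3 := Nat.one_le_pow _ _ h9
    omega
  have h5 : 10 ≤ b := by omega
  have h6 := h4.trans (cara_cube h5)
  calc (2 * (s * A) + 1) ^ g ≤ (2 ^ b) ^ g := Nat.pow_le_pow_left h6 g
    _ < (2 ^ b) ^ h := by
      refine Nat.pow_lt_pow_right ?_ (by omega)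
      exact Nat.one_lt_pow (by omega) (by norm_num)
    _ = 2 ^ (b * h) := by rw [← pow_mul]
    _ ≤ 2 ^ s := Nat.pow_le_pow_right (by norm_num) h2

/-- Every non-negative integer combination of integer vectors with entries at most `A` which span a
space of dimension at most `g` is one of less than `cE g A` of these vectors. -/
theorem cara {g A : ℕ} (R : Finset (Vec d)) (hR : ∀ v ∈ R, ∀ k, |v k| ≤ A)
    (hg : Module.finrank ℚ (Submodule.span ℚ {c : Fin d → ℚ | ∃ v ∈ R, c = qv v}) ≤ g)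
    (m : Vec d → ℕ) : ∃ m' : Vec d → ℕ, ∑ v ∈ R, m' v • v = ∑ v ∈ R, m v • v ∧
      (∀ v, m v = 0 → m' v = 0) ∧ (R.filter fun v => m' v ≠ 0).card < cE g A := by
  classical
  have key : ∀ (n : ℕ) (m : Vec d → ℕ), (R.filter fun v => m v ≠ 0).card ≤ n →
      ∃ m' : Vec d → ℕ, ∑ v ∈ R, m' v • v = ∑ v ∈ R, m v • v ∧
      (∀ v, m v = 0 → m' v = 0) ∧ (R.filter fun v => m' v ≠ 0).card < cE g A := by
    intro n
    induction n with
    | zero =>
      intro m hm
      refine ⟨m, rfl, fun _ h => h, ?_⟩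
      have : 0 < cE g A := by unfold cE; positivity
      omega
    | succ n ih =>
      intro m hm
      by_cases hlt : (R.filter fun v => m v ≠ 0).card < cE g A
      · exact ⟨m, rfl, fun _ h => h, hlt⟩
      · have hsub : R.filter (fun v => m v ≠ 0) ⊆ R := filter_subset _ _
        obtain ⟨P, N, hP, hN, hPN, hne, hs⟩ := cara_pig (g := g) (A := A)
          (R.filter fun v => m v ≠ 0) (fun v hv => hR v (hsub hv))
          ((Submodule.finrank_mono (Submodule.span_mono (by
            rintro c ⟨v, hv, rfl⟩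
            exact ⟨v, hsub hv, rfl⟩))).trans hg) (cara_num (not_lt.1 hlt))
        obtain ⟨m₁, h1, h2, h3⟩ := cara_step R m hP hN hPN hne hs
        obtain ⟨m', h4, h5, h6⟩ := ih m₁ (by omega)
        exact ⟨m', h4.trans h1, fun v hv => h5 v (h2 v hv), h6⟩
  exact key _ m le_rfl

end Pool.Agent.EE2
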