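import Pool.Agent.EE2.Defs2

set_option autoImplicit false
set_option linter.unusedSectionVars false

namespace Pool.Agent.EE2

variable {d : ℕ}

/-- the admissible zero direction of a form that changes its sign between `e` and `e'` -/
theorem chamb_dir {A : ℕ} {a b : ℤ} (ha : |a| ≤ A) (hb : |b| ≤ A) {e e' : ℕ × ℕ}
    (hD : (0 : ℤ) < e.1 * e'.2 - e.2 * e'.1) (h1 : 0 < a * e.1 + b * e.2)
    (h2 : a * e'.1 + b * e'.2 < 0) : ∃ n : ℕ × ℕ, Adm A n ∧ (n.1 : ℤ) = -b ∧ (n.2 : ℤ) = a := by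
  have e1 : (0 : ℤ) ≤ e.1 := Int.natCast_nonneg _
  have e2 : (0 : ℤ) ≤ e.2 := Int.natCast_nonneg _
  have e3 : (0 : ℤ) ≤ e'.1 := Int.natCast_nonneg _
  have e4 : (0 : ℤ) ≤ e'.2 := Int.natCast_nonneg _
  have hA0 : 0 ≤ a * ((e.1 : ℤ) * e'.2 - e.2 * e'.1) := by
    have : a * ((e.1 : ℤ) * e'.2 - e.2 * e'.1) =
        (a * e.1 + b * e.2) * e'.2 + (-(a * e'.1 + b * e'.2)) * e.2 := by ring
    rw [this]
    have := mul_nonneg h1.le e4
    have := mul_nonneg (neg_nonneg.2 h2.le) e2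
    linarith
  have hB0 : 0 ≤ (-b) * ((e.1 : ℤ) * e'.2 - e.2 * e'.1) := by
    have : (-b) * ((e.1 : ℤ) * e'.2 - e.2 * e'.1) =
        (a * e.1 + b * e.2) * e'.1 + (-(a * e'.1 + b * e'.2)) * e.1 := by ring
    rw [this]
    have := mul_nonneg h1.le e3
    have := mul_nonneg (neg_nonneg.2 h2.le) e1
    linarith
  have ha0 : 0 ≤ a := nonneg_of_mul_nonneg_left hA0 hD
  have hb0 : 0 ≤ -b := nonneg_of_mul_nonneg_left hB0 hD
  have ha1 : 1 ≤ a := by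
    by_contra h
    have : a = 0 := by omega
    rw [this, zero_mul, zero_add] at h1
    have := mul_nonneg hb0 e2
    linarith
  have hb1 : 1 ≤ -b := by
    by_contra h
    have : b = 0 := by omega
    rw [this, zero_mul, add_zero] at h2
    have := mul_nonneg ha0 e3
    linarith
  have ha2 := (abs_le.1 ha).2
  have hb2 := (abs_le.1 hb).1
  refine ⟨((-b).toNat, a.toNat), Or.inr (Or.inr ?_), ?_, ?_⟩
  · refine ⟨?_, ?_, ?_, ?_⟩ <;> simp only <;> omega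
  · simp only
    exact Int.toNat_of_nonneg hb0
  · simp only
    exact Int.toNat_of_nonneg ha0

theorem chamb_step {A : ℕ} (α β : Fin d → ℤ) (m₁ m₂ : ℕ) {S : Finset (Fin d)} {k : Fin d}
    {e e' n : ℕ × ℕ} (he : Adm A e) (he' : Adm A e') (hn : Adm A n)
    (hD : (0 : ℤ) < e.1 * e'.2 - e.2 * e'.1) (hm : (0 : ℤ) ≤ e.1 * m₂ - e.2 * m₁)
    (hm' : (0 : ℤ) ≤ m₁ * e'.2 - m₂ * e'.1)
    (h1 : (0 : ℤ) < e.1 * n.2 - e.2 * n.1) (h2 : (0 : ℤ) < n.1 * e'.2 - n.2 * e'.1)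
    (hk : α k * n.1 + β k * n.2 = 0)
    (hS : ∀ j ∈ S, (0 ≤ α j * e.1 + β j * e.2 ∧ 0 ≤ α j * e'.1 + β j * e'.2) ∨
        (α j * e.1 + β j * e.2 ≤ 0 ∧ α j * e'.1 + β j * e'.2 ≤ 0)) :
    ∃ e e' : ℕ × ℕ, Adm A e ∧ Adm A e' ∧ (0 : ℤ) < e.1 * e'.2 - e.2 * e'.1 ∧
      (0 : ℤ) ≤ e.1 * m₂ - e.2 * m₁ ∧ (0 : ℤ) ≤ m₁ * e'.2 - m₂ * e'.1 ∧
      ∀ j ∈ insert k S, (0 ≤ α j * e.1 + β j * e.2 ∧ 0 ≤ α j * e'.1 + β j * e'.2) ∨
        (α j * e.1 + β j * e.2 ≤ 0 ∧ α j * e'.1 + β j * e'.2 ≤ 0) := by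
  have key : ∀ j, ((e.1 : ℤ) * e'.2 - e.2 * e'.1) * (α j * n.1 + β j * n.2) =
      ((n.1 : ℤ) * e'.2 - n.2 * e'.1) * (α j * e.1 + β j * e.2) +
      ((e.1 : ℤ) * n.2 - e.2 * n.1) * (α j * e'.1 + β j * e'.2) := by
    intro j
    ring
  have hn1 : ∀ j ∈ S, 0 ≤ α j * e.1 + β j * e.2 → 0 ≤ α j * e'.1 + β j * e'.2 →
      0 ≤ α j * n.1 + β j * n.2 := by
    intro j _ a b
    refine nonneg_of_mul_nonneg_right ?_ hD
    rw [key j]
    have := mul_nonneg h2.le a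
    have := mul_nonneg h1.le b
    linarith
  have hn2 : ∀ j ∈ S, α j * e.1 + β j * e.2 ≤ 0 → α j * e'.1 + β j * e'.2 ≤ 0 →
      α j * n.1 + β j * n.2 ≤ 0 := by
    intro j _ a b
    by_contra hc
    push Not at hc
    have h3 := mul_pos hD hc
    rw [key j] at h3
    have := mul_nonneg h2.le (neg_nonneg.2 a)
    have := mul_nonneg h1.le (neg_nonneg.2 b)
    linarith
  by_cases hc : (0 : ℤ) ≤ n.1 * m₂ - n.2 * m₁
  · refine ⟨n, e', hn, he', h2, hc, hm', ?_⟩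
    intro j hj
    rcases Finset.mem_insert.1 hj with rfl | hj
    · rw [hk]
      rcases le_total 0 (α j * e'.1 + β j * e'.2) with h | h
      · exact Or.inl ⟨le_refl _, h⟩
      · exact Or.inr ⟨le_refl _, h⟩
    · rcases hS j hj with ⟨a, b⟩ | ⟨a, b⟩
      · exact Or.inl ⟨hn1 j hj a b, b⟩
      · exact Or.inr ⟨hn2 j hj a b, b⟩
  · push Not at hc
    refine ⟨e, n, he, hn, h1, hm, by linarith, ?_⟩
    intro j hj
    rcases Finset.mem_insert.1 hj with rfl | hj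
    · rw [hk]
      rcases le_total 0 (α j * e.1 + β j * e.2) with h | h
      · exact Or.inl ⟨h, le_refl _⟩
      · exact Or.inr ⟨h, le_refl _⟩
    · rcases hS j hj with ⟨a, b⟩ | ⟨a, b⟩
      · exact Or.inl ⟨a, hn1 j hj a b⟩
      · exact Or.inr ⟨a, hn2 j hj a b⟩

theorem chamb_ind {A : ℕ} (α β : Fin d → ℤ) (hα : ∀ k, |α k| ≤ A)
    (hβ : ∀ k, |β k| ≤ A) (m₁ m₂ : ℕ) (S : Finset (Fin d)) :
    ∃ e e' : ℕ × ℕ, Adm A e ∧ Adm A e' ∧ (0 : ℤ) < e.1 * e'.2 - e.2 * e'.1 ∧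
      (0 : ℤ) ≤ e.1 * m₂ - e.2 * m₁ ∧ (0 : ℤ) ≤ m₁ * e'.2 - m₂ * e'.1 ∧
      ∀ j ∈ S, (0 ≤ α j * e.1 + β j * e.2 ∧ 0 ≤ α j * e'.1 + β j * e'.2) ∨
        (α j * e.1 + β j * e.2 ≤ 0 ∧ α j * e'.1 + β j * e'.2 ≤ 0) := by
  classical
  induction S using Finset.induction_on with
  | empty =>
    refine ⟨(1, 0), (0, 1), Or.inl rfl, Or.inr (Or.inl rfl), by norm_num, by simp, by simp, ?_⟩
    intro j hj
    simp at hj
  | insert k S hkS ih =>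
    obtain ⟨e, e', he, he', hD, hm, hm', hS⟩ := ih
    rcases lt_trichotomy (α k * e.1 + β k * e.2) 0 with h | h | h
    · rcases le_or_gt (α k * e'.1 + β k * e'.2) 0 with h' | h'
      · refine ⟨e, e', he, he', hD, hm, hm', ?_⟩
        intro j hj
        rcases Finset.mem_insert.1 hj with rfl | hj
        · exact Or.inr ⟨h.le, h'⟩
        · exact hS j hj
      · obtain ⟨n, hn, n1, n2⟩ := chamb_dir (a := -α k) (b := -β k) (by simpa using hα k)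
          (by simpa using hβ k) hD (by linarith) (by linarith)
        refine chamb_step α β m₁ m₂ he he' hn hD hm hm' ?_ ?_ ?_ hS
        · rw [n1, n2]; linarith
        · rw [n1, n2]; linarith
        · rw [n1, n2]; ring
    · refine ⟨e, e', he, he', hD, hm, hm', ?_⟩
      intro j hj
      rcases Finset.mem_insert.1 hj with rfl | hj
      · rw [h]
        rcases le_total 0 (α j * e'.1 + β j * e'.2) with h' | h'
        · exact Or.inl ⟨le_refl _, h'⟩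
        · exact Or.inr ⟨le_refl _, h'⟩
      · exact hS j hj
    · rcases le_or_gt 0 (α k * e'.1 + β k * e'.2) with h' | h'
      · refine ⟨e, e', he, he', hD, hm, hm', ?_⟩
        intro j hj
        rcases Finset.mem_insert.1 hj with rfl | hj
        · exact Or.inl ⟨h.le, h'⟩
        · exact hS j hj
      · obtain ⟨n, hn, n1, n2⟩ := chamb_dir (hα k) (hβ k) hD h h'
        refine chamb_step α β m₁ m₂ he he' hn hD hm hm' ?_ ?_ ?_ hS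
        · rw [n1, n2]; linarith
        · rw [n1, n2]; linarith
        · rw [n1, n2]; ring

theorem adm_le {A : ℕ} (hA : 1 ≤ A) {e : ℕ × ℕ} (he : Adm A e) : e.1 ≤ A ∧ e.2 ≤ A := by
  rcases he with rfl | rfl | ⟨_, h1, _, h2⟩
  · exact ⟨hA, Nat.zero_le _⟩
  · exact ⟨Nat.zero_le _, hA⟩
  · exact ⟨h1, h2⟩

/-- ROW Chamb -/
theorem chamber {A : ℕ} (hA : 1 ≤ A) (α β : Fin d → ℤ) (hα : ∀ k, |α k| ≤ A)
    (hβ : ∀ k, |β k| ≤ A) (m₁ m₂ : ℕ) :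
    ∃ (e e' : ℕ × ℕ) (X Y f₁ f₂ : ℕ), Adm A e ∧ Adm A e' ∧
      m₁ = X * e.1 + Y * e'.1 + f₁ ∧ m₂ = X * e.2 + Y * e'.2 + f₂ ∧ f₁ ≤ 2 * A ∧ f₂ ≤ 2 * A ∧
      ∀ k, (0 ≤ α k * e.1 + β k * e.2 ∧ 0 ≤ α k * e'.1 + β k * e'.2) ∨
        (α k * e.1 + β k * e.2 ≤ 0 ∧ α k * e'.1 + β k * e'.2 ≤ 0) := by
  obtain ⟨e, e', he, he', hD, hm, hm', hS⟩ := chamb_ind α β hα hβ m₁ m₂ Finset.univ
  set D : ℤ := (e.1 : ℤ) * e'.2 - e.2 * e'.1 with hDd
  set c₁ : ℤ := (e.1 : ℤ) * m₂ - e.2 * m₁ with hc1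
  set c₂ : ℤ := (m₁ : ℤ) * e'.2 - m₂ * e'.1 with hc2
  have x0 : 0 ≤ c₂ / D := Int.ediv_nonneg hm' hD.le
  have y0 : 0 ≤ c₁ / D := Int.ediv_nonneg hm hD.le
  have r1 := Int.emod_nonneg c₁ hD.ne'
  have r2 := Int.emod_nonneg c₂ hD.ne'
  have s1 := Int.emod_lt_of_pos c₁ hD
  have s2 := Int.emod_lt_of_pos c₂ hD
  have t1 : D * (c₁ / D) + c₁ % D = c₁ := Int.mul_ediv_add_emod c₁ D
  have t2 : D * (c₂ / D) + c₂ % D = c₂ := Int.mul_ediv_add_emod c₂ D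
  have e1 : (0 : ℤ) ≤ e.1 := Int.natCast_nonneg _
  have e2 : (0 : ℤ) ≤ e.2 := Int.natCast_nonneg _
  have e3 : (0 : ℤ) ≤ e'.1 := Int.natCast_nonneg _
  have e4 : (0 : ℤ) ≤ e'.2 := Int.natCast_nonneg _
  obtain ⟨b1, b2⟩ := adm_le hA he
  obtain ⟨b3, b4⟩ := adm_le hA he'
  -- the remainders
  have g1 : D * ((m₁ : ℤ) - (c₂ / D) * e.1 - (c₁ / D) * e'.1) =
      (c₂ % D) * e.1 + (c₁ % D) * e'.1 := by
    have h1 : c₂ % D = c₂ - D * (c₂ / D) := by linarith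
    have h2 : c₁ % D = c₁ - D * (c₁ / D) := by linarith
    rw [h1, h2]
    have h3 : D * (m₁ : ℤ) = c₂ * e.1 + c₁ * e'.1 := by
      rw [hDd, hc1, hc2]; ring
    linear_combination h3
  have g2 : D * ((m₂ : ℤ) - (c₂ / D) * e.2 - (c₁ / D) * e'.2) =
      (c₂ % D) * e.2 + (c₁ % D) * e'.2 := by
    have h1 : c₂ % D = c₂ - D * (c₂ / D) := by linarith
    have h2 : c₁ % D = c₁ - D * (c₁ / D) := by linarith
    rw [h1, h2]
    have h3 : D * (m₂ : ℤ) = c₂ * e.2 + c₁ * e'.2 := by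
      rw [hDd, hc1, hc2]; ring
    linear_combination h3
  have f1 : 0 ≤ (m₁ : ℤ) - (c₂ / D) * e.1 - (c₁ / D) * e'.1 := by
    refine nonneg_of_mul_nonneg_right ?_ hD
    rw [g1]
    have := mul_nonneg r2 e1
    have := mul_nonneg r1 e3
    linarith
  have f2 : 0 ≤ (m₂ : ℤ) - (c₂ / D) * e.2 - (c₁ / D) * e'.2 := by
    refine nonneg_of_mul_nonneg_right ?_ hD
    rw [g2]
    have := mul_nonneg r2 e2
    have := mul_nonneg r1 e4
    linarith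
  have u1 : (m₁ : ℤ) - (c₂ / D) * e.1 - (c₁ / D) * e'.1 ≤ e.1 + e'.1 := by
    refine le_of_mul_le_mul_left ?_ hD
    rw [g1]
    have := mul_le_mul_of_nonneg_right s2.le e1
    have := mul_le_mul_of_nonneg_right s1.le e3
    linarith
  have u2 : (m₂ : ℤ) - (c₂ / D) * e.2 - (c₁ / D) * e'.2 ≤ e.2 + e'.2 := by
    refine le_of_mul_le_mul_left ?_ hD
    rw [g2]
    have := mul_le_mul_of_nonneg_right s2.le e2
    have := mul_le_mul_of_nonneg_right s1.le e4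
    linarith
  have X1 : (((c₂ / D).toNat : ℕ) : ℤ) = c₂ / D := Int.toNat_of_nonneg x0
  have Y1 : (((c₁ / D).toNat : ℕ) : ℤ) = c₁ / D := Int.toNat_of_nonneg y0
  refine ⟨e, e', (c₂ / D).toNat, (c₁ / D).toNat,
    ((m₁ : ℤ) - (c₂ / D) * e.1 - (c₁ / D) * e'.1).toNat,
    ((m₂ : ℤ) - (c₂ / D) * e.2 - (c₁ / D) * e'.2).toNat, he, he', ?_, ?_, ?_, ?_,
    fun k => hS k (Finset.mem_univ k)⟩
  · zify
    rw [Int.toNat_of_nonneg f1, X1, Y1]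
    ring
  · zify
    rw [Int.toNat_of_nonneg f2, X1, Y1]
    ring
  · omega
  · omega

end Pool.Agent.EE2
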