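import Pool.Agent.EE2.Mono

/-!
# EE2 / Cyc: runs in subsystems whose cycles change every counter in one direction only
-/

set_option autoImplicit false
set_option linter.unusedSectionVars false

namespace Pool.Agent.EE2

open Pool.Agent.EEF Pool.Agent.REV Finset

variable {Q : Type} {d : ℕ} {T : VASS Q d}

private theorem cyc_sub {T' : VASS Q d} (h : T' ⊆ T) {p q : Q} {w : List (Vec d)}
    (hw : Walk T' p w q) : Walk T p w q := by
  induction hw with
  | nil p => exact .nil p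
  | cons h1 _ ih => exact .cons (h h1) ih

/-! ### Predicates along runs -/

private theorem cyc_up {P P' : Q → Vec d → Prop} {p q : Q} {x : Vec d} {w : List (Vec d)}
    (h : PW T P p x w q)
    (hP : ∀ r u, Walk T p u r → P r (x + u.sum) → P' r (x + u.sum)) : PW T P' p x w q := by
  induction h with
  | @nil p x h0 =>
    have := hP p [] (.nil _) (by simpa using h0)
    exact .nil (by simpa using this)
  | @cons p p' q v x w h0 h1 _ ih =>
    have h2 := hP p [] (.nil _) (by simpa using h0)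
    refine .cons (by simpa using h2) h1 (ih fun r u hu hr => ?_)
    have e : x + v + u.sum = x + (v :: u).sum := by rw [List.sum_cons, add_assoc]
    rw [e] at hr ⊢
    exact hP r (v :: u) (.cons h1 hu) hr

/-- if the part in `L` of a configuration only depends on the state for configurations joined by
closed walks, then it is a function of the state along the run -/
private theorem cyc_phi {P : Q → Vec d → Prop} {L : Finset (Fin d)}
    (hP : ∀ r y c, Walk T r c r → P r y → P r (y + c.sum) → ∀ k ∈ L, (y + c.sum) k = y k)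
    {p q : Q} {x : Vec d} {w : List (Vec d)} (h : PW T P p x w q) :
    ∃ (φ : Q → Vec d) (V : Set Q),
      PW T (fun r y => P r y ∧ r ∈ V ∧ ∀ k ∈ L, y k = φ r k) p x w q ∧
      ∀ r ∈ V, ∃ c, Walk T p c r ∧ P r (x + c.sum) ∧ ∀ k ∈ L, (x + c.sum) k = φ r k := by
  classical
  induction h with
  | @nil p x h0 =>
    refine ⟨fun _ => x, {p}, .nil ⟨h0, rfl, fun _ _ => rfl⟩, ?_⟩
    rintro r rfl
    exact ⟨[], .nil _, by simpa using h0, fun k _ => by simp⟩
  | @cons p p' q v x w h0 h1 _ ih =>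
    obtain ⟨φ, V, h3, h4⟩ := ih
    by_cases hp : p ∈ V
    · refine ⟨φ, V, .cons ⟨h0, hp, ?_⟩ h1 h3, fun r hr => ?_⟩
      · obtain ⟨c, c1, c2, c3⟩ := h4 p hp
        have e : x + v + c.sum = x + (v :: c).sum := by rw [List.sum_cons, add_assoc]
        rw [e] at c2 c3
        intro k hk
        rw [← c3 k hk]
        exact (hP p x (v :: c) (.cons h1 c1) h0 c2 k hk).symm
      · obtain ⟨c, c1, c2, c3⟩ := h4 r hr
        have e : x + v + c.sum = x + (v :: c).sum := by rw [List.sum_cons, add_assoc]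
        rw [e] at c2 c3
        exact ⟨v :: c, .cons h1 c1, c2, c3⟩
    · refine ⟨Function.update φ p x, insert p V, .cons ⟨h0, Or.inl rfl, fun k _ => ?_⟩ h1
        (h3.mono fun r y hr => ?_), fun r hr => ?_⟩
      · rw [Function.update_self]
      · obtain ⟨a1, a2, a3⟩ := hr
        have hne : r ≠ p := fun h => hp (h ▸ a2)
        refine ⟨a1, Or.inr a2, fun k hk => ?_⟩
        rw [Function.update_of_ne hne]
        exact a3 k hk
      · by_cases hrp : r = p
        · subst hrp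
          refine ⟨[], .nil _, by simpa using h0, fun k _ => ?_⟩
          rw [Function.update_self]
          simp
        · have hrV : r ∈ V := (Set.mem_insert_iff.1 hr).resolve_left hrp
          obtain ⟨c, c1, c2, c3⟩ := h4 r hrV
          have e : x + v + c.sum = x + (v :: c).sum := by rw [List.sum_cons, add_assoc]
          rw [e] at c2 c3
          refine ⟨v :: c, .cons h1 c1, c2, fun k hk => ?_⟩
          rw [Function.update_of_ne hrp]
          exact c3 k hk

/-! ### Pieces -/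

private theorem cyc_mem {L : Finset (Fin d)} {φ : Q → Vec d} {T₁ : VASS Q d}
    (hT₁ : ∀ a v b, (a, v, b) ∈ T → (∀ k ∈ L, 0 ≤ φ b k ∧ φ b k = φ a k + v k) →
      (a, v, b) ∈ T₁) {p q : Q} {x : Vec d} {w : List (Vec d)}
    (h : PW T (fun r y => 0 ≤ y ∧ ∀ k ∈ L, y k = φ r k) p x w q) : Walk T₁ p w q := by
  induction h with
  | nil _ => exact .nil _
  | cons h0 h1 h2 ih =>
    refine .cons (hT₁ _ _ _ h1 fun k hk => ?_) ih
    obtain ⟨a1, a2⟩ := h2.start
    have a3 := a1 k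
    have a4 := a2 k hk
    have a5 := h0.2 k hk
    simp only [Pi.zero_apply, Pi.add_apply] at a3 a4
    exact ⟨by rw [← a4]; exact a3, by rw [← a4, a5]⟩

private theorem cyc_low {L : Finset (Fin d)} {φ : Q → Vec d} {T₁ : VASS Q d}
    (hT₁ : ∀ a v b, (a, v, b) ∈ T₁ → ∀ k ∈ L, 0 ≤ φ b k ∧ φ b k = φ a k + v k) {p q : Q}
    {u : List (Vec d)} (h : Walk T₁ p u q) {k : Fin d} (hk : k ∈ L) (h0 : 0 ≤ φ p k) :
    0 ≤ φ p k + u.sum k := by
  induction h with
  | nil _ => simpa using h0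
  | cons h1 _ ih =>
    obtain ⟨a1, a2⟩ := hT₁ _ _ _ h1 k hk
    have := ih a1
    rw [List.sum_cons, Pi.add_apply, ← add_assoc, ← a2]
    exact this

/-- in `L` the level is constant, outside `L` the counters are large -/
private theorem cyc_piece [Fintype Q] {T₀ : VASS Q d} (hsub : T₀ ⊆ T) {σ : Fin d → ℤ}
    (hσ : ∀ k, σ k = 1 ∨ σ k = -1)
    (hT : ∀ r u, Walk T₀ r u r → ∀ k, 0 ≤ σ k * u.sum k) {L : Finset (Fin d)} {ℓ : Q → ℤ}
    {p q : Q} {x : Vec d} {w : List (Vec d)}
    (h : PW T₀ (fun r y => (0 ≤ y ∧ ∀ k, k ∉ L →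
      ((cMono (Fintype.card Q) (geomDim T) (maxNorm T) * maxNorm T : ℕ) : ℤ) ≤ y k) ∧
      ∑ k ∈ L, σ k * y k = ℓ r) p x w q) :
    Rlz T p x w.sum q (cMono (Fintype.card Q) (geomDim T) (maxNorm T)) := by
  classical
  obtain ⟨S, hS⟩ : ∃ S, S = cMono (Fintype.card Q) (geomDim T) (maxNorm T) := ⟨_, rfl⟩
  obtain ⟨M, hM⟩ : ∃ M, M = maxNorm T := ⟨_, rfl⟩
  obtain ⟨φ, V, h1, -⟩ := cyc_phi (L := L) (by
    rintro r y c hc ⟨-, e1⟩ ⟨-, e2⟩ k hk
    have e3 : ∑ k ∈ L, σ k * c.sum k = 0 := by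
      have e4 : ∑ k ∈ L, σ k * (y + c.sum) k = ∑ k ∈ L, σ k * y k + ∑ k ∈ L, σ k * c.sum k := by
        rw [← sum_add_distrib]
        exact sum_congr rfl fun k _ => by rw [Pi.add_apply]; ring
      rw [e2, e1] at e4
      linarith
    have e5 := (sum_eq_zero_iff_of_nonneg fun k _ => hT r c hc k).1 e3 k hk
    rw [Pi.add_apply]
    rcases hσ k with hk1 | hk1 <;> rw [hk1] at e5 <;> linarith) h
  obtain ⟨T₁, hT₁⟩ : ∃ T₁ : VASS Q d, T₁ = T₀.filter fun t =>
    ∀ k ∈ L, 0 ≤ φ t.2.2 k ∧ φ t.2.2 k = φ t.1 k + t.2.1 k := ⟨_, rfl⟩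
  have hsub₁ : T₁ ⊆ T₀ := by rw [hT₁]; exact filter_subset _ _
  have hw₁ : Walk T₁ p w q := by
    refine cyc_mem (T := T₀) (L := L) (φ := φ) (fun a v b h2 h3 => ?_)
      (h1.mono fun r y hr => ⟨hr.1.1.1, hr.2.2⟩)
    rw [hT₁, mem_filter]
    exact ⟨h2, h3⟩
  obtain ⟨I, g1, htot, hsize⟩ := core_part (T := T) (hsub₁.trans hsub) hw₁
  refine ⟨I, scheme_sub (hsub₁.trans hsub) g1, ?_, htot, hsize⟩
  refine Ok_of_prefix fun u u' hu k => ?_
  have hx0 := h.start.1.1 k
  simp only [Pi.zero_apply, Pi.add_apply] at hx0 ⊢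
  by_cases hk : k ∈ L
  · have h2 := scheme_walk _ g1
    rw [hu] at h2
    obtain ⟨r, h3, -⟩ := h2.split
    have h4 := h1.start.2.2 k hk
    have h5 := cyc_low (L := L) (φ := φ) (T₁ := T₁) (fun a v b h6 => by
      rw [hT₁, mem_filter] at h6
      exact h6.2) h3 hk (by rw [← h4]; exact hx0)
    rw [← h4] at h5
    exact h5
  · have hx1 := h.start.1.2 k hk
    have hx2 := h.stop.1.2 k hk
    have hloop : ∀ i ∈ I, 0 ≤ σ k * i.2.1.sum k := by
      intro i hi
      obtain ⟨-, r, hr⟩ := scheme_loops I g1 i hi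
      exact hT r _ (cyc_sub hsub₁ hr) k
    have h2 := vlem (T := T₁) (M := M) (fun a v b h3 k => by
      rw [hM]
      exact abs_le_maxNorm (hsub (hsub₁ h3)) k) g1 (k := k) (by
        rcases hσ k with hk1 | hk1
        · left
          intro i hi
          have := hloop i hi
          rw [hk1] at this
          linarith
        · right
          intro i hi
          have := hloop i hi
          rw [hk1] at this
          linarith) hu
    have h3 : ((schemeSize (I.map isk) * M : ℕ) : ℤ) ≤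
        ((cMono (Fintype.card Q) (geomDim T) (maxNorm T) * maxNorm T : ℕ) : ℤ) := by
      rw [← hM]
      exact_mod_cast Nat.mul_le_mul_right M (by rw [hM]; exact hsize)
    rw [htot] at h2
    rw [Pi.add_apply] at hx2
    rcases min_choice 0 (w.sum k) with h4 | h4 <;> rw [h4] at h2 <;> linarith

/-! ### Levels -/

private theorem cyc_abs {σ : Fin d → ℤ} (hσ : ∀ k, σ k = 1 ∨ σ k = -1) {L : Finset (Fin d)}
    {B : ℕ} {y : Vec d} (h0 : 0 ≤ y) (h1 : ∀ k ∈ L, y k < B) :
    |∑ k ∈ L, σ k * y k| ≤ (d * B : ℕ) := by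
  calc |∑ k ∈ L, σ k * y k| ≤ ∑ k ∈ L, |σ k * y k| := abs_sum_le_sum_abs _ _
    _ ≤ ∑ _k ∈ L, (B : ℤ) := by
      refine sum_le_sum fun k hk => ?_
      have a1 := h0 k
      have a2 := h1 k hk
      simp only [Pi.zero_apply] at a1
      rw [abs_le]
      rcases hσ k with hk1 | hk1 <;> rw [hk1] <;> constructor <;> linarith
    _ = L.card * B := by rw [sum_const, nsmul_eq_mul]
    _ ≤ (d * B : ℕ) := by
      have h2 : L.card ≤ d := by
        have := card_le_univ L
        rwa [Fintype.card_fin] at this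
      exact_mod_cast Nat.mul_le_mul_right B h2

private theorem cyc_level [Fintype Q] {T₀ : VASS Q d} (hsub : T₀ ⊆ T) {σ : Fin d → ℤ}
    (hσ : ∀ k, σ k = 1 ∨ σ k = -1)
    (hT : ∀ r u, Walk T₀ r u r → ∀ k, 0 ≤ σ k * u.sum k) {L : Finset (Fin d)} {B : ℕ} :
    ∀ (N : ℕ) {ℓ : Q → ℤ}, ∑ r, (((d * B : ℕ) : ℤ) - ℓ r).toNat ≤ N →
    ∀ {p q : Q} {x : Vec d} {w : List (Vec d)},
    PW T₀ (fun r y => (0 ≤ y ∧ (∀ k ∈ L, y k < B) ∧ ∀ k, k ∉ L →
      ((cMono (Fintype.card Q) (geomDim T) (maxNorm T) * maxNorm T : ℕ) : ℤ) ≤ y k) ∧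
      ℓ r ≤ ∑ k ∈ L, σ k * y k) p x w q →
    Rlz T p x w.sum q ((N + 1) * (cMono (Fintype.card Q) (geomDim T) (maxNorm T) + 2)) := by
  classical
  obtain ⟨S, hS⟩ : ∃ S, S = cMono (Fintype.card Q) (geomDim T) (maxNorm T) := ⟨_, rfl⟩
  intro N
  induction N with
  | zero =>
    intro ℓ hℓ p q x w h
    rw [← hS]
    have h1 := cyc_piece (T := T) hsub hσ hT (L := L) (ℓ := ℓ) (h.mono fun r y hr => by
      refine ⟨⟨hr.1.1, hr.1.2.2⟩, le_antisymm ?_ hr.2⟩
      have h2 : (((d * B : ℕ) : ℤ) - ℓ r).toNat = 0 := by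
        have h3 : (((d * B : ℕ) : ℤ) - ℓ r).toNat ≤
            ∑ r, (((d * B : ℕ) : ℤ) - ℓ r).toNat :=
          single_le_sum (f := fun r => (((d * B : ℕ) : ℤ) - ℓ r).toNat)
            (fun _ _ => Nat.zero_le _) (mem_univ r)
        omega
      have h3 := (abs_le.1 (cyc_abs hσ hr.1.1 hr.1.2.1)).2
      rw [Int.toNat_eq_zero] at h2
      linarith)
    rw [← hS] at h1
    exact h1.mono (by omega)
  | succ N ih =>
    intro ℓ hℓ p q x w h
    rw [← hS]
    rcases h.firstBad (fun r y => ∑ k ∈ L, σ k * y k = ℓ r) with h1 | ⟨u₁, u₂, r, rfl, h1, h2, h3, h4⟩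
    · have h1 := cyc_piece (T := T) hsub hσ hT (L := L) (ℓ := ℓ) (h1.mono fun r y hr =>
        ⟨⟨hr.1.1.1, hr.1.1.2.2⟩, hr.2⟩)
      rw [← hS] at h1
      exact h1.mono (by
        calc S ≤ 1 * (S + 2) := by omega
          _ ≤ (N + 1 + 1) * (S + 2) := Nat.mul_le_mul_right _ (by omega))
    · have hlt : ℓ r < ∑ k ∈ L, σ k * (x + u₁.sum) k := lt_of_le_of_ne h1.2 (Ne.symm h2)
      have hup := (abs_le.1 (cyc_abs hσ h1.1.1 h1.1.2.1)).2
      have hcard : ∑ s, (((d * B : ℕ) : ℤ) -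
          (Function.update ℓ r (∑ k ∈ L, σ k * (x + u₁.sum) k)) s).toNat ≤ N := by
        have h5 : ∑ s, (((d * B : ℕ) : ℤ) -
            (Function.update ℓ r (∑ k ∈ L, σ k * (x + u₁.sum) k)) s).toNat <
            ∑ s, (((d * B : ℕ) : ℤ) - ℓ s).toNat := by
          refine sum_lt_sum (fun s _ => ?_) ⟨r, mem_univ r, ?_⟩
          · by_cases hs : s = r
            · subst hs
              rw [Function.update_self]
              omega
            · rw [Function.update_of_ne hs]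
          · rw [Function.update_self]
            omega
        omega
      have h5 : PW T₀ (fun s y => (0 ≤ y ∧ (∀ k ∈ L, y k < B) ∧ ∀ k, k ∉ L →
          ((cMono (Fintype.card Q) (geomDim T) (maxNorm T) * maxNorm T : ℕ) : ℤ) ≤ y k) ∧
          (Function.update ℓ r (∑ k ∈ L, σ k * (x + u₁.sum) k)) s ≤ ∑ k ∈ L, σ k * y k)
          r (x + u₁.sum) u₂ q := by
        refine cyc_up h3 fun s u hu hs => ⟨hs.1, ?_⟩
        by_cases hsr : s = r
        · subst hsr
          rw [Function.update_self]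
          have e : ∑ k ∈ L, σ k * (x + u₁.sum + u.sum) k =
              ∑ k ∈ L, σ k * (x + u₁.sum) k + ∑ k ∈ L, σ k * u.sum k := by
            rw [← sum_add_distrib]
            exact sum_congr rfl fun k _ => by rw [Pi.add_apply (x + u₁.sum)]; ring
          rw [e]
          have := sum_nonneg fun k (_ : k ∈ L) => hT s u hu k
          linarith
        · rw [Function.update_of_ne hsr]
          exact hs.2
      have h6 := ih hcard h5
      rw [← hS] at h6
      have h7 : Rlz T p x u₁.sum r (S + 2) := by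
        rcases h4 with ⟨rfl, rfl⟩ | ⟨u₀, v, r₀, rfl, h8, h9⟩
        · exact (Rlz.nil r x).mono (Nat.zero_le _)
        · have h10 := cyc_piece (T := T) hsub hσ hT (L := L) (ℓ := ℓ) (h8.mono fun r y hr =>
            ⟨⟨hr.1.1.1, hr.1.1.2.2⟩, hr.2⟩)
          rw [← hS] at h10
          have h11 := h1.1.1
          rw [List.sum_append, List.sum_singleton, ← add_assoc] at h11
          rw [List.sum_append, List.sum_singleton]
          exact h10.append (Rlz.step (hsub h9) h11)
      rw [List.sum_append]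
      exact (h7.append h6).mono (le_of_eq (by ring))

/-! ### Small and large counters -/

private theorem cyc_wiggle [Fintype Q] {T₀ : VASS Q d} (hsub : T₀ ⊆ T) {σ : Fin d → ℤ}
    (hσ : ∀ k, σ k = 1 ∨ σ k = -1)
    (hT : ∀ r u, Walk T₀ r u r → ∀ k, 0 ≤ σ k * u.sum k) {p q : Q} {u : List (Vec d)}
    (hu : Walk T₀ p u q) (k : Fin d) :
    -((Fintype.card Q * maxNorm T : ℕ) : ℤ) ≤ σ k * u.sum k := by
  obtain ⟨w', h1, h2, -, h3, h4⟩ := erase_mod (Pi.evalAddMonoidHom (fun _ : Fin d => ℤ) k)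
    one_pos _ le_rfl hu.walkIn
  have h5 : |w'.sum k| ≤ (Fintype.card Q * maxNorm T : ℕ) := by
    refine (walk_le (cyc_sub hsub h1.walk) k).trans ?_
    rw [Nat.mul_one] at h2
    exact_mod_cast Nat.mul_le_mul_right _ h2
  have h6 := abs_le.1 h5
  rcases hσ k with hk | hk
  · have h7 := h3 fun r u hru => by
      have := hT r u hru.walk k
      rw [hk, one_mul] at this
      exact this
    simp only [Pi.evalAddMonoidHom_apply] at h7
    rw [hk]
    linarith
  · have h7 := h4 fun r u hru => by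
      have := hT r u hru.walk k
      rw [hk] at this
      simp only [Pi.evalAddMonoidHom_apply]
      linarith
    simp only [Pi.evalAddMonoidHom_apply] at h7
    rw [hk]
    linarith

/-- pieces for fixed sets of small and large counters -/
def cIn (n d g M : ℕ) : ℕ :=
  (n * (2 * (d * (cMono n g M * M + 2 * (n * M)))) + 1) * (cMono n g M + 2)

private theorem cyc_flip [Fintype Q] {T₀ : VASS Q d} (hsub : T₀ ⊆ T) {σ : Fin d → ℤ}
    (hσ : ∀ k, σ k = 1 ∨ σ k = -1)
    (hT : ∀ r u, Walk T₀ r u r → ∀ k, 0 ≤ σ k * u.sum k) {B₀ A : ℕ}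
    (hB : B₀ = cMono (Fintype.card Q) (geomDim T) (maxNorm T) * maxNorm T)
    (hA : A = Fintype.card Q * maxNorm T) :
    ∀ (N : ℕ) {F : Finset (Fin d)}, (univ \ F).card ≤ N →
    ∀ {p q : Q} {x : Vec d} {w : List (Vec d)},
    PW T₀ (fun _ y => 0 ≤ y ∧ ∀ k ∈ F, (σ k = 1 → (B₀ : ℤ) ≤ y k) ∧
      (σ k = -1 → y k < B₀ + 2 * A)) p x w q →
    Rlz T p x w.sum q ((N + 1) * (cIn (Fintype.card Q) d (geomDim T) (maxNorm T) + 2)) := by
  classical
  obtain ⟨C, hC⟩ : ∃ C, C = cIn (Fintype.card Q) d (geomDim T) (maxNorm T) := ⟨_, rfl⟩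
  -- pieces without change
  have inner : ∀ {F : Finset (Fin d)} {p q : Q} {x : Vec d} {w : List (Vec d)},
      PW T₀ (fun _ y => (0 ≤ y ∧ ∀ k ∈ F, (σ k = 1 → (B₀ : ℤ) ≤ y k) ∧
        (σ k = -1 → y k < B₀ + 2 * A)) ∧ ∀ k, k ∉ F → (σ k = 1 → y k < B₀ + A) ∧
        (σ k = -1 → (B₀ : ℤ) + A ≤ y k)) p x w q → Rlz T p x w.sum q C := by
    intro F p q x w h
    have hA0 : (0 : ℤ) ≤ A := Int.natCast_nonneg A
    obtain ⟨B, hBB⟩ : ∃ B, B = B₀ + 2 * A := ⟨_, rfl⟩
    have h1 := cyc_level (T := T) hsub hσ hT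
      (L := univ.filter fun k => (σ k = 1 ∧ k ∉ F) ∨ (σ k = -1 ∧ k ∈ F)) (B := B)
      (Fintype.card Q * (2 * (d * B))) (ℓ := fun _ => -((d * B : ℕ) : ℤ)) (by
        have e : (((d * B : ℕ) : ℤ) - -((d * B : ℕ) : ℤ)).toNat = 2 * (d * B) := by omega
        rw [e, sum_const, smul_eq_mul, card_univ]) (p := p) (q := q) (x := x) (w := w)
      (h.mono fun r y hr => by
        obtain ⟨⟨h2, h3⟩, h4⟩ := hr
        have h5 : ∀ k ∈ univ.filter fun k => (σ k = 1 ∧ k ∉ F) ∨ (σ k = -1 ∧ k ∈ F),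
            y k < B := by
          intro k hk
          rw [hBB]
          push_cast
          rcases (mem_filter.1 hk).2 with ⟨a1, a2⟩ | ⟨a1, a2⟩
          · have := (h4 k a2).1 a1
            linarith
          · exact (h3 k a2).2 a1
        refine ⟨⟨h2, h5, fun k hk => ?_⟩, (abs_le.1 (cyc_abs hσ h2 h5)).1⟩
        rw [← hB]
        rw [mem_filter] at hk
        push Not at hk
        obtain ⟨b1, b2⟩ := hk (mem_univ k)
        rcases hσ k with hk1 | hk1
        · exact (h3 k (b1 hk1)).1 hk1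
        · have := (h4 k (b2 hk1)).2 hk1
          linarith)
    refine h1.mono (le_of_eq ?_)
    rw [hC]
    unfold cIn
    rw [hBB, hB, hA]
  intro N
  induction N with
  | zero =>
    intro F hF p q x w h
    rw [← hC]
    have hF' : ∀ k, k ∈ F := by
      intro k
      have h1 : univ \ F = ∅ := card_eq_zero.1 (Nat.le_zero.1 hF)
      by_contra h2
      have h3 : k ∈ univ \ F := mem_sdiff.2 ⟨mem_univ k, h2⟩
      rw [h1] at h3
      exact notMem_empty _ h3
    exact (inner (h.mono fun r y hr => ⟨hr, fun k hk => absurd (hF' k) hk⟩)).mono (by omega)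
  | succ N ih =>
    intro F hF p q x w h
    rw [← hC] at ih ⊢
    rcases h.firstBad (fun _ y => ∀ k, k ∉ F → (σ k = 1 → y k < B₀ + A) ∧
        (σ k = -1 → (B₀ : ℤ) + A ≤ y k)) with h1 | ⟨u₁, u₂, r, rfl, h1, h2, h3, h4⟩
    · refine (inner h1).mono ?_
      calc C ≤ 1 * (C + 2) := by omega
        _ ≤ (N + 1 + 1) * (C + 2) := Nat.mul_le_mul_right _ (by omega)
    · obtain ⟨F', hF'⟩ : ∃ F' : Finset (Fin d), F' = F ∪ univ.filter fun k =>
          (σ k = 1 ∧ (B₀ : ℤ) + A ≤ (x + u₁.sum) k) ∨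
          (σ k = -1 ∧ (x + u₁.sum) k < B₀ + A) := ⟨_, rfl⟩
      have hcard : (univ \ F').card ≤ N := by
        have h5 : (univ \ F').card < (univ \ F).card := by
          apply card_lt_card
          push Not at h2
          obtain ⟨k, hk, h2⟩ := h2
          rw [ssubset_iff_of_subset]
          · refine ⟨k, mem_sdiff.2 ⟨mem_univ k, hk⟩, fun h6 => (mem_sdiff.1 h6).2 ?_⟩
            rw [hF', mem_union, mem_filter]
            refine Or.inr ⟨mem_univ k, ?_⟩
            by_cases h7 : σ k = 1 → (x + u₁.sum) k < B₀ + A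
            · exact Or.inr (h2 h7)
            · push Not at h7
              exact Or.inl h7
          · intro k hk
            rw [mem_sdiff] at hk ⊢
            exact ⟨hk.1, fun h6 => hk.2 (by rw [hF']; exact mem_union_left _ h6)⟩
        omega
      have h5 : PW T₀ (fun _ y => 0 ≤ y ∧ ∀ k ∈ F', (σ k = 1 → (B₀ : ℤ) ≤ y k) ∧
          (σ k = -1 → y k < B₀ + 2 * A)) r (x + u₁.sum) u₂ q := by
        refine cyc_up h3 fun s u hu hs => ⟨hs.1, fun k hk => ?_⟩
        have hwig := cyc_wiggle (T := T) hsub hσ hT hu k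
        rw [← hA] at hwig
        rw [hF', mem_union] at hk
        rcases hk with hk | hk
        · exact hs.2 k hk
        · rw [Pi.add_apply (x + u₁.sum)]
          rcases (mem_filter.1 hk).2 with ⟨a1, a2⟩ | ⟨a1, a2⟩
          · refine ⟨fun _ => ?_, fun h6 => ?_⟩
            · rw [a1] at hwig
              linarith
            · rw [a1] at h6
              norm_num at h6
          · refine ⟨fun h6 => ?_, fun _ => ?_⟩
            · rw [a1] at h6
              norm_num at h6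
            · rw [a1] at hwig
              linarith
      have h6 := ih hcard h5
      have h7 : Rlz T p x u₁.sum r (C + 2) := by
        rcases h4 with ⟨rfl, rfl⟩ | ⟨u₀, v, r₀, rfl, h8, h9⟩
        · exact (Rlz.nil r x).mono (Nat.zero_le _)
        · have h11 := h1.1
          rw [List.sum_append, List.sum_singleton, ← add_assoc] at h11
          rw [List.sum_append, List.sum_singleton]
          exact (inner h8).append (Rlz.step (hsub h9) h11)
      rw [List.sum_append]
      exact (h7.append h6).mono (le_of_eq (by ring))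

/-! ### Conclusion -/

private theorem cyc_pw {p q : Q} {x : Vec d} {w : List (Vec d)} (hw : Walk T p w q)
    (hx : 0 ≤ x) (hok : Ok x w) : PW T (fun _ y => 0 ≤ y) p x w q := by
  induction hw generalizing x with
  | nil p => exact .nil hx
  | cons h1 _ ih => exact .cons hx h1 (ih hok.1 hok.2)

/-- size of the schemes of cycle-monotone runs -/
def cCyc (n d g M : ℕ) : ℕ := (d + 1) * (cIn n d g M + 2)

/-- runs in a subsystem in which every counter is changed in one direction only by the cycles -/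
theorem cyc_part [Fintype Q] {T' : VASS Q d} (hsub : T' ⊆ T)
    (hT : ∀ k, (∀ r u, Walk T' r u r → 0 ≤ u.sum k) ∨ (∀ r u, Walk T' r u r → u.sum k ≤ 0))
    {p q : Q} {x : Vec d} {w : List (Vec d)} (hx : 0 ≤ x) (hw : Walk T' p w q) (hok : Ok x w) :
    Rlz T p x w.sum q (cCyc (Fintype.card Q) d (geomDim T) (maxNorm T)) := by
  classical
  obtain ⟨σ, hσ⟩ : ∃ σ : Fin d → ℤ, σ = fun k =>
    if ∀ r u, Walk T' r u r → 0 ≤ u.sum k then 1 else -1 := ⟨_, rfl⟩
  have hσ1 : ∀ k, σ k = 1 ∨ σ k = -1 := by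
    intro k
    rw [hσ]
    simp only
    split_ifs
    · exact Or.inl rfl
    · exact Or.inr rfl
  have hT' : ∀ r u, Walk T' r u r → ∀ k, 0 ≤ σ k * u.sum k := by
    intro r u hu k
    rw [hσ]
    simp only
    split_ifs with h
    · rw [one_mul]
      exact h r u hu
    · have := ((hT k).resolve_left h) r u hu
      linarith
  have h1 := cyc_flip (T := T) hsub hσ1 hT' rfl rfl d (F := ∅) (by
    rw [sdiff_empty, card_univ, Fintype.card_fin]) (p := p) (q := q) (x := x) (w := w)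
    ((cyc_pw hw hx hok).mono fun r y hr => ⟨hr, fun k hk => absurd hk (notMem_empty k)⟩)
  exact h1

/-! ### Numbers -/

theorem num_cyc {n d g M : ℕ} (hn : 1 ≤ n) (hg : g ≤ d) :
    cCyc n d g M + 1 ≤ (2 * n * (d + 1) * (M + 1)) ^ 24 := by
  obtain ⟨N, hN⟩ : ∃ N, N = 2 * n * (d + 1) * (M + 1) := ⟨_, rfl⟩
  rw [← hN]
  have hM : 1 ≤ M + 1 := by omega
  have hd : 1 ≤ d + 1 := by omega
  have h1 : 2 * n ≤ N := by
    rw [hN]
    calc 2 * n = 2 * n * 1 * 1 := by ring
      _ ≤ 2 * n * (d + 1) * (M + 1) := Nat.mul_le_mul (Nat.mul_le_mul_left _ hd) hM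
  have h2 : 2 * (d + 1) ≤ N := by
    rw [hN]
    calc 2 * (d + 1) = 2 * 1 * (d + 1) * 1 := by ring
      _ ≤ 2 * n * (d + 1) * (M + 1) :=
        Nat.mul_le_mul (Nat.mul_le_mul_right _ (Nat.mul_le_mul_left _ hn)) hM
  have h3 : 2 * (n * M) ≤ N := by
    rw [hN]
    calc 2 * (n * M) = 2 * n * 1 * M := by ring
      _ ≤ 2 * n * (d + 1) * (M + 1) := Nat.mul_le_mul (Nat.mul_le_mul_left _ hd) (by omega)
  have h3' : M ≤ N := by
    have : M ≤ n * M := Nat.le_mul_of_pos_left _ hn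
    omega
  have h4 : 2 ≤ N := by omega
  have hpos : 0 < N := by omega
  have h5 : n + 1 ≤ N := by omega
  have h6 : g + 1 + n * M ≤ N := by omega
  have h7 : g + 1 ≤ N := by omega
  have hS : cMono n g M + 1 ≤ N ^ 7 := by
    have h8 : cMono n g M ≤ N * N + 10 * N * N * N := by
      unfold cMono
      refine Nat.add_le_add (Nat.mul_le_mul (by omega) h5) ?_
      exact Nat.mul_le_mul (Nat.mul_le_mul (Nat.mul_le_mul_left _ h7) h6) h5
    have h9 : N * N ≤ N * N * N := Nat.le_mul_of_pos_right _ hpos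
    have h10 : 1 ≤ N * N * N := Nat.mul_pos (Nat.mul_pos hpos hpos) hpos
    have h11 : cMono n g M + 1 ≤ 2 ^ 4 * (N * N * N) := by
      have : 10 * N * N * N = 10 * (N * N * N) := by ring
      omega
    calc cMono n g M + 1 ≤ 2 ^ 4 * (N * N * N) := h11
      _ ≤ N ^ 4 * (N * N * N) := Nat.mul_le_mul_right _ (Nat.pow_le_pow_left h4 4)
      _ = N ^ 7 := by ring
  obtain ⟨S, hSS⟩ : ∃ S, S = cMono n g M := ⟨_, rfl⟩
  rw [← hSS] at hS
  have dbl : ∀ k : ℕ, 2 * N ^ k ≤ N ^ (k + 1) := fun k => by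
    calc 2 * N ^ k ≤ N * N ^ k := Nat.mul_le_mul_right _ h4
      _ = N ^ (k + 1) := by ring
  have one : ∀ k : ℕ, 1 ≤ N ^ k := fun k => Nat.one_le_pow _ _ hpos
  have a1 : S * M + 2 * (n * M) ≤ N ^ 9 := by
    have b1 : S * M ≤ N ^ 7 * N := Nat.mul_le_mul (by omega) h3'
    have b2 : N ^ 7 * N = N ^ 8 := by ring
    have b3 : N ≤ N ^ 8 := Nat.le_self_pow (by norm_num) N
    have b4 : 2 * N ^ 8 ≤ N ^ 9 := dbl 8
    omega
  have a2 : 2 * (d * (S * M + 2 * (n * M))) ≤ N ^ 10 := by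
    calc 2 * (d * (S * M + 2 * (n * M))) = 2 * d * (S * M + 2 * (n * M)) := by ring
      _ ≤ N * N ^ 9 := Nat.mul_le_mul (by omega) a1
      _ = N ^ 10 := by ring
  have a3 : n * (2 * (d * (S * M + 2 * (n * M)))) + 1 ≤ N ^ 12 := by
    have b1 : n * (2 * (d * (S * M + 2 * (n * M)))) ≤ N * N ^ 10 :=
      Nat.mul_le_mul (by omega) a2
    have b2 : N * N ^ 10 = N ^ 11 := by ring
    have b3 : 2 * N ^ 11 ≤ N ^ 12 := dbl 11
    have b4 := one 11
    omega
  have a4 : S + 2 ≤ N ^ 8 := by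
    have b1 : 2 * N ^ 7 ≤ N ^ 8 := dbl 7
    have b2 := one 7
    omega
  have a5 : cIn n d g M ≤ N ^ 20 := by
    unfold cIn
    rw [← hSS]
    calc _ ≤ N ^ 12 * N ^ 8 := Nat.mul_le_mul a3 a4
      _ = N ^ 20 := by ring
  have a6 : cIn n d g M + 2 ≤ N ^ 22 := by
    have b1 : 2 * N ^ 20 ≤ N ^ 21 := dbl 20
    have b2 : 2 * N ^ 21 ≤ N ^ 22 := dbl 21
    have b3 := one 20
    omega
  have a7 : cCyc n d g M ≤ N ^ 23 := by
    unfold cCyc
    calc _ ≤ N * N ^ 22 := Nat.mul_le_mul (by omega) a6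
      _ = N ^ 23 := by ring
  have b1 : 2 * N ^ 23 ≤ N ^ 24 := dbl 23
  have b2 := one 23
  omega

end Pool.Agent.EE2
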