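import Pool.Agent.EE2.Main
import Pool.Agent.EE2.Cyc

/-!
# EE2 / ClassPM: systems all of whose components are planar or have sign-consistent cycles
-/

set_option autoImplicit false
set_option linter.unusedSectionVars false

namespace Pool.Agent.EE2

open Pool.Agent.EEF Pool.Agent.REV Finset

variable {Q : Type} {d : ℕ} {T : VASS Q d}

/-- the cycles through `p` change every counter in one direction only -/
def MonAt (T : VASS Q d) (p : Q) : Prop :=
  ∀ k, (∀ u, Walk T p u p → 0 ≤ u.sum k) ∨ (∀ u, Walk T p u p → u.sum k ≤ 0)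

/-- closed walks anywhere in the component -/
theorem mon_closed {p r : Q} (hr : InS T p r) {k : Fin d} (h : ∀ u, Walk T p u p → 0 ≤ u.sum k)
    {u : List (Vec d)} (hu : Walk T r u r) : 0 ≤ u.sum k := by
  obtain ⟨a, ha⟩ := hr.1
  obtain ⟨b, hb⟩ := hr.2
  by_contra hc
  push Not at hc
  obtain ⟨N, hN⟩ : ∃ N : ℕ, (a.sum k + b.sum k) < N := by
    obtain ⟨N, hN⟩ := exists_nat_gt (a.sum k + b.sum k)
    exact ⟨N, hN⟩
  have h1 := h _ ((ha.append (hu.rep N)).append hb)
  rw [List.sum_append, List.sum_append, Pi.add_apply, Pi.add_apply, rep_sum_apply] at h1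
  have h2 : (N : ℤ) * u.sum k ≤ -N := by
    have : (N : ℤ) * u.sum k ≤ N * (-1) :=
      mul_le_mul_of_nonneg_left (by omega) (Int.natCast_nonneg _)
    linarith
  linarith

theorem mon_closed' {p r : Q} (hr : InS T p r) {k : Fin d} (h : ∀ u, Walk T p u p → u.sum k ≤ 0)
    {u : List (Vec d)} (hu : Walk T r u r) : u.sum k ≤ 0 := by
  obtain ⟨a, ha⟩ := hr.1
  obtain ⟨b, hb⟩ := hr.2
  by_contra hc
  push Not at hc
  obtain ⟨N, hN⟩ : ∃ N : ℕ, -(a.sum k + b.sum k) < N := by
    obtain ⟨N, hN⟩ := exists_nat_gt (-(a.sum k + b.sum k))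
    exact ⟨N, hN⟩
  have h1 := h _ ((ha.append (hu.rep N)).append hb)
  rw [List.sum_append, List.sum_append, Pi.add_apply, Pi.add_apply, rep_sum_apply] at h1
  have h2 : (N : ℤ) ≤ (N : ℤ) * u.sum k := by
    have : (N : ℤ) * 1 ≤ N * u.sum k :=
      mul_le_mul_of_nonneg_left (by omega) (Int.natCast_nonneg _)
    linarith
  linarith

/-- size of the schemes of one component -/
def cPM (n d g M : ℕ) : ℕ := max (cTot n d M) (cCyc n d g M)

/-- the transitions inside the component of `p` -/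
theorem comp_walk [DecidableEq Q] {p : Q} {T' : VASS Q d}
    (hT' : ∀ t : Q × Vec d × Q, t ∈ T' ↔ t ∈ T ∧ Reach T p t.1 ∧ Reach T t.2.2 p) :
    ∀ {r q : Q} {u : List (Vec d)}, Walk T r u q → Reach T p r → Reach T q p → Walk T' r u q := by
  intro r q u hu
  induction hu with
  | nil r => intro _ _; exact .nil r
  | @cons r r' q v u h1 h3 ih =>
    intro hr hq
    exact .cons ((hT' _).2 ⟨h1, hr, Reach.trans ⟨_, h3⟩ hq⟩)
      (ih (hr.trans ⟨[v], .cons h1 (.nil _)⟩) hq)

/-- one component, planar or with sign-consistent cycles -/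
theorem pm_part [Fintype Q] {p p' : Q} (h2 : TwoAt T p ∨ MonAt T p) {x : Vec d}
    {w : List (Vec d)} (hx : 0 ≤ x) (hp' : Reach T p' p) (hw : Walk T p w p') (hok : Ok x w) :
    Rlz T p x w.sum p' (cPM (Fintype.card Q) d (geomDim T) (maxNorm T)) := by
  classical
  rcases h2 with h2 | h2
  · exact (planar_part h2 hx hp' hw hok).mono (le_max_left _ _)
  · obtain ⟨T', hT'⟩ : ∃ T' : VASS Q d,
        T' = T.filter fun t => Reach T p t.1 ∧ Reach T t.2.2 p := ⟨_, rfl⟩
    have hmem : ∀ t : Q × Vec d × Q, t ∈ T' ↔ t ∈ T ∧ Reach T p t.1 ∧ Reach T t.2.2 p := by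
      intro t
      rw [hT', mem_filter]
    have hsub : T' ⊆ T := fun t ht => ((hmem t).1 ht).1
    have hw' := comp_walk hmem hw ⟨[], .nil _⟩ hp'
    have key : ∀ {r : Q} {u : List (Vec d)}, Walk T' r u r → u = [] ∨ InS T p r := by
      intro r u hu
      cases hu with
      | nil => exact Or.inl rfl
      | cons h1 h3 =>
        have h4 := ((hmem _).1 h1).2
        exact Or.inr ⟨h4.1, Reach.trans ⟨[_], .cons (hsub h1) (.nil _)⟩ h4.2⟩
    refine (cyc_part hsub (fun k => ?_) hx hw' hok).mono (le_max_right _ _)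
    rcases h2 k with h | h
    · left
      intro r u hu
      rcases key hu with rfl | hr
      · simp
      · exact mon_closed hr h (ph_walk_mono hsub hu)
    · right
      intro r u hu
      rcases key hu with rfl | hr
      · simp
      · exact mon_closed' hr h (ph_walk_mono hsub hu)

/-- all components in turn -/
theorem pm_scheme [Fintype Q] (hT : ∀ p, TwoAt T p ∨ MonAt T p) : ∀ (n : ℕ) {S : Finset Q},
    S.card ≤ n → ∀ {p q : Q} {x : Vec d} {w : List (Vec d)}, 0 ≤ x → WalkIn T S p w q → Ok x w →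
    Rlz T p x w.sum q (n * (cPM (Fintype.card Q) d (geomDim T) (maxNorm T) + 2)) := by
  classical
  obtain ⟨C, hC⟩ : ∃ C, C = cPM (Fintype.card Q) d (geomDim T) (maxNorm T) := ⟨_, rfl⟩
  rw [← hC]
  intro n
  induction n with
  | zero =>
    intro S hS p q x w hx h hok
    have : S = ∅ := Finset.card_eq_zero.1 (Nat.le_zero.1 hS)
    have h' := h.start
    rw [this] at h'
    simp at h'
  | succ n ih =>
    intro S hS p q x w hx h hok
    have hexp : (n + 1) * (C + 2) = n * (C + 2) + (C + 2) := by ring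
    have hpp : Reach T p p := ⟨[], .nil p⟩
    by_cases hq : Reach T q p
    · have h1 := pm_part (hT p) hx hq h.walk hok
      rw [← hC] at h1
      exact h1.mono (by rw [hexp]; omega)
    · obtain ⟨u, v, p₂, p₃, w', rfl, h1, h2, h3, h4⟩ := leave hq h hpp
      rw [Ok_append] at hok
      obtain ⟨o1, o2, o3⟩ := hok
      have h5 := pm_part (hT p) hx h2 h1 o1
      rw [← hC] at h5
      have hcard : (S.erase p).card ≤ n := by
        rw [card_erase_of_mem h.start]
        omega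
      have h6 := ih hcard o2 h4 o3
      have h7 := (h5.append (Rlz.step h3 o2)).append (by rw [← add_assoc]; exact h6)
      have e : (u ++ v :: w').sum = u.sum + v + w'.sum := by
        rw [List.sum_append, List.sum_cons, add_assoc]
      rw [e]
      exact h7.mono (by rw [hexp]; omega)

theorem cTot_pow {n d M : ℕ} (hn : 1 ≤ n) :
    cTot n d M + 1 ≤ (2 * n * (d + 1) * (M + 1)) ^ 79 := by
  have h := cTot_num (d := d) (M := M) hn
  have hb1 : 1 ≤ d + 1 := by omega
  have hm1 : 1 ≤ M + 1 := by omega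
  calc cTot n d M + 1 ≤ 2 ^ 79 * (n ^ 68 * (d + 1) ^ 3 * (M + 1) ^ 63) := h
    _ ≤ 2 ^ 79 * (n ^ 79 * (d + 1) ^ 79 * (M + 1) ^ 79) := by
        refine Nat.mul_le_mul_left _ (Nat.mul_le_mul (Nat.mul_le_mul ?_ ?_) ?_)
        · exact Nat.pow_le_pow_right hn (by norm_num)
        · exact Nat.pow_le_pow_right hb1 (by norm_num)
        · exact Nat.pow_le_pow_right hm1 (by norm_num)
    _ = (2 * n * (d + 1) * (M + 1)) ^ 79 := by
        rw [mul_pow, mul_pow, mul_pow, mul_assoc, mul_assoc, mul_assoc]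

theorem num_pm {n d M g s : ℕ} (hn : 1 ≤ n) (hg : g ≤ d) (hs : s ≤ n * (cPM n d g M + 2)) :
    45 * (s + 1) ^ 4 * (d + 1) ^ 3 * (M + 1) ^ 2 ≤ (2 * n * (d + 1) * (M + 1)) ^ 400 := by
  have h1 := cTot_pow (d := d) (M := M) hn
  have h2 := num_cyc (d := d) (M := M) hn hg
  obtain ⟨N, hN⟩ : ∃ N, N = 2 * n * (d + 1) * (M + 1) := ⟨_, rfl⟩
  have hb1 : 1 ≤ d + 1 := by omega
  have hm1 : 1 ≤ M + 1 := by omega
  have g1 : 2 * n ≤ N := by
    rw [hN]
    calc 2 * n = 2 * n * 1 * 1 := by ring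
      _ ≤ 2 * n * (d + 1) * (M + 1) := Nat.mul_le_mul (Nat.mul_le_mul_left _ hb1) hm1
  have g2 : d + 1 ≤ N := by
    rw [hN]
    calc d + 1 = 1 * (d + 1) * 1 := by ring
      _ ≤ 2 * n * (d + 1) * (M + 1) :=
        Nat.mul_le_mul (Nat.mul_le_mul_right _ (by omega)) hm1
  have g3 : M + 1 ≤ N := by
    rw [hN]
    calc M + 1 = 1 * (M + 1) := by ring
      _ ≤ 2 * n * (d + 1) * (M + 1) :=
        Nat.mul_le_mul_right _ (Nat.mul_pos (by omega) hb1)
  rw [← hN] at h1 h2 ⊢
  have hN2 : 2 ≤ N := by omega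
  have hN1 : 1 ≤ N := by omega
  have h3 : cPM n d g M + 1 ≤ N ^ 79 := by
    unfold cPM
    rcases le_total (cTot n d M) (cCyc n d g M) with h | h
    · rw [max_eq_right h]
      exact h2.trans (Nat.pow_le_pow_right hN1 (by norm_num))
    · rw [max_eq_left h]
      exact h1
  have h4 : s + 1 ≤ N ^ 81 := by
    obtain ⟨c, hc⟩ : ∃ c, c = cPM n d g M := ⟨_, rfl⟩
    rw [← hc] at hs h3
    calc s + 1 ≤ n * (c + 2) + 1 := by omega
      _ ≤ n * (c + 2) + n := by omega
      _ = n * (c + 3) := by ring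
      _ ≤ n * (3 * (c + 1)) := Nat.mul_le_mul_left _ (by omega)
      _ ≤ (N * N) * (c + 1) := by
          rw [← mul_assoc]
          refine Nat.mul_le_mul_right _ ?_
          have : (2 * n) * 2 ≤ N * N := Nat.mul_le_mul g1 hN2
          omega
      _ ≤ (N * N) * N ^ 79 := Nat.mul_le_mul_left _ h3
      _ = N ^ 81 := by ring
  have h5 : 45 ≤ N ^ 6 := le_trans (by norm_num) (Nat.pow_le_pow_left hN2 6)
  calc 45 * (s + 1) ^ 4 * (d + 1) ^ 3 * (M + 1) ^ 2
      ≤ N ^ 6 * (N ^ 81) ^ 4 * N ^ 3 * N ^ 2 := by gcongr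
    _ = N ^ 335 := by ring
    _ ≤ N ^ 400 := Nat.pow_le_pow_right hN1 (by norm_num)

/-- **Strong linearity for systems with planar or cycle-monotone components.** -/
theorem pm_main [Fintype Q] (hT : ∀ p, TwoAt T p ∨ MonAt T p) {s t : Q} {x y y' : Fin d → ℕ}
    {w : List (Fin d → ℤ)} (hrun : Run T s x w t y') (hy : ∀ k, y k ≤ y' k) :
    ∃ (w' : List (Fin d → ℤ)) (y'' : Fin d → ℕ), Run T s x w' t y'' ∧ (∀ k, y k ≤ y'' k) ∧
      w'.length ≤ max 1 (supN y) *
        ((2 * Fintype.card Q * (d + 1) * (maxNorm T + 1)) ^ 400) ^ (geomDim T + 1) := by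
  classical
  obtain ⟨h1, h2, h3⟩ := run_iff.1 hrun
  have hin : WalkIn T univ s w t := h1.walkIn
  obtain ⟨I, e1, e2, e3, e4⟩ := pm_scheme hT (Fintype.card Q) (le_of_eq card_univ)
    (zv_nonneg x) hin h2
  obtain ⟨a, ha⟩ := exists_items I
  have hw : unroll I = schemeWord (I.map isk) a := by
    conv_lhs => rw [ha]
    rw [items_unroll]
  have hrun' : Run T s x (schemeWord (I.map isk) a) t y' := by
    rw [← hw]
    refine run_iff.2 ⟨scheme_walk I e1, e2, ?_⟩
    rw [e3]
    exact h3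
  obtain ⟨a', y'', h4, h5, h6⟩ := scheme_main e1 hrun' hy
  refine ⟨_, y'', h4, h5, h6.trans ?_⟩
  have hn : 1 ≤ Fintype.card Q := Fintype.card_pos_iff.2 ⟨s⟩
  have hg : geomDim T ≤ d := by
    refine (Submodule.finrank_le _).trans ?_
    rw [Module.finrank_fintype_fun_eq_card, Fintype.card_fin]
  refine mono_bound (num_pm hn hg e4) ?_ (schemeDim_le e1)
  have h9 : 0 < Fintype.card Q := hn
  positivity

end Pool.Agent.EE2
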