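import Pool.Agent.EE2.Defs2

/-!
# EE2 / Corners: in dimension two there are few corner configurations
-/

set_option autoImplicit false
set_option linter.unusedSectionVars false

namespace Pool.Agent.EE2

open Pool.Agent.EEF Pool.Agent.REV Finset

variable {Q : Type} {d : ℕ} {T : VASS Q d}

open Classical in
/-- the corner configurations -/
private noncomputable def cdang (T : VASS Q d) (p : Q) (x : Vec d) (b : ℕ)
    (i : Q × (Fin d × Fin d) × (Fin b × Fin b)) : Q × Vec d :=
  (i.1, if h : ∃ u, Walk T p u i.1 ∧ (x + u.sum) i.2.1.1 = (i.2.2.1 : ℕ) ∧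
      (x + u.sum) i.2.1.2 = (i.2.2.2 : ℕ) then x + h.choose.sum else 0)

/-- ROW Corners -/
theorem corners [Fintype Q] {p₀ : Q} (h2 : TwoAt T p₀) (b : ℕ) {R : Q → Vec d → Prop}
    (hR : ∀ r y, R r y → InS T p₀ r ∧ 0 ≤ y) {p q : Q} {x : Vec d} {w : List (Vec d)}
    (h : PW T R p x w q) :
    ∃ D : Finset (Q × Vec d), D.card ≤ Fintype.card Q * (d * d * (b * b)) ∧
      PW T (fun r y => R r y ∧ (¬ Corner T p₀ b y ∨ (r, y) ∈ D)) p x w q := by
  classical
  have hp : InS T p₀ p := (hR _ _ h.start).1
  refine ⟨univ.image (cdang T p x b), ?_, ?_⟩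
  · refine card_image_le.trans ?_
    rw [card_univ, Fintype.card_prod, Fintype.card_prod, Fintype.card_prod, Fintype.card_prod,
      Fintype.card_fin, Fintype.card_fin]
  have key : ∀ {r : Q} {u : List (Vec d)}, Walk T p u r → R r (x + u.sum) →
      ¬ Corner T p₀ b (x + u.sum) ∨ (r, x + u.sum) ∈ univ.image (cdang T p x b) := by
    intro r u hu hr
    by_cases hc : Corner T p₀ b (x + u.sum)
    · right
      obtain ⟨hr1, h0⟩ := hR _ _ hr
      obtain ⟨i, j, hij, hi, hj⟩ := hc
      have hcoord : ∀ k, (x + u.sum) k < b → ∃ a : Fin b, (x + u.sum) k = (a : ℕ) := by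
        intro k hk
        have hk0 := h0 k
        simp only [Pi.zero_apply] at hk0
        have hv : ((((x + u.sum) k).toNat : ℕ) : ℤ) = (x + u.sum) k := Int.toNat_of_nonneg hk0
        have hvb : ((x + u.sum) k).toNat < b := by
          have : ((((x + u.sum) k).toNat : ℕ) : ℤ) < (b : ℕ) := by rw [hv]; exact hk
          exact_mod_cast this
        exact ⟨⟨_, hvb⟩, hv.symm⟩
      obtain ⟨a, ha⟩ := hcoord i hi
      obtain ⟨c, hc⟩ := hcoord j hj
      rw [mem_image]
      refine ⟨(r, (i, j), (a, c)), mem_univ _, ?_⟩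
      have hex : ∃ u', Walk T p u' r ∧ (x + u'.sum) i = (a : ℕ) ∧ (x + u'.sum) j = (c : ℕ) :=
        ⟨u, hu, ha, hc⟩
      rw [cdang]
      simp only
      rw [dif_pos hex]
      obtain ⟨h3, h4, h5⟩ := hex.choose_spec
      have h4' := h4.trans ha.symm
      have h5' := h5.trans hc.symm
      simp only [Pi.add_apply] at h4' h5'
      rw [det22 h2 hij hp hr1 h3 hu (by linarith) (by linarith)]
    · exact Or.inl hc
  have main : ∀ (w : List (Vec d)) {r : Q} {u : List (Vec d)}, Walk T p u r →
      PW T R r (x + u.sum) w q →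
      PW T (fun r y => R r y ∧ (¬ Corner T p₀ b y ∨ (r, y) ∈ univ.image (cdang T p x b))) r
        (x + u.sum) w q := by
    intro w
    induction w with
    | nil =>
      intro r u hu hw
      cases hw with
      | nil h0 => exact .nil ⟨h0, key hu h0⟩
    | cons v w ih =>
      intro r u hu hw
      cases hw with
      | cons h0 h1 h2 =>
        have e : x + (u ++ [v]).sum = x + u.sum + v := by
          rw [List.sum_append, List.sum_singleton, add_assoc]
        have h3 := ih (u := u ++ [v]) (hu.append (.cons h1 (.nil _))) (by rw [e]; exact h2)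
        rw [e] at h3
        exact .cons ⟨h0, key hu h0⟩ h1 h3
  have := main w (u := []) (.nil p) (by simpa using h)
  simpa using this

end Pool.Agent.EE2
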