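import Pool.Agent.EE2.Defs2

/-!
# EE2 / Dec: every walk is a short frame together with short cycles at states of the frame
-/

set_option autoImplicit false
set_option linter.unusedSectionVars false

namespace Pool.Agent.EE2

open Pool.Agent.EEF Pool.Agent.REV Finset

variable {Q : Type} {d : ℕ} {T : VASS Q d}

/-- cutting the cycles of a walk -/
private theorem dec_short [Fintype Q] {S : Finset Q} : ∀ (N : ℕ) {p q : Q} {w : List (Vec d)},
    w.length ≤ N → WalkIn T S p w q →
    ∃ (w' : List (Vec d)) (C : List (Q × List (Vec d))), WalkIn T S p w' q ∧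
      w'.length + 1 ≤ Fintype.card Q ∧
      (∀ c ∈ C, c.1 ∈ S ∧ Walk T c.1 c.2 c.1 ∧ c.2.length ≤ Fintype.card Q) ∧
      w.sum = w'.sum + (C.map fun c => c.2.sum).sum := by
  intro N
  induction N with
  | zero =>
    intro p q w hN h
    have : Nonempty Q := ⟨p⟩
    refine ⟨w, [], h, ?_, by simp, by simp⟩
    have := Fintype.card_pos (α := Q)
    omega
  | succ N ih =>
    intro p q w hN h
    rcases Nat.lt_or_ge w.length (Fintype.card Q) with hl | hl
    · exact ⟨w, [], h, hl, by simp, by simp⟩
    · obtain ⟨u₁, u₂, u₃, r, e, hne, hlen, h1, h2, h3, -⟩ :=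
        pig (0 : Vec d →+ ℤ) one_pos h (by omega)
      have hpos : 0 < u₂.length := List.length_pos_iff.2 hne
      have hlw : w.length = u₁.length + u₂.length + u₃.length := by
        rw [e, List.length_append, List.length_append]
      rw [List.length_append] at hlen
      obtain ⟨w', C, a1, a2, a3, a4⟩ := ih (w := u₁ ++ u₃)
        (by rw [List.length_append]; omega) (h1.append h3)
      refine ⟨w', (r, u₂) :: C, a1, a2, ?_, ?_⟩
      · intro c hc
        rcases List.mem_cons.1 hc with rfl | hc
        · exact ⟨h2.start, h2.walk, by simp only; omega⟩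
        · exact a3 c hc
      · rw [List.map_cons, List.sum_cons, e, List.sum_append, List.sum_append]
        rw [List.sum_append] at a4
        have : u₁.sum + u₂.sum + u₃.sum = u₂.sum + (u₁.sum + u₃.sum) := by abel
        rw [this, a4]
        abel

/-- the first step leaving a set of states -/
private theorem dec_leave [Fintype Q] (V : Finset Q) {r q : Q} {w : List (Vec d)}
    (h : Walk T r w q) (hr : r ∈ V) : WalkIn T V r w q ∨
      ∃ (u w' : List (Vec d)) (v : Vec d) (r' r'' : Q), w = u ++ v :: w' ∧ WalkIn T V r u r' ∧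
        (r', v, r'') ∈ T ∧ r'' ∉ V ∧ Walk T r'' w' q := by
  classical
  induction h with
  | nil p => exact Or.inl (.nil hr)
  | @cons p p' q v w h1 h2 ih =>
    by_cases hp' : p' ∈ V
    · rcases ih hp' with h3 | ⟨u, w', v', r', r'', e, h3, h4, h5, h6⟩
      · exact Or.inl (.cons hr h1 h3)
      · exact Or.inr ⟨v :: u, w', v', r', r'', by rw [e, List.cons_append], .cons hr h1 h3, h4,
          h5, h6⟩
    · exact Or.inr ⟨[], w, v, p, p', rfl, .nil hr, h1, hp', h2⟩

private theorem dec_cons_sum (r : Q) (σ : List (Vec d)) (F : List (Ent Q d)) :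
    frSum ((r, [], σ) :: F) = σ.sum + frSum F := by
  simp [frSum, frItems, unroll_cons, wrd, rep_zero]

private theorem dec_cons_size (r : Q) (σ : List (Vec d)) (F : List (Ent Q d)) :
    frSize ((r, [], σ) :: F) = σ.length + 1 + frSize F := by
  simp [frSize, frItems, schemeSize, isk]

private theorem dec_main [Fintype Q] [DecidableEq Q] : ∀ (N : ℕ) (V : Finset Q), (Vᶜ).card ≤ N →
    ∀ {r q : Q} {w : List (Vec d)}, Walk T r w q → r ∈ V →
    ∃ (F : List (Ent Q d)) (C : List (Q × List (Vec d))), Fr T r F q ∧ r ∈ F.map Prod.fst ∧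
      frSize F ≤ (N + 1) * (Fintype.card Q + 1) ∧ (∀ i ∈ frItems F, i.2.1 = []) ∧
      (∀ c ∈ C, (c.1 ∈ V ∨ c.1 ∈ F.map Prod.fst) ∧ Walk T c.1 c.2 c.1 ∧
        c.2.length ≤ Fintype.card Q) ∧
      w.sum = frSum F + (C.map fun c => c.2.sum).sum := by
  intro N
  -- the walk inside `V`
  have hin : ∀ (N : ℕ) (V : Finset Q) {r q : Q} {w : List (Vec d)}, WalkIn T V r w q →
      ∃ (F : List (Ent Q d)) (C : List (Q × List (Vec d))), Fr T r F q ∧ r ∈ F.map Prod.fst ∧
      frSize F ≤ (N + 1) * (Fintype.card Q + 1) ∧ (∀ i ∈ frItems F, i.2.1 = []) ∧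
      (∀ c ∈ C, (c.1 ∈ V ∨ c.1 ∈ F.map Prod.fst) ∧ Walk T c.1 c.2 c.1 ∧
        c.2.length ≤ Fintype.card Q) ∧
      w.sum = frSum F + (C.map fun c => c.2.sum).sum := by
    intro N V r q w h
    obtain ⟨w', C, h1, h2, h3, h4⟩ := dec_short _ le_rfl h
    refine ⟨[(r, [], w')], C, .cons (by simp) h1.walk (.nil q), by simp, ?_, ?_, ?_, ?_⟩
    · rw [dec_cons_size]
      have h5 : frSize ([] : List (Ent Q d)) = 0 := rfl
      rw [h5]
      have h6 : 1 * (Fintype.card Q + 1) ≤ (N + 1) * (Fintype.card Q + 1) :=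
        Nat.mul_le_mul_right _ (by omega)
      omega
    · intro i hi
      simp only [frItems, List.nil_append, List.mem_singleton] at hi
      rw [hi]
    · intro c hc
      exact ⟨Or.inl (h3 c hc).1, (h3 c hc).2⟩
    · rw [dec_cons_sum]
      have h5 : frSum ([] : List (Ent Q d)) = 0 := rfl
      rw [h5, add_zero, h4]
  induction N with
  | zero =>
    intro V hV r q w h hr
    rcases dec_leave V h hr with h1 | ⟨u, w', v, r', r'', e, h3, h4, h5, h6⟩
    · exact hin 0 V h1
    · exfalso
      have h7 : Vᶜ = ∅ := Finset.card_eq_zero.1 (Nat.le_zero.1 hV)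
      have h8 : r'' ∈ Vᶜ := mem_compl.2 h5
      rw [h7] at h8
      exact notMem_empty _ h8
  | succ N ih =>
    intro V hV r q w h hr
    rcases dec_leave V h hr with h1 | ⟨u, w', v, r', r'', e, h3, h4, h5, h6⟩
    · exact hin (N + 1) V h1
    · have hV' : ((insert r'' V)ᶜ).card ≤ N := by
        have h7 : r'' ∈ Vᶜ := mem_compl.2 h5
        have h8 : (insert r'' V)ᶜ = Vᶜ.erase r'' := by
          ext x
          simp
        rw [h8, card_erase_of_mem h7]
        omega
      obtain ⟨F, C, a1, a2, a3, a4, a5, a6⟩ := ih (insert r'' V) hV' h6 (mem_insert_self _ _)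
      obtain ⟨u', C', b1, b2, b3, b4⟩ := dec_short _ le_rfl h3
      refine ⟨(r, [], u' ++ [v]) :: F, C' ++ C, .cons (by simp)
        (b1.walk.append (.cons h4 (.nil _))) a1, by simp, ?_, ?_, ?_, ?_⟩
      · rw [dec_cons_size, List.length_append, List.length_singleton]
        have h9 : (N + 1 + 1) * (Fintype.card Q + 1) =
            (N + 1) * (Fintype.card Q + 1) + (Fintype.card Q + 1) := by ring
        rw [h9]
        omega
      · intro i hi
        simp only [frItems, List.nil_append, List.mem_cons] at hi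
        rcases hi with rfl | hi
        · rfl
        · exact a4 i hi
      · intro c hc
        rcases List.mem_append.1 hc with hc | hc
        · exact ⟨Or.inl (b3 c hc).1, (b3 c hc).2⟩
        · refine ⟨?_, (a5 c hc).2⟩
          rcases (a5 c hc).1 with h7 | h7
          · rcases mem_insert.1 h7 with h7 | h7
            · right
              rw [List.map_cons, h7]
              exact List.mem_cons_of_mem _ a2
            · exact Or.inl h7
          · right
            rw [List.map_cons]
            exact List.mem_cons_of_mem _ h7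
      · rw [dec_cons_sum, e, List.sum_append, List.sum_cons, List.sum_append, List.sum_singleton,
          List.map_append, List.sum_append, b4, a6]
        abel

/-- ROW Dec -/
theorem decomp [Fintype Q] {p q : Q} {w : List (Vec d)} (h : Walk T p w q) :
    ∃ (F : List (Ent Q d)) (C : List (Q × List (Vec d))), Fr T p F q ∧ p ∈ F.map Prod.fst ∧
      frSize F ≤ Fintype.card Q * (Fintype.card Q + 1) ∧ (∀ i ∈ frItems F, i.2.1 = []) ∧
      (∀ c ∈ C, c.1 ∈ F.map Prod.fst ∧ Walk T c.1 c.2 c.1 ∧ c.2.length ≤ Fintype.card Q) ∧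
      w.sum = frSum F + (C.map fun c => c.2.sum).sum := by
  classical
  have : Nonempty Q := ⟨p⟩
  have hpos := Fintype.card_pos (α := Q)
  obtain ⟨F, C, h1, h2, h3, h4, h5, h6⟩ := dec_main (Fintype.card Q - 1) ({p} : Finset Q)
    (by rw [card_compl, card_singleton]) h (mem_singleton_self p)
  refine ⟨F, C, h1, h2, ?_, h4, ?_, h6⟩
  · rwa [Nat.sub_add_cancel hpos] at h3
  · intro c hc
    refine ⟨?_, (h5 c hc).2⟩
    rcases (h5 c hc).1 with h7 | h7
    · rw [mem_singleton.1 h7]
      exact h2
    · exact h7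

end Pool.Agent.EE2
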