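import Pool.Agent.EE2.Defs2

/-!
# EE2 / Frame: frames, insertion of items, prefixes of sign-compatible schemes
-/

set_option autoImplicit false
set_option linter.unusedSectionVars false

namespace Pool.Agent.EE2

open Pool.Agent.EEF Pool.Agent.REV Finset

variable {Q : Type} {d : ℕ} {T : VASS Q d}

theorem frm_closed_items {r q : Q} {L : List (Itm d)} (hL : ∀ i ∈ L, Walk T r i.1 r ∧ Walk T r i.2.1 r)
    {J : List (List (Vec d) × List (Vec d))} (hJ : IsScheme T r J q) :
    IsScheme T r (L.map isk ++ J) q := by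
  induction L with
  | nil => exact hJ
  | cons i L ih =>
    obtain ⟨h1, h2⟩ := hL i List.mem_cons_self
    exact .cons h1 h2 (ih fun j hj => hL j (List.mem_cons_of_mem _ hj))

theorem fr_scheme {p q : Q} {F : List (Ent Q d)} (h : Fr T p F q) :
    IsScheme T p ((frItems F).map isk) q ∧
      ∀ r ∈ F.map Prod.fst, Reach T p r ∧ Reach T r q := by
  induction h with
  | nil p => exact ⟨.nil p, by simp⟩
  | @cons r r' q L σ F hL hσ hF ih =>
    obtain ⟨h1, h2⟩ := ih
    have hrq : Reach T r' q := by
      have := scheme_walk _ h1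
      exact ⟨_, this⟩
    refine ⟨?_, ?_⟩
    · rw [frItems, List.map_append, List.map_cons]
      exact frm_closed_items hL (.cons hσ (.nil _) h1)
    · intro s hs
      rw [List.map_cons, List.mem_cons] at hs
      rcases hs with rfl | hs
      · exact ⟨⟨[], .nil _⟩, Reach.trans ⟨σ, hσ⟩ hrq⟩
      · obtain ⟨h3, h4⟩ := h2 s hs
        exact ⟨Reach.trans ⟨σ, hσ⟩ h3, h4⟩

theorem frSum_cons (e : Ent Q d) (F : List (Ent Q d)) :
    frSum (e :: F) = (unroll e.2.1).sum + e.2.2.sum + frSum F := by
  rw [frSum, frItems, unroll_append, unroll_cons, List.sum_append, List.sum_append, wrd, rep_zero,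
    List.append_nil, frSum, add_assoc]

theorem frSize_cons (e : Ent Q d) (F : List (Ent Q d)) :
    frSize (e :: F) = schemeSize (e.2.1.map isk) + (e.2.2.length + 1) + frSize F := by
  rw [frSize, frItems, List.map_append, schemeSize_append, List.map_cons, frSize]
  simp only [schemeSize, isk, List.map_cons, List.sum_cons, List.length_nil]
  omega

theorem fr_insert {p q r : Q} {F : List (Ent Q d)} (h : Fr T p F q) (hr : r ∈ F.map Prod.fst)
    {α β : List (Vec d)} (hα : Walk T r α r) (hβ : Walk T r β r) (a : ℕ) :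
    ∃ F', Fr T p F' q ∧ F'.map Prod.fst = F.map Prod.fst ∧
      frSum F' = frSum F + α.sum + a • β.sum ∧ frSize F' = frSize F + α.length + β.length + 1 ∧
      ∀ i ∈ frItems F', i ∈ frItems F ∨ i = (α, β, a) := by
  induction h with
  | nil p => simp at hr
  | @cons s r' q L σ F hL hσ hF ih =>
    rw [List.map_cons, List.mem_cons] at hr
    by_cases hs : r = s
    · subst hs
      refine ⟨(r, (α, β, a) :: L, σ) :: F, .cons ?_ hσ hF, rfl, ?_, ?_, ?_⟩
      · intro i hi
        rcases List.mem_cons.1 hi with rfl | hi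
        · exact ⟨hα, hβ⟩
        · exact hL i hi
      · rw [frSum_cons, frSum_cons, unroll_cons, List.sum_append, wrd, List.sum_append, rep_sum]
        abel
      · rw [frSize_cons, frSize_cons]
        simp only [schemeSize, isk, List.map_cons, List.sum_cons]
        omega
      · intro i hi
        rw [frItems, List.cons_append, List.mem_cons] at hi
        rcases hi with rfl | hi
        · exact Or.inr rfl
        · exact Or.inl hi
    · obtain ⟨F', h1, h2, h3, h4, h5⟩ := ih (hr.resolve_left hs)
      refine ⟨(s, L, σ) :: F', .cons hL hσ h1, ?_, ?_, ?_, ?_⟩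
      · rw [List.map_cons, List.map_cons, h2]
      · rw [frSum_cons, frSum_cons, h3]
        abel
      · rw [frSize_cons, frSize_cons, h4]
        omega
      · intro i hi
        rw [frItems, List.mem_append, List.mem_cons] at hi
        rw [frItems, List.mem_append, List.mem_cons]
        rcases hi with hi | hi | hi
        · exact Or.inl (Or.inl hi)
        · exact Or.inl (Or.inr (Or.inl hi))
        · rcases h5 i hi with h6 | h6
          · exact Or.inl (Or.inr (Or.inr h6))
          · exact Or.inr h6

theorem frm_wlen {M : ℕ} {w : List (Vec d)} (h : ∀ v ∈ w, ∀ k, |v k| ≤ M) (k : Fin d) :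
    -((w.length * M : ℕ) : ℤ) ≤ w.sum k ∧ w.sum k ≤ (w.length * M : ℕ) := by
  have := abs_le.1 (sum_le h k)
  push_cast
  exact this

/-- all prefixes, loops non-negative -/
theorem vlem_pos {M : ℕ} {k : Fin d} : ∀ (I : List (Itm d)),
    (∀ i ∈ I, (∀ v ∈ i.1, ∀ k, |v k| ≤ M) ∧ ∀ v ∈ i.2.1, ∀ k, |v k| ≤ M) →
    (∀ i ∈ I, 0 ≤ i.2.1.sum k) → ∀ {u u' : List (Vec d)}, unroll I = u ++ u' →
    -((schemeSize (I.map isk) * M : ℕ) : ℤ) ≤ u.sum k := by
  intro I
  induction I with
  | nil =>
    intro _ _ u u' h
    have : u = [] := (List.append_eq_nil_iff.1 h.symm).1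
    rw [this]
    simp
  | cons i I ih =>
    intro hM hk u u' h
    obtain ⟨α, β, a⟩ := i
    obtain ⟨m1, m2⟩ := hM _ List.mem_cons_self
    have hk0 := hk _ List.mem_cons_self
    simp only at m1 m2 hk0
    have hsz : schemeSize (((α, β, a) :: I).map isk) =
        α.length + β.length + 1 + schemeSize (I.map isk) := by
      simp only [schemeSize, isk, List.map_cons, List.sum_cons]
    have e1 : (schemeSize (((α, β, a) :: I).map isk) * M : ℕ) =
        α.length * M + β.length * M + M + schemeSize (I.map isk) * M := by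
      rw [hsz]; ring
    rw [e1]
    rw [unroll_cons, wrd, List.append_assoc] at h
    dsimp only at h
    have hα := frm_wlen m1 k
    rcases prefix_append h with ⟨A', h1⟩ | ⟨u₂, h1, h2⟩
    · have hu : ∀ v ∈ u, ∀ k, |v k| ≤ M := fun v hv =>
        m1 v (by rw [h1]; exact List.mem_append_left _ hv)
      have h3 := (frm_wlen hu k).1
      have hl : u.length * M ≤ α.length * M :=
        Nat.mul_le_mul_right M (by rw [h1, List.length_append]; omega)
      push_cast at h3 ⊢
      have hl' : (u.length : ℤ) * M ≤ α.length * M := by exact_mod_cast hl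
      have : (0 : ℤ) ≤ β.length * M := by positivity
      have : (0 : ℤ) ≤ (schemeSize (I.map isk) : ℕ) * (M : ℤ) := by positivity
      have : (0 : ℤ) ≤ M := by positivity
      linarith
    · rcases prefix_append h2 with ⟨A', h3⟩ | ⟨u₃, h3, h4⟩
      · obtain ⟨j, hj, π, h5, h6⟩ := prefix_rep h3
        have hπ : ∀ v ∈ π, ∀ k, |v k| ≤ M := fun v hv => m2 v (h6.subset hv)
        have h7 := (frm_wlen hπ k).1
        have hl : π.length * M ≤ β.length * M := Nat.mul_le_mul_right M h6.length_le
        rw [h1, h5, List.sum_append, List.sum_append, Pi.add_apply, Pi.add_apply, rep_sum_apply]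
        have h8 : 0 ≤ (j : ℤ) * β.sum k := mul_nonneg (Int.natCast_nonneg _) hk0
        push_cast at h7 hα ⊢
        have hl' : (π.length : ℤ) * M ≤ β.length * M := by exact_mod_cast hl
        have : (0 : ℤ) ≤ (schemeSize (I.map isk) : ℕ) * (M : ℤ) := by positivity
        have : (0 : ℤ) ≤ M := by positivity
        linarith [hα.1]
      · have h7 := ih (fun i hi => hM i (List.mem_cons_of_mem _ hi))
          (fun i hi => hk i (List.mem_cons_of_mem _ hi)) h4
        rw [h1, h3, List.sum_append, List.sum_append, Pi.add_apply, Pi.add_apply, rep_sum_apply]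
        have h8 : 0 ≤ (a : ℤ) * β.sum k := mul_nonneg (Int.natCast_nonneg _) hk0
        push_cast at h7 hα ⊢
        have : (0 : ℤ) ≤ β.length * M := by positivity
        have : (0 : ℤ) ≤ M := by positivity
        linarith [hα.1]

/-- all suffixes, loops non-positive -/
theorem vlem_neg {M : ℕ} {k : Fin d} : ∀ (I : List (Itm d)),
    (∀ i ∈ I, (∀ v ∈ i.1, ∀ k, |v k| ≤ M) ∧ ∀ v ∈ i.2.1, ∀ k, |v k| ≤ M) →
    (∀ i ∈ I, i.2.1.sum k ≤ 0) → ∀ {u u' : List (Vec d)}, unroll I = u ++ u' →
    u'.sum k ≤ ((schemeSize (I.map isk) * M : ℕ) : ℤ) := by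
  intro I
  induction I with
  | nil =>
    intro _ _ u u' h
    have : u' = [] := (List.append_eq_nil_iff.1 h.symm).2
    rw [this]
    simp
  | cons i I ih =>
    intro hM hk u u' h
    obtain ⟨α, β, a⟩ := i
    obtain ⟨m1, m2⟩ := hM _ List.mem_cons_self
    have hk0 := hk _ List.mem_cons_self
    simp only at m1 m2 hk0
    have hsz : schemeSize (((α, β, a) :: I).map isk) =
        α.length + β.length + 1 + schemeSize (I.map isk) := by
      simp only [schemeSize, isk, List.map_cons, List.sum_cons]
    have e1 : (schemeSize (((α, β, a) :: I).map isk) * M : ℕ) =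
        α.length * M + β.length * M + M + schemeSize (I.map isk) * M := by
      rw [hsz]; ring
    rw [e1]
    have hI := ih (fun i hi => hM i (List.mem_cons_of_mem _ hi))
      (fun i hi => hk i (List.mem_cons_of_mem _ hi)) (u := []) (u' := unroll I) rfl
    rw [unroll_cons, wrd, List.append_assoc] at h
    dsimp only at h
    have hα := frm_wlen m1 k
    have p1 : (0 : ℤ) ≤ β.length * M := by positivity
    have p2 : (0 : ℤ) ≤ M := by positivity
    have p3 : (0 : ℤ) ≤ (schemeSize (I.map isk) : ℕ) * (M : ℤ) := by positivity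
    have p4 : (a : ℤ) * β.sum k ≤ 0 :=
      mul_nonpos_of_nonneg_of_nonpos (Int.natCast_nonneg _) hk0
    rcases prefix_append h with ⟨A', h1⟩ | ⟨u₂, h1, h2⟩
    · -- u is a prefix of α
      have h2 : u' = A' ++ (rep a β ++ unroll I) := by
        rw [h1, List.append_assoc] at h
        exact (List.append_cancel_left h).symm
      have hA : ∀ v ∈ A', ∀ k, |v k| ≤ M := fun v hv =>
        m1 v (by rw [h1]; exact List.mem_append_right _ hv)
      have h3 := (frm_wlen hA k).2
      have hl : A'.length * M ≤ α.length * M :=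
        Nat.mul_le_mul_right M (by rw [h1, List.length_append]; omega)
      rw [h2, List.sum_append, List.sum_append, Pi.add_apply, Pi.add_apply, rep_sum_apply]
      push_cast at h3 hI ⊢
      have hl' : (A'.length : ℤ) * M ≤ α.length * M := by exact_mod_cast hl
      linarith
    · rcases prefix_append h2 with ⟨A', h3⟩ | ⟨u₃, h3, h4⟩
      · -- u₂ is a prefix of rep a β
        obtain ⟨j, hj, π, h5, h6⟩ := prefix_rep h3
        have h7 : u' = A' ++ unroll I := by
          rw [h3, List.append_assoc] at h2
          exact (List.append_cancel_left h2).symm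
        have hπ : ∀ v ∈ π, ∀ k, |v k| ≤ M := fun v hv => m2 v (h6.subset hv)
        have h8 := (frm_wlen hπ k).1
        have hl : π.length * M ≤ β.length * M := Nat.mul_le_mul_right M h6.length_le
        have h9 : (rep a β).sum k = (j : ℤ) * β.sum k + π.sum k + A'.sum k := by
          rw [h3, h5, List.sum_append, List.sum_append, Pi.add_apply, Pi.add_apply,
            rep_sum_apply]
        rw [rep_sum_apply] at h9
        have hj' : (j : ℤ) ≤ a := by exact_mod_cast hj
        have h10 : (a : ℤ) * β.sum k ≤ (j : ℤ) * β.sum k := mul_le_mul_of_nonpos_right hj' hk0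
        rw [h7, List.sum_append, Pi.add_apply]
        push_cast at h8 hI ⊢
        have hl' : (π.length : ℤ) * M ≤ β.length * M := by exact_mod_cast hl
        have p5 : (0 : ℤ) ≤ α.length * M := by positivity
        linarith
      · have h7 := ih (fun i hi => hM i (List.mem_cons_of_mem _ hi))
          (fun i hi => hk i (List.mem_cons_of_mem _ hi)) h4
        push_cast at h7 ⊢
        have p5 : (0 : ℤ) ≤ α.length * M := by positivity
        linarith

theorem vlem {M : ℕ} (hM : ∀ p v q, (p, v, q) ∈ T → ∀ k, |v k| ≤ M) {p q : Q}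
    {I : List (Itm d)} (hI : IsScheme T p (I.map isk) q) {k : Fin d}
    (hk : (∀ i ∈ I, 0 ≤ i.2.1.sum k) ∨ (∀ i ∈ I, i.2.1.sum k ≤ 0))
    {u u' : List (Vec d)} (h : unroll I = u ++ u') :
    min 0 ((unroll I).sum k) - (schemeSize (I.map isk) * M : ℕ) ≤ u.sum k := by
  have hlet : ∀ i ∈ I, (∀ v ∈ i.1, ∀ k, |v k| ≤ M) ∧ ∀ v ∈ i.2.1, ∀ k, |v k| ≤ M := by
    intro i hi
    obtain ⟨⟨a, b, h1⟩, ⟨c, h2⟩⟩ := scheme_loops I hI i hi
    constructor
    · intro v hv k
      obtain ⟨x, y, hxy⟩ := h1.letters v hv
      exact hM _ _ _ hxy k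
    · intro v hv k
      obtain ⟨x, y, hxy⟩ := h2.letters v hv
      exact hM _ _ _ hxy k
  rcases hk with hk | hk
  · have := vlem_pos I hlet hk h
    have h2 : min 0 ((unroll I).sum k) ≤ 0 := min_le_left _ _
    linarith
  · have := vlem_neg I hlet hk h
    have h2 : min 0 ((unroll I).sum k) ≤ (unroll I).sum k := min_le_right _ _
    have h3 : (unroll I).sum k = u.sum k + u'.sum k := by
      rw [h, List.sum_append, Pi.add_apply]
    linarith

end Pool.Agent.EE2
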