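import Pool.Agent.EE2.Defs2

/-!
# EE2 / Wword: long loops in admissible directions
-/

set_option autoImplicit false
set_option linter.unusedSectionVars false

namespace Pool.Agent.EE2

open Pool.Agent.EEF Pool.Agent.REV Finset

variable {Q : Type} {d : ℕ} {T : VASS Q d}

/-- size bounds for a closed walk through three states -/
theorem wword_bound {A : ℕ} {a b c e : ℤ} (ha : |a| ≤ 3 * A) (hb : |b| ≤ A) (hc : |c| ≤ 3 * A)
    (he : |e| ≤ A) : |a * b - c * e| ≤ 6 * A * A := by
  have h1 : |a * b| ≤ 3 * A * A := by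
    rw [abs_mul]
    exact mul_le_mul ha hb (abs_nonneg _) (by positivity)
  have h2 : |c * e| ≤ 3 * A * A := by
    rw [abs_mul]
    exact mul_le_mul hc he (abs_nonneg _) (by positivity)
  have h3 := abs_sub (a * b) (c * e)
  have h4 : (3 * (A : ℤ) * A) + (3 * A * A) = 6 * A * A := by ring
  linarith

theorem wword_rel {p₀ : Q} (h2 : TwoAt T p₀) {i j : Fin d}
    (hij : ¬ Par T p₀ i j) {x y z : Vec d} (hx : qv x ∈ VS T p₀) (hy : qv y ∈ VS T p₀)
    (hz : qv z ∈ VS T p₀) (k : Fin d) :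
    (x i * y j - x j * y i) * z k =
      (z i * y j - z j * y i) * x k + (x i * z j - x j * z i) * y k := by
  set v : Vec d := (x i * y j - x j * y i) • z - (z i * y j - z j * y i) • x -
    (x i * z j - x j * z i) • y with hv
  have h : v = 0 := by
    refine inj2 h2 hij (v := v) ?_ ?_ ?_
    · rw [hv, qv_sub, qv_sub, qv_zsmul, qv_zsmul, qv_zsmul]
      exact (VS T p₀).sub_mem ((VS T p₀).sub_mem ((VS T p₀).smul_mem _ hz)
        ((VS T p₀).smul_mem _ hx)) ((VS T p₀).smul_mem _ hy)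
    · rw [hv]
      simp only [Pi.sub_apply, Pi.smul_apply, smul_eq_mul]
      ring
    · rw [hv]
      simp only [Pi.sub_apply, Pi.smul_apply, smul_eq_mul]
      ring
  have hk := congrFun h k
  rw [hv] at hk
  simp only [Pi.sub_apply, Pi.smul_apply, smul_eq_mul, Pi.zero_apply] at hk
  linarith

theorem wword [Fintype Q] {p₀ p r₁ r₂ : Q} (h2 : TwoAt T p₀) {i j : Fin d}
    (hij : ¬ Par T p₀ i j) (hp : InS T p₀ p) (hr₁ : InS T p₀ r₁) (hr₂ : InS T p₀ r₂)
    {c₁ c₂ : List (Vec d)} (h₁ : Walk T r₁ c₁ r₁) (h₂ : Walk T r₂ c₂ r₂)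
    (hl₁ : c₁.length ≤ Fintype.card Q) (hl₂ : c₂.length ≤ Fintype.card Q)
    (hdet : c₁.sum i * c₂.sum j - c₁.sum j * c₂.sum i ≠ 0) {A : ℕ}
    (hA : A = Fintype.card Q * maxNorm T) {e : ℕ × ℕ} (he : Adm A e) :
    ∃ (s : Q) (W : List (Vec d)), (s = p ∨ s = r₁ ∨ s = r₂) ∧ Walk T s W s ∧
      W.sum = (6 * A * A) • (e.1 • c₁.sum + e.2 • c₂.sum) ∧
      W.length ≤ cW (Fintype.card Q) A := by
  set n := Fintype.card Q with hn
  rcases he with he | he | ⟨he1, he1', he2, he2'⟩
  · refine ⟨r₁, rep (6 * A * A) c₁, Or.inr (Or.inl rfl), h₁.rep _, ?_, ?_⟩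
    · rw [rep_sum, he]
      simp
    · rw [rep_length]
      have : 6 * A * A * c₁.length ≤ 6 * A * A * n := Nat.mul_le_mul_left _ hl₁
      refine this.trans ?_
      unfold cW
      have e1 : 2 * A * A * (3 * n) = 6 * A * A * n := by ring
      rw [e1]
      exact Nat.le_add_right _ _
  · refine ⟨r₂, rep (6 * A * A) c₂, Or.inr (Or.inr rfl), h₂.rep _, ?_, ?_⟩
    · rw [rep_sum, he]
      simp
    · rw [rep_length]
      have : 6 * A * A * c₂.length ≤ 6 * A * A * n := Nat.mul_le_mul_left _ hl₂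
      refine this.trans ?_
      unfold cW
      have e1 : 2 * A * A * (3 * n) = 6 * A * A * n := by ring
      rw [e1]
      exact Nat.le_add_right _ _
  · obtain ⟨π₁, hπ₁, lπ₁⟩ := inS_path hp hr₁
    obtain ⟨π₂, hπ₂, lπ₂⟩ := inS_path hr₁ hr₂
    obtain ⟨π₃, hπ₃, lπ₃⟩ := inS_path hr₂ hp
    have hρ : Walk T p (π₁ ++ (π₂ ++ π₃)) p := hπ₁.append (hπ₂.append hπ₃)
    set ρ := π₁ ++ (π₂ ++ π₃) with hρdef
    have hlρ : ρ.length ≤ 3 * n := by
      rw [hρdef, List.length_append, List.length_append]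
      omega
    have hAz : (A : ℤ) = (n : ℤ) * maxNorm T := by rw [hA]; push_cast; rfl
    have bc₁ : ∀ k, |c₁.sum k| ≤ A := fun k => by
      refine (walk_le h₁ k).trans ?_
      rw [hAz]
      exact mul_le_mul_of_nonneg_right (by exact_mod_cast hl₁) (by positivity)
    have bc₂ : ∀ k, |c₂.sum k| ≤ A := fun k => by
      refine (walk_le h₂ k).trans ?_
      rw [hAz]
      exact mul_le_mul_of_nonneg_right (by exact_mod_cast hl₂) (by positivity)
    have bρ : ∀ k, |ρ.sum k| ≤ 3 * A := fun k => by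
      refine (walk_le hρ k).trans ?_
      rw [hAz, ← mul_assoc]
      exact mul_le_mul_of_nonneg_right (by exact_mod_cast hlρ) (by positivity)
    set δ := c₁.sum i * c₂.sum j - c₁.sum j * c₂.sum i with hδ
    -- sign
    obtain ⟨s, t, D, hD1, hD2, hs, ht, hs', ht', hrel⟩ : ∃ (s t : ℤ) (D : ℕ), 1 ≤ D ∧ D ≤ 2 * A * A ∧
        s ≤ 6 * A * A ∧ t ≤ 6 * A * A ∧ -(6 * A * A) ≤ s ∧ -(6 * A * A) ≤ t ∧
        ∀ k, (D : ℤ) * ρ.sum k = s * c₁.sum k + t * c₂.sum k := by
      have hs0 := wword_bound (bρ i) (bc₂ j) (bρ j) (bc₂ i)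
      have ht0 := wword_bound (bρ j) (bc₁ i) (bρ i) (bc₁ j)
      have hr := wword_rel h2 hij (vs_closed hr₁ h₁) (vs_closed hr₂ h₂) (vs_closed hp hρ)
      have hδb : |δ| ≤ 2 * A * A := by
        have h3 : |c₁.sum i * c₂.sum j| ≤ A * A := by
          rw [abs_mul]
          exact mul_le_mul (bc₁ i) (bc₂ j) (abs_nonneg _) (by positivity)
        have h4 : |c₁.sum j * c₂.sum i| ≤ A * A := by
          rw [abs_mul]
          exact mul_le_mul (bc₁ j) (bc₂ i) (abs_nonneg _) (by positivity)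
        have h5 := abs_sub (c₁.sum i * c₂.sum j) (c₁.sum j * c₂.sum i)
        have h6 : (2 * (A : ℤ) * A) = A * A + A * A := by ring
        rw [h6]
        linarith
      rw [abs_le] at hs0 ht0
      have habs : 0 < |δ| := abs_pos.2 hdet
      have hDz : (δ.natAbs : ℤ) = |δ| := Int.natCast_natAbs δ
      have hD1 : 1 ≤ δ.natAbs := by omega
      have hD2 : δ.natAbs ≤ 2 * A * A := by
        have : (δ.natAbs : ℤ) ≤ (2 * A * A : ℕ) := by
          rw [hDz]; push_cast; exact hδb
        exact_mod_cast this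
      rcases lt_or_gt_of_ne hdet with hneg | hpos
      · refine ⟨-(ρ.sum i * c₂.sum j - ρ.sum j * c₂.sum i),
          (ρ.sum j * c₁.sum i - ρ.sum i * c₁.sum j) * (-1), δ.natAbs, hD1, hD2, ?_, ?_, ?_, ?_,
          fun k => ?_⟩
        · linarith
        · linarith
        · linarith
        · linarith
        · rw [hDz, abs_of_neg hneg]
          have := hr k
          rw [← hδ] at this
          linarith
      · refine ⟨ρ.sum i * c₂.sum j - ρ.sum j * c₂.sum i,
          ρ.sum j * c₁.sum i - ρ.sum i * c₁.sum j, δ.natAbs, hD1, hD2, ?_, ?_, ?_, ?_,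
          fun k => ?_⟩
        · linarith
        · linarith
        · linarith
        · linarith
        · rw [hDz, abs_of_pos hpos]
          have := hr k
          rw [← hδ] at this
          linarith
    have hN1 : s ≤ ((6 * A * A * e.1 : ℕ) : ℤ) := by
      have : ((6 * A * A : ℕ) : ℤ) ≤ ((6 * A * A * e.1 : ℕ) : ℤ) := by
        exact_mod_cast Nat.le_mul_of_pos_right _ he1
      refine le_trans ?_ this
      push_cast
      exact hs
    have hN2 : t ≤ ((6 * A * A * e.2 : ℕ) : ℤ) := by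
      have : ((6 * A * A : ℕ) : ℤ) ≤ ((6 * A * A * e.2 : ℕ) : ℤ) := by
        exact_mod_cast Nat.le_mul_of_pos_right _ he2
      refine le_trans ?_ this
      push_cast
      exact ht
    obtain ⟨a, ha⟩ : ∃ a : ℕ, (a : ℤ) = ((6 * A * A * e.1 : ℕ) : ℤ) - s :=
      ⟨_, Int.toNat_of_nonneg (by linarith)⟩
    obtain ⟨b, hb⟩ : ∃ b : ℕ, (b : ℤ) = ((6 * A * A * e.2 : ℕ) : ℤ) - t :=
      ⟨_, Int.toNat_of_nonneg (by linarith)⟩
    refine ⟨p, rep (D - 1) ρ ++ (π₁ ++ (rep a c₁ ++ (π₂ ++ (rep b c₂ ++ π₃)))), Or.inl rfl,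
      (hρ.rep _).append (hπ₁.append ((h₁.rep _).append (hπ₂.append ((h₂.rep _).append hπ₃)))),
      ?_, ?_⟩
    · funext k
      have h3 := hrel k
      have h4 : ρ.sum k = π₁.sum k + (π₂.sum k + π₃.sum k) := by
        rw [hρdef, List.sum_append, List.sum_append]
        rfl
      have h5 : ((D - 1 : ℕ) : ℤ) = D - 1 := by
        rw [Nat.cast_sub hD1]; simp
      simp only [List.sum_append, Pi.add_apply, rep_sum_apply, Pi.smul_apply]
      simp only [nsmul_eq_mul]
      rw [h5, ha, hb]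
      push_cast
      linear_combination h3 - h4
    · have ha' : a ≤ 6 * A * A * A + 6 * A * A := by
        have h6 : (a : ℤ) ≤ ((6 * A * A * A + 6 * A * A : ℕ) : ℤ) := by
          rw [ha]
          have : ((6 * A * A * e.1 : ℕ) : ℤ) ≤ ((6 * A * A * A : ℕ) : ℤ) := by
            exact_mod_cast Nat.mul_le_mul_left _ he1'
          push_cast at this ⊢
          linarith
        exact_mod_cast h6
      have hb' : b ≤ 6 * A * A * A + 6 * A * A := by
        have h6 : (b : ℤ) ≤ ((6 * A * A * A + 6 * A * A : ℕ) : ℤ) := by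
          rw [hb]
          have : ((6 * A * A * e.2 : ℕ) : ℤ) ≤ ((6 * A * A * A : ℕ) : ℤ) := by
            exact_mod_cast Nat.mul_le_mul_left _ he2'
          push_cast at this ⊢
          linarith
        exact_mod_cast h6
      simp only [List.length_append, rep_length]
      have h7 : a * c₁.length ≤ (6 * A * A * A + 6 * A * A) * n := Nat.mul_le_mul ha' hl₁
      have h8 : b * c₂.length ≤ (6 * A * A * A + 6 * A * A) * n := Nat.mul_le_mul hb' hl₂
      have h9 : (D - 1) * ρ.length + (π₁.length + (π₂.length + π₃.length)) ≤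
          2 * A * A * (3 * n) := by
        have h10 : ρ.length = π₁.length + (π₂.length + π₃.length) := by
          rw [hρdef, List.length_append, List.length_append]
        rw [← h10]
        have h11 : (D - 1) * ρ.length + ρ.length = D * ρ.length := by
          obtain ⟨D', rfl⟩ : ∃ D', D = D' + 1 := ⟨D - 1, by omega⟩
          simp [Nat.add_mul]
        rw [h11]
        exact Nat.mul_le_mul hD2 hlρ
      unfold cW
      linarith

end Pool.Agent.EE2
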