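import Pool.Agent.EE2.Exch
import Pool.Agent.EE2.Chamb
import Pool.Agent.EE2.Frame
import Pool.Agent.EE2.Dec
import Pool.Agent.EE2.Wword

/-!
# EE2 / Deep: schemes between deep configurations
-/

set_option autoImplicit false
set_option linter.unusedSectionVars false

namespace Pool.Agent.EE2

open Pool.Agent.EEF Pool.Agent.REV Finset

variable {Q : Type} {d : ℕ} {T : VASS Q d}

theorem nsv (a : ℕ) (h : Vec d) (j : Fin d) : (a • h) j = (a : ℤ) * h j := by
  rw [Pi.smul_apply, nsmul_eq_mul]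

/-- a frame with sign-compatible loops realizes the walk -/
theorem finish [Fintype Q] {p₀ : Q} (h2 : TwoAt T p₀) {i j : Fin d} (hij : ¬ Par T p₀ i j)
    {p q : Q} {x : Vec d} {w : List (Vec d)} (hp : InS T p₀ p) (hq : InS T p₀ q)
    (hw : Walk T p w q) (hcg : CG T p₀ p x) {S : ℕ}
    (hx : ¬ Near T p₀ (S * maxNorm T) x) (hy : ¬ Near T p₀ (S * maxNorm T) (x + w.sum))
    {F : List (Ent Q d)} (hF : Fr T p F q) (hS : frSize F ≤ S)
    (hi : frSum F i = w.sum i) (hj : frSum F j = w.sum j)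
    (hsg : ∀ k, (∀ a ∈ frItems F, 0 ≤ a.2.1.sum k) ∨ (∀ a ∈ frItems F, a.2.1.sum k ≤ 0)) :
    Rlz T p x w.sum q S := by
  have hsch := (fr_scheme hF).1
  have hwk := scheme_walk _ hsch
  have hsum : (unroll (frItems F)).sum = w.sum := det22 h2 hij hp hq hwk hw hi hj
  refine ⟨frItems F, hsch, ?_, hsum, hS⟩
  refine Ok_of_prefix fun u u' hu k => ?_
  rw [Pi.zero_apply, Pi.add_apply]
  by_cases hk : Mov T p₀ k
  · have h1 := vlem (fun p v q h k => abs_le_maxNorm h k) hsch (hsg k) hu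
    rw [hsum] at h1
    have h3 : ((S * maxNorm T : ℕ) : ℤ) ≤ x k := by
      by_contra hc
      exact hx ⟨k, hk, not_le.1 hc⟩
    have h4 : ((S * maxNorm T : ℕ) : ℤ) ≤ (x + w.sum) k := by
      by_contra hc
      exact hy ⟨k, hk, not_le.1 hc⟩
    rw [Pi.add_apply] at h4
    have h5 : ((schemeSize ((frItems F).map isk) * maxNorm T : ℕ) : ℤ) ≤ (S * maxNorm T : ℕ) := by
      exact_mod_cast Nat.mul_le_mul_right _ hS
    rcases min_choice 0 (w.sum k) with hm | hm <;> rw [hm] at h1 <;> linarith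
  · rw [hu] at hwk
    obtain ⟨r, h3, h4⟩ := hwk.split
    exact hcg r u k (inS_mid hp hq h3 h4) h3 hk

/-- inserting small loops as plain words -/
theorem ins_small {p q : Q} {F : List (Ent Q d)} (hF : Fr T p F q) {n : ℕ}
    {ι : Type} [DecidableEq ι] (g : ι → Q × List (Vec d)) (m : ι → ℕ) (E : Finset ι)
    (hg : ∀ e ∈ E, (g e).1 ∈ F.map Prod.fst ∧ Walk T (g e).1 (g e).2 (g e).1 ∧ (g e).2.length ≤ n)
    (hl : ∀ a ∈ frItems F, a.2.1 = []) :
    ∃ F', Fr T p F' q ∧ F'.map Prod.fst = F.map Prod.fst ∧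
      frSum F' = frSum F + ∑ e ∈ E, m e • (g e).2.sum ∧
      frSize F' ≤ frSize F + ∑ e ∈ E, (m e * n + 1) ∧ ∀ a ∈ frItems F', a.2.1 = [] := by
  induction E using Finset.induction_on with
  | empty => exact ⟨F, hF, rfl, by simp, by simp, hl⟩
  | insert e E he ih =>
    obtain ⟨F₁, h1, h2, h3, h4, h5⟩ := ih fun e' he' => hg e' (mem_insert_of_mem he')
    obtain ⟨g1, g2, g3⟩ := hg e (mem_insert_self _ _)
    obtain ⟨F₂, k1, k2, k3, k4, k5⟩ := fr_insert h1 (by rw [h2]; exact g1) (g2.rep (m e)) (.nil _) 0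
    refine ⟨F₂, k1, k2.trans h2, ?_, ?_, ?_⟩
    · rw [k3, h3, sum_insert he, rep_sum, zero_smul, add_zero]
      abel
    · rw [k4, rep_length, List.length_nil, sum_insert he]
      have := Nat.mul_le_mul_left (m e) g3
      omega
    · intro a ha
      rcases k5 a ha with h | rfl
      · exact h5 a h
      · rfl

theorem card_box {A : ℕ} (R : Finset (ℤ × ℤ)) (hR : ∀ e ∈ R, |e.1| ≤ A ∧ |e.2| ≤ A) :
    R.card ≤ (2 * A + 1) ^ 2 := by
  have h1 : R ⊆ Finset.Icc (-(A : ℤ)) A ×ˢ Finset.Icc (-(A : ℤ)) A := by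
    intro e he
    obtain ⟨h1, h2⟩ := hR e he
    rw [mem_product, mem_Icc, mem_Icc]
    exact ⟨abs_le.1 h1, abs_le.1 h2⟩
  refine (card_le_card h1).trans ?_
  rw [card_product, Int.card_Icc]
  have : ((A : ℤ) + 1 - -(A : ℤ)).toNat = 2 * A + 1 := by omega
  rw [this, sq]

theorem sum_count {ι : Type} (C : List ι) (ψ : ι → ℤ × ℤ) : ∃ m : ℤ × ℤ → ℕ,
    ((C.map ψ).map Prod.fst).sum = ∑ e ∈ (C.map ψ).toFinset, (m e : ℤ) * e.1 ∧
    ((C.map ψ).map Prod.snd).sum = ∑ e ∈ (C.map ψ).toFinset, (m e : ℤ) * e.2 := by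
  refine ⟨fun e => @List.count _ instBEqOfDecidableEq e (C.map ψ), ?_, ?_⟩
  · rw [Finset.sum_list_map_count]
    exact sum_congr rfl fun e _ => by rw [nsmul_eq_mul]
  · rw [Finset.sum_list_map_count]
    exact sum_congr rfl fun e _ => by rw [nsmul_eq_mul]

theorem sum_small {E : Finset (ℤ × ℤ)} {A n K : ℕ} {m : ℤ × ℤ → ℕ} (hE : E.card ≤ K)
    (hm : ∀ e ∈ E, m e ≤ 2 * A * A + A) :
    ∑ e ∈ E, (m e * n + 1) ≤ K * ((2 * A * A + A) * n + 1) := by
  refine (sum_le_card_nsmul E _ ((2 * A * A + A) * n + 1) fun e he => ?_).trans ?_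
  · exact Nat.add_le_add_right (Nat.mul_le_mul_right n (hm e he)) 1
  · rw [smul_eq_mul]
    exact Nat.mul_le_mul_right _ hE

/-- ROW Deep -/
theorem deep [Fintype Q] {p₀ : Q} (h2 : TwoAt T p₀) (hnt : ¬ ThinAt T p₀) {p q : Q} {x : Vec d}
    {w : List (Vec d)} (hp : InS T p₀ p) (hq : InS T p₀ q) (hw : Walk T p w q)
    (hcg : CG T p₀ p x) (hx : ¬ Near T p₀ (cB (Fintype.card Q) (maxNorm T)) x)
    (hy : ¬ Near T p₀ (cB (Fintype.card Q) (maxNorm T)) (x + w.sum)) :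
    Rlz T p x w.sum q (cS (Fintype.card Q) (maxNorm T)) := by
  classical
  obtain ⟨i, j, hij⟩ := exists_nonpar hnt
  obtain ⟨F, C, hF, hpV, hFs, hFl, hC, hsum⟩ := decomp hw
  obtain ⟨n, hn⟩ : ∃ n, n = Fintype.card Q := ⟨_, rfl⟩
  obtain ⟨A, hA⟩ : ∃ A, A = n * maxNorm T := ⟨_, rfl⟩
  rw [← hn] at hFs hC hx hy ⊢
  -- `A ≥ 1`
  have hA1 : 1 ≤ A := by
    obtain ⟨⟨u, hu, hne⟩, -⟩ := mov_of_not_par hij
    have h3 := walk_le hu i
    have hM : maxNorm T ≠ 0 := by
      intro h0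
      rw [h0] at h3
      simp only [Nat.cast_zero, mul_zero] at h3
      exact hne (abs_nonpos_iff.1 h3)
    have hn0 : 0 < n := by rw [hn]; exact Fintype.card_pos_iff.2 ⟨p⟩
    rw [hA]
    exact Nat.mul_pos hn0 (Nat.pos_of_ne_zero hM)
  have hV : ∀ r ∈ F.map Prod.fst, InS T p₀ r := by
    intro r hr
    obtain ⟨h3, h4⟩ := (fr_scheme hF).2 r hr
    exact ⟨hp.1.trans h3, h4.trans hq.2⟩
  obtain ⟨ψ, hψ⟩ : ∃ ψ : Q × List (Vec d) → ℤ × ℤ, ψ = fun c => (c.2.sum i, c.2.sum j) := ⟨_, rfl⟩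
  obtain ⟨R, hRdef⟩ : ∃ R, R = (C.map ψ).toFinset := ⟨_, rfl⟩
  have hRC : ∀ e ∈ R, ∃ c ∈ C, ψ c = e := by
    intro e he
    rw [hRdef, List.mem_toFinset, List.mem_map] at he
    exact he
  have hR : ∀ e ∈ R, |e.1| ≤ A ∧ |e.2| ≤ A := by
    intro e he
    obtain ⟨c, hc, rfl⟩ := hRC e he
    obtain ⟨-, h3, h4⟩ := hC c hc
    have h5 : ((c.2.length : ℕ) : ℤ) * maxNorm T ≤ A := by
      rw [hA]
      exact_mod_cast Nat.mul_le_mul_right _ h4
    rw [hψ]
    exact ⟨(walk_le h3 i).trans h5, (walk_le h3 j).trans h5⟩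
  obtain ⟨m₀, hc1, hc2⟩ := sum_count C ψ
  rw [← hRdef] at hc1 hc2
  obtain ⟨m', hs1, hs2, hcase⟩ := exchange2 R hR m₀
  obtain ⟨g, hg⟩ : ∃ g : ℤ × ℤ → Q × List (Vec d), ∀ e ∈ R, g e ∈ C ∧ ψ (g e) = e := by
    refine ⟨fun e => if h : ∃ c ∈ C, ψ c = e then h.choose else (p, []), fun e he => ?_⟩
    simp only
    rw [dif_pos (hRC e he)]
    exact (hRC e he).choose_spec
  have hgi : ∀ e ∈ R, (g e).2.sum i = e.1 ∧ (g e).2.sum j = e.2 := by
    intro e he
    have h3 := (hg e he).2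
    rw [hψ] at h3
    exact ⟨congrArg Prod.fst h3, congrArg Prod.snd h3⟩
  have hgC : ∀ e ∈ R, (g e).1 ∈ F.map Prod.fst ∧ Walk T (g e).1 (g e).2 (g e).1 ∧
      (g e).2.length ≤ n := fun e he => hC _ (hg e he).1
  have hwi : w.sum i = frSum F i + ∑ e ∈ R, (m' e : ℤ) * e.1 := by
    rw [hs1, ← hc1, hsum, Pi.add_apply, List.map_map]
    congr 1
    have := map_list_sum (Pi.evalAddMonoidHom (fun _ : Fin d => ℤ) i) (C.map fun c => c.2.sum)
    rw [Pi.evalAddMonoidHom_apply, List.map_map] at this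
    rw [this, hψ]
    rfl
  have hwj : w.sum j = frSum F j + ∑ e ∈ R, (m' e : ℤ) * e.2 := by
    rw [hs2, ← hc2, hsum, Pi.add_apply, List.map_map]
    congr 1
    have := map_list_sum (Pi.evalAddMonoidHom (fun _ : Fin d => ℤ) j) (C.map fun c => c.2.sum)
    rw [Pi.evalAddMonoidHom_apply, List.map_map] at this
    rw [this, hψ]
    rfl
  have hcard := card_box R hR
  have hcS : cS n (maxNorm T) = n * (n + 1) + (2 * A + 1) ^ 2 * ((2 * A * A + A) * n + 1) +
      2 * ((2 * (6 * A * A) * A + 2 * A) * n + 1) + 2 * (cW n A + 1) := by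
    rw [cS, hA]
  have hsumE : ∀ (E : Finset (ℤ × ℤ)), E ⊆ R → ∀ F' : List (Ent Q d),
      frSum F' = frSum F + ∑ e ∈ E, m' e • (g e).2.sum →
      frSum F' i = frSum F i + ∑ e ∈ E, (m' e : ℤ) * e.1 ∧
      frSum F' j = frSum F j + ∑ e ∈ E, (m' e : ℤ) * e.2 := by
    intro E hE F' hF'
    rw [hF']
    simp only [Pi.add_apply, Finset.sum_apply, nsv]
    exact ⟨by rw [sum_congr rfl fun e he => by rw [(hgi e (hE he)).1]],
      by rw [sum_congr rfl fun e he => by rw [(hgi e (hE he)).2]]⟩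
  rcases hcase with ⟨e₁, hsm⟩ | ⟨e₁, he₁, e₂, he₂, hdet, hsm⟩
  · -- at most one large loop
    obtain ⟨F₁, a1, a2, a3, a4, a5⟩ := ins_small hF g m' (R.erase e₁)
      (fun e he => hgC e (mem_of_mem_erase he)) hFl
    obtain ⟨b1, b2⟩ := hsumE (R.erase e₁) (erase_subset _ _) F₁ a3
    have hsz := sum_small (n := n) (m := m') (((card_le_card (erase_subset e₁ R))).trans hcard)
      fun e he => hsm e (mem_of_mem_erase he) (ne_of_mem_erase he)
    have hcW : n ≤ cW n A := by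
      unfold cW
      have h3 : 1 * n ≤ 2 * A * A * (3 * n) := by
        have : 1 ≤ A * A := Nat.mul_pos hA1 hA1
        nlinarith
      omega
    by_cases he : e₁ ∈ R
    · obtain ⟨g1, g2, g3⟩ := hgC e₁ he
      obtain ⟨F₂, k1, k2, k3, k4, k5⟩ := fr_insert a1 (by rw [a2]; exact g1)
        (.nil (g e₁).1) g2 (m' e₁)
      refine finish h2 hij hp hq hw hcg hx hy k1 ?_ ?_ ?_ ?_
      · rw [k4, hcS, List.length_nil]
        omega
      · rw [k3, Pi.add_apply, Pi.add_apply, b1, hwi, ← Finset.add_sum_erase R _ he]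
        simp only [List.sum_nil, Pi.zero_apply, nsv, (hgi e₁ he).1]
        ring
      · rw [k3, Pi.add_apply, Pi.add_apply, b2, hwj, ← Finset.add_sum_erase R _ he]
        simp only [List.sum_nil, Pi.zero_apply, nsv, (hgi e₁ he).2]
        ring
      · intro k
        rcases le_total 0 ((g e₁).2.sum k) with h3 | h3
        · left
          intro a ha
          rcases k5 a ha with h | rfl
          · rw [a5 a h]; simp
          · exact h3
        · right
          intro a ha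
          rcases k5 a ha with h | rfl
          · rw [a5 a h]; simp
          · exact h3
    · rw [erase_eq_of_notMem he] at b1 b2
      refine finish h2 hij hp hq hw hcg hx hy a1 ?_ ?_ ?_ ?_
      · rw [hcS]
        omega
      · rw [b1, hwi]
      · rw [b2, hwj]
      · intro k
        left
        intro a ha
        rw [a5 a ha]; simp
  · -- two large loops
    have hne : e₁ ≠ e₂ := by
      rintro rfl
      exact hdet (by ring)
    have he₂' : e₂ ∈ R.erase e₁ := mem_erase.2 ⟨hne.symm, he₂⟩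
    obtain ⟨F₁, a1, a2, a3, a4, a5⟩ := ins_small hF g m' ((R.erase e₁).erase e₂)
      (fun e he => hgC e (mem_of_mem_erase (mem_of_mem_erase he))) hFl
    obtain ⟨b1, b2⟩ := hsumE ((R.erase e₁).erase e₂)
      ((erase_subset _ _).trans (erase_subset _ _)) F₁ a3
    have hsz := sum_small (n := n) (m := m') ((card_le_card
      ((erase_subset e₂ (R.erase e₁)).trans (erase_subset e₁ R))).trans hcard)
      fun e he => hsm e (mem_of_mem_erase (mem_of_mem_erase he))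
        (ne_of_mem_erase (mem_of_mem_erase he)) (ne_of_mem_erase he)
    obtain ⟨g11, g12, g13⟩ := hgC e₁ he₁
    obtain ⟨g21, g22, g23⟩ := hgC e₂ he₂
    obtain ⟨i1, j1⟩ := hgi e₁ he₁
    obtain ⟨i2, j2⟩ := hgi e₂ he₂
    obtain ⟨c₁, hc₁⟩ : ∃ c, c = (g e₁).2 := ⟨_, rfl⟩
    obtain ⟨c₂, hc₂⟩ : ∃ c, c = (g e₂).2 := ⟨_, rfl⟩
    obtain ⟨r₁, hr₁⟩ : ∃ c, c = (g e₁).1 := ⟨_, rfl⟩
    obtain ⟨r₂, hr₂⟩ : ∃ c, c = (g e₂).1 := ⟨_, rfl⟩
    rw [← hc₁] at g12 g13 i1 j1
    rw [← hc₂] at g22 g23 i2 j2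
    rw [← hr₁] at g11 g12
    rw [← hr₂] at g21 g22
    have hlen : ∀ {r : Q} {c : List (Vec d)}, Walk T r c r → c.length ≤ n → ∀ k,
        |c.sum k| ≤ A := by
      intro r c hc hl k
      refine (walk_le hc k).trans ?_
      rw [hA]
      exact_mod_cast Nat.mul_le_mul_right _ hl
    obtain ⟨e, e', X, Y, f₁, f₂, hAe, hAe', hm1, hm2, hf1, hf2, hsg⟩ := chamber hA1
      (fun k => c₁.sum k) (fun k => c₂.sum k) (hlen g12 g13) (hlen g22 g23) (m' e₁) (m' e₂)
    have hdet' : c₁.sum i * c₂.sum j - c₁.sum j * c₂.sum i ≠ 0 := by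
      rw [i1, j1, i2, j2]
      exact hdet
    obtain ⟨s, W, hs, hW, hWs, hWl⟩ := wword h2 hij hp (hV r₁ g11) (hV r₂ g21) g12 g22
      (hn ▸ g13) (hn ▸ g23) hdet' (hn ▸ hA) hAe
    obtain ⟨s', W', hs', hW', hWs', hWl'⟩ := wword h2 hij hp (hV r₁ g11) (hV r₂ g21) g12 g22
      (hn ▸ g13) (hn ▸ g23) hdet' (hn ▸ hA) hAe'
    rw [← hn] at hWl hWl'
    obtain ⟨N, hN⟩ : ∃ N, N = 6 * A * A := ⟨_, rfl⟩
    rw [← hN] at hWs hWs'
    have hN0 : 0 < N := by
      rw [hN]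
      have : 0 < A * A := Nat.mul_pos hA1 hA1
      nlinarith
    have hsV : s ∈ F.map Prod.fst := by
      rcases hs with rfl | rfl | rfl
      · exact hpV
      · exact g11
      · exact g21
    have hsV' : s' ∈ F.map Prod.fst := by
      rcases hs' with rfl | rfl | rfl
      · exact hpV
      · exact g11
      · exact g21
    have hAdm : ∀ {e : ℕ × ℕ}, Adm A e → e.1 ≤ A ∧ e.2 ≤ A := by
      intro e he
      rcases he with rfl | rfl | ⟨-, h3, -, h4⟩
      · exact ⟨hA1, Nat.zero_le _⟩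
      · exact ⟨Nat.zero_le _, hA1⟩
      · exact ⟨h3, h4⟩
    obtain ⟨γ₁, hγ₁⟩ : ∃ γ, γ = (X % N) * e.1 + (Y % N) * e'.1 + f₁ := ⟨_, rfl⟩
    obtain ⟨γ₂, hγ₂⟩ : ∃ γ, γ = (X % N) * e.2 + (Y % N) * e'.2 + f₂ := ⟨_, rfl⟩
    have hγb : ∀ {a b f : ℕ}, a ≤ A → b ≤ A → f ≤ 2 * A →
        (X % N) * a + (Y % N) * b + f ≤ 2 * (6 * A * A) * A + 2 * A := by
      intro a b f ha hb hf
      have h3 := Nat.mul_le_mul (Nat.mod_lt X hN0).le ha
      have h4 := Nat.mul_le_mul (Nat.mod_lt Y hN0).le hb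
      rw [← hN]
      have : 2 * N * A = N * A + N * A := by ring
      omega
    have hγ₁b : γ₁ ≤ 2 * (6 * A * A) * A + 2 * A := by
      rw [hγ₁]; exact hγb (hAdm hAe).1 (hAdm hAe').1 hf1
    have hγ₂b : γ₂ ≤ 2 * (6 * A * A) * A + 2 * A := by
      rw [hγ₂]; exact hγb (hAdm hAe).2 (hAdm hAe').2 hf2
    obtain ⟨F₂, k1, k2, k3, k4, k5⟩ := fr_insert a1 (by rw [a2]; exact g11)
      (g12.rep γ₁) (.nil r₁) 0
    obtain ⟨F₃, l1, l2, l3, l4, l5⟩ := fr_insert k1 (by rw [k2, a2]; exact g21)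
      (g22.rep γ₂) (.nil r₂) 0
    obtain ⟨F₄, m1, m2, m3, m4, m5⟩ := fr_insert l1 (by rw [l2, k2, a2]; exact hsV)
      (.nil s) hW (X / N)
    obtain ⟨F₅, n1, n2, n3, n4, n5⟩ := fr_insert m1 (by rw [m2, l2, k2, a2]; exact hsV')
      (.nil s') hW' (Y / N)
    have hX : (X : ℤ) = N * (X / N : ℕ) + (X % N : ℕ) := by exact_mod_cast (Nat.div_add_mod X N).symm
    have hY : (Y : ℤ) = N * (Y / N : ℕ) + (Y % N : ℕ) := by exact_mod_cast (Nat.div_add_mod Y N).symm
    have hm1' : (m' e₁ : ℤ) = X * e.1 + Y * e'.1 + f₁ := by exact_mod_cast hm1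
    have hm2' : (m' e₂ : ℤ) = X * e.2 + Y * e'.2 + f₂ := by exact_mod_cast hm2
    have hγ₁' : (γ₁ : ℤ) = (X % N : ℕ) * e.1 + (Y % N : ℕ) * e'.1 + f₁ := by exact_mod_cast hγ₁
    have hγ₂' : (γ₂ : ℤ) = (X % N : ℕ) * e.2 + (Y % N : ℕ) * e'.2 + f₂ := by exact_mod_cast hγ₂
    have htot : ∀ k, frSum F₅ k = frSum F₁ k + (m' e₁ : ℤ) * c₁.sum k + (m' e₂ : ℤ) * c₂.sum k := by
      intro k
      rw [n3, m3, l3, k3, rep_sum, rep_sum, hWs, hWs']
      simp only [Pi.add_apply, nsv, List.sum_nil, Pi.zero_apply, zero_smul]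
      rw [hm1', hm2', hγ₁', hγ₂']
      generalize (c₁.sum k : ℤ) = u at *
      generalize (c₂.sum k : ℤ) = v at *
      generalize ((X / N : ℕ) : ℤ) = X1 at *
      generalize ((X % N : ℕ) : ℤ) = X2 at *
      generalize ((Y / N : ℕ) : ℤ) = Y1 at *
      generalize ((Y % N : ℕ) : ℤ) = Y2 at *
      rw [hX, hY]
      push_cast
      ring
    refine finish h2 hij hp hq hw hcg hx hy n1 ?_ ?_ ?_ ?_
    · have p1 := Nat.mul_le_mul hγ₁b g13
      have p2 := Nat.mul_le_mul hγ₂b g23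
      rw [n4, m4, l4, k4, hcS, rep_length, rep_length, List.length_nil]
      omega
    · rw [htot, b1, hwi, ← Finset.add_sum_erase R _ he₁, ← Finset.add_sum_erase _ _ he₂', i1, i2]
      ring
    · rw [htot, b2, hwj, ← Finset.add_sum_erase R _ he₁, ← Finset.add_sum_erase _ _ he₂', j1, j2]
      ring
    · intro k
      have hWk : W.sum k = N * (c₁.sum k * e.1 + c₂.sum k * e.2) := by
        rw [hWs]
        simp only [Pi.add_apply, nsv]
        ring
      have hWk' : W'.sum k = N * (c₁.sum k * e'.1 + c₂.sum k * e'.2) := by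
        rw [hWs']
        simp only [Pi.add_apply, nsv]
        ring
      have hNn : (0 : ℤ) ≤ N := Int.natCast_nonneg _
      have hitems : ∀ a ∈ frItems F₅, a.2.1 = [] ∨ a.2.1 = W ∨ a.2.1 = W' := by
        intro a ha
        rcases n5 a ha with h | rfl
        · rcases m5 a h with h | rfl
          · rcases l5 a h with h | rfl
            · rcases k5 a h with h | rfl
              · exact Or.inl (a5 a h)
              · exact Or.inl rfl
            · exact Or.inl rfl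
          · exact Or.inr (Or.inl rfl)
        · exact Or.inr (Or.inr rfl)
      rcases hsg k with ⟨h3, h4⟩ | ⟨h3, h4⟩
      · left
        intro a ha
        rcases hitems a ha with h | h | h <;> rw [h]
        · simp
        · rw [hWk]; exact mul_nonneg hNn h3
        · rw [hWk']; exact mul_nonneg hNn h4
      · right
        intro a ha
        rcases hitems a ha with h | h | h <;> rw [h]
        · simp
        · rw [hWk]; exact mul_nonpos_of_nonneg_of_nonpos hNn h3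
        · rw [hWk']; exact mul_nonpos_of_nonneg_of_nonpos hNn h4

end Pool.Agent.EE2
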