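import Pool.Agent.EEF.Final
import Pool.Agent.REV.Walks

/-!
# EE2 / Defs: strongly connected components whose cycle space has dimension two
-/

set_option autoImplicit false
set_option linter.unusedSectionVars false

namespace Pool.Agent.EE2

open Pool.Agent.EEF Pool.Agent.REV Finset

variable {Q : Type} {d : ℕ} {T : VASS Q d}

/-- the span of the effects of the closed walks at `p₀` -/
def VS (T : VASS Q d) (p₀ : Q) : Submodule ℚ (Fin d → ℚ) :=
  Submodule.span ℚ {c : Fin d → ℚ | ∃ w, Walk T p₀ w p₀ ∧ c = qv w.sum}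

/-- the cycle space at `p₀` has dimension at most two -/
def TwoAt (T : VASS Q d) (p₀ : Q) : Prop := Module.finrank ℚ (VS T p₀) ≤ 2

/-- the coordinates `i` and `j` are proportional on closed walks -/
def Par (T : VASS Q d) (p₀ : Q) (i j : Fin d) : Prop :=
  ∀ u u', Walk T p₀ u p₀ → Walk T p₀ u' p₀ → u.sum i * u'.sum j = u'.sum i * u.sum j

/-- `y` is near a wall: some moving coordinate is below `b` -/
def Near (T : VASS Q d) (p₀ : Q) (b : ℕ) (y : Vec d) : Prop := ∃ j, Mov T p₀ j ∧ y j < b

/-- `y` is near a corner: two independent coordinates are below `b` -/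
def Corner (T : VASS Q d) (p₀ : Q) (b : ℕ) (y : Vec d) : Prop :=
  ∃ i j, ¬ Par T p₀ i j ∧ y i < b ∧ y j < b

/-- the non-moving coordinates stay non-negative on all walks in the component of `p₀` -/
def CG (T : VASS Q d) (p₀ : Q) (p : Q) (y : Vec d) : Prop :=
  ∀ r u k, InS T p₀ r → Walk T p u r → ¬ Mov T p₀ k → 0 ≤ y k + u.sum k

/-! ### The component -/

theorem inS_refl (T : VASS Q d) (p₀ : Q) : InS T p₀ p₀ := ⟨⟨[], .nil _⟩, ⟨[], .nil _⟩⟩

theorem inS_mid {p₀ p q : Q} (hp : InS T p₀ p) (hq : InS T p₀ q) {r : Q} {u u' : List (Vec d)}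
    (hu : Walk T p u r) (hu' : Walk T r u' q) : InS T p₀ r :=
  ⟨hp.1.trans ⟨u, hu⟩, Reach.trans ⟨u', hu'⟩ hq.2⟩

theorem inS_conn {p₀ p q : Q} (hp : InS T p₀ p) (hq : InS T p₀ q) : Reach T p q :=
  hp.2.trans hq.1

/-- short connecting walks -/
theorem inS_path [Fintype Q] {p₀ p q : Q} (hp : InS T p₀ p) (hq : InS T p₀ q) :
    ∃ w, Walk T p w q ∧ w.length ≤ Fintype.card Q := by
  obtain ⟨w, hw⟩ := inS_conn hp hq
  obtain ⟨w', h1, h2, -⟩ := erase_mod (0 : Vec d →+ ℤ) one_pos _ le_rfl hw.walkIn
  exact ⟨w', h1.walk, by simpa using h2⟩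

theorem vs_mem {p₀ : Q} {u : List (Vec d)} (h : Walk T p₀ u p₀) : qv u.sum ∈ VS T p₀ :=
  Submodule.subset_span ⟨u, h, rfl⟩

/-- differences of walks with the same end points -/
theorem vs_diff {p₀ p q : Q} (hp : InS T p₀ p) (hq : InS T p₀ q) {u u' : List (Vec d)}
    (hu : Walk T p u q) (hu' : Walk T p u' q) : qv (u.sum - u'.sum) ∈ VS T p₀ := by
  obtain ⟨a, ha⟩ := hp.1
  obtain ⟨b, hb⟩ := hq.2
  have h1 := vs_mem ((ha.append hu).append hb)
  have h2 := vs_mem ((ha.append hu').append hb)
  have h3 := (VS T p₀).sub_mem h1 h2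
  rw [← qv_sub] at h3
  have e : ((a ++ u) ++ b).sum - ((a ++ u') ++ b).sum = u.sum - u'.sum := by
    simp only [List.sum_append]
    abel
  rwa [e] at h3

/-- closed walks at any state of the component -/
theorem vs_closed {p₀ p : Q} (hp : InS T p₀ p) {u : List (Vec d)} (hu : Walk T p u p) :
    qv u.sum ∈ VS T p₀ := by
  have := vs_diff hp hp hu (.nil p)
  simpa using this

theorem qv_zero : qv (0 : Vec d) = 0 := by
  funext k; simp [qv]

theorem qv_nsmul (n : ℕ) (v : Vec d) : qv (n • v) = (n : ℚ) • qv v := by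
  funext k; simp [qv]

theorem qv_zsmul (n : ℤ) (v : Vec d) : qv (n • v) = (n : ℚ) • qv v := by
  funext k; simp [qv]

theorem qv_inj {v w : Vec d} (h : qv v = qv w) : v = w := by
  funext k
  have := congrFun h k
  simpa [qv] using this

/-- an integer relation between closed walks at `p₀` which holds on `i, j` independent holds
everywhere, in dimension two -/
theorem inj2 {p₀ : Q} (h2 : TwoAt T p₀) {i j : Fin d} (hij : ¬ Par T p₀ i j) {v : Vec d}
    (hv : qv v ∈ VS T p₀) (hi : v i = 0) (hj : v j = 0) : v = 0 := by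
  unfold Par at hij
  push Not at hij
  obtain ⟨u, u', hu, hu', hne⟩ := hij
  set a : VS T p₀ := ⟨qv u.sum, vs_mem hu⟩ with ha
  set b : VS T p₀ := ⟨qv u'.sum, vs_mem hu'⟩ with hb
  set c : VS T p₀ := ⟨qv v, hv⟩ with hc
  have hdet : (u.sum i : ℚ) * u'.sum j - u'.sum i * u.sum j ≠ 0 := by
    intro h
    apply hne
    have : (u.sum i : ℚ) * u'.sum j = u'.sum i * u.sum j := by linarith
    exact_mod_cast this
  by_contra hv0
  have hli : LinearIndependent ℚ ![a, b, c] := by
    rw [Fintype.linearIndependent_iff]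
    intro g hg
    have h1 : g 0 • qv u.sum + g 1 • qv u'.sum + g 2 • qv v = 0 := by
      have := congrArg Subtype.val hg
      simpa [Fin.sum_univ_three, ha, hb, hc] using this
    have hi' := congrFun h1 i
    have hj' := congrFun h1 j
    simp only [Pi.add_apply, Pi.smul_apply, smul_eq_mul, qv, hi, hj, Pi.zero_apply, Int.cast_zero,
      mul_zero, add_zero] at hi' hj'
    have g0 : g 0 = 0 := by
      have : g 0 * ((u.sum i : ℚ) * u'.sum j - u'.sum i * u.sum j) = 0 := by
        linear_combination (u'.sum j : ℚ) * hi' - (u'.sum i : ℚ) * hj'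
      exact (mul_eq_zero.1 this).resolve_right hdet
    have g1 : g 1 = 0 := by
      have : g 1 * ((u.sum i : ℚ) * u'.sum j - u'.sum i * u.sum j) = 0 := by
        linear_combination (u.sum i : ℚ) * hj' - (u.sum j : ℚ) * hi'
      exact (mul_eq_zero.1 this).resolve_right hdet
    have g2 : g 2 = 0 := by
      rw [g0, g1, zero_smul, zero_smul, zero_add, zero_add] at h1
      rcases smul_eq_zero.1 h1 with h | h
      · exact h
      · exact absurd (qv_inj (h.trans qv_zero.symm)) hv0
    intro t
    fin_cases t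
    · exact g0
    · exact g1
    · exact g2
  have h3 := hli.fintype_card_le_finrank
  rw [Fintype.card_fin] at h3
  have h4 : Module.finrank ℚ (VS T p₀) ≤ 2 := h2
  omega

/-- two walks with the same end points and the same effect on `i, j` have the same effect -/
theorem det22 {p₀ : Q} (h2 : TwoAt T p₀) {i j : Fin d} (hij : ¬ Par T p₀ i j) {p q : Q}
    (hp : InS T p₀ p) (hq : InS T p₀ q) {u u' : List (Vec d)} (hu : Walk T p u q)
    (hu' : Walk T p u' q) (hi : u.sum i = u'.sum i) (hj : u.sum j = u'.sum j) :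
    u.sum = u'.sum := by
  have := inj2 h2 hij (vs_diff hp hq hu hu') (by simp [hi]) (by simp [hj])
  exact sub_eq_zero.1 this

theorem mov_of_not_par {p₀ : Q} {i j : Fin d} (h : ¬ Par T p₀ i j) : Mov T p₀ i ∧ Mov T p₀ j := by
  unfold Par at h
  push Not at h
  obtain ⟨u, u', hu, hu', hne⟩ := h
  constructor
  · by_contra hc
    unfold Mov at hc
    push Not at hc
    rw [hc u hu, hc u' hu'] at hne
    simp at hne
  · by_contra hc
    unfold Mov at hc
    push Not at hc
    rw [hc u hu, hc u' hu'] at hne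
    simp at hne

theorem par_symm {p₀ : Q} {i j : Fin d} (h : Par T p₀ i j) : Par T p₀ j i := by
  intro u u' hu hu'
  have := h u u' hu hu'
  linarith

theorem par_trans {p₀ : Q} {i j k : Fin d} (hj : Mov T p₀ j) (h : Par T p₀ i j)
    (h' : Par T p₀ j k) : Par T p₀ i k := by
  obtain ⟨w, hw, hne⟩ := hj
  intro u u' hu hu'
  have a1 := h u w hu hw
  have a2 := h u' w hu' hw
  have b1 := h' u w hu hw
  have b2 := h' u' w hu' hw
  have c1 := h u u' hu hu'
  have key : (u.sum i * u'.sum k - u'.sum i * u.sum k) * (w.sum j * w.sum j) = 0 := by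
    have e1 : u.sum i * u'.sum k * (w.sum j * w.sum j) =
        (u.sum i * w.sum j) * (w.sum j * u'.sum k) := by ring
    have e2 : u'.sum i * u.sum k * (w.sum j * w.sum j) =
        (u'.sum i * w.sum j) * (w.sum j * u.sum k) := by ring
    rw [sub_mul, e1, e2, a1, a2, ← b1, ← b2]
    ring
  have h0 : w.sum j * w.sum j ≠ 0 := mul_ne_zero hne hne
  have := (mul_eq_zero.1 key).resolve_right h0
  linarith

/-- two independent coordinates exist if the component is not thin -/
theorem exists_nonpar {p₀ : Q} (h : ¬ ThinAt T p₀) : ∃ i j, ¬ Par T p₀ i j := by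
  by_contra hc
  push Not at hc
  apply h
  by_cases hall : ∀ u, Walk T p₀ u p₀ → u.sum = 0
  · have : Submodule.span ℚ {c : Fin d → ℚ | ∃ w, Walk T p₀ w p₀ ∧ c = qv w.sum} ≤ ⊥ := by
      rw [Submodule.span_le]
      rintro c ⟨w, hw, rfl⟩
      rw [hall w hw]
      exact qv_zero
    unfold ThinAt
    refine (Submodule.finrank_mono this).trans ?_
    simp
  · push Not at hall
    obtain ⟨u, hu, hu0⟩ := hall
    obtain ⟨k, hk⟩ : ∃ k, u.sum k ≠ 0 := by
      by_contra hcon
      push Not at hcon
      exact hu0 (funext hcon)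
    have : Submodule.span ℚ {c : Fin d → ℚ | ∃ w, Walk T p₀ w p₀ ∧ c = qv w.sum} ≤
        Submodule.span ℚ {qv u.sum} := by
      rw [Submodule.span_le]
      rintro c ⟨w, hw, rfl⟩
      have hk' : (u.sum k : ℚ) ≠ 0 := by exact_mod_cast hk
      have e : qv w.sum = ((w.sum k : ℚ) / u.sum k) • qv u.sum := by
        funext j
        have h1 := hc k j u w hu hw
        have h2 : (u.sum k : ℚ) * w.sum j = w.sum k * u.sum j := by exact_mod_cast h1
        simp only [qv, Pi.smul_apply, smul_eq_mul]
        field_simp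
        linarith
      rw [SetLike.mem_coe, e]
      exact Submodule.smul_mem _ _ (Submodule.mem_span_singleton_self _)
    unfold ThinAt
    refine (Submodule.finrank_mono this).trans ?_
    exact (finrank_span_le_card _).trans (by simp)

/-- the effect of a walk is bounded by its length -/
theorem walk_le {p q : Q} {w : List (Vec d)} (h : Walk T p w q) (k : Fin d) :
    |w.sum k| ≤ w.length * maxNorm T :=
  sum_le (fun v hv k => by
    obtain ⟨a, b, hab⟩ := h.letters v hv
    exact abs_le_maxNorm hab k) k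

/-- admissible directions -/
def Adm (A : ℕ) (e : ℕ × ℕ) : Prop :=
  e = (1, 0) ∨ e = (0, 1) ∨ (1 ≤ e.1 ∧ e.1 ≤ A ∧ 1 ≤ e.2 ∧ e.2 ≤ A)

end Pool.Agent.EE2
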