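import Pool.Agent.EE2.Defs

/-!
# EE2 / Defs2: frames and constants
-/

set_option autoImplicit false
set_option linter.unusedSectionVars false

namespace Pool.Agent.EE2

open Pool.Agent.EEF Pool.Agent.REV Finset

/-- an entry of a frame: a state, closed items at this state, and a word leading to the next one -/
abbrev Ent (Q : Type) (d : ℕ) := Q × List (Itm d) × List (Vec d)

/-- frames from `p` to `q` -/
inductive Fr {Q : Type} {d : ℕ} (T : VASS Q d) : Q → List (Ent Q d) → Q → Prop
  | nil (p : Q) : Fr T p [] p
  | cons {r r' q : Q} {L : List (Itm d)} {σ : List (Vec d)} {F : List (Ent Q d)} :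
      (∀ i ∈ L, Walk T r i.1 r ∧ Walk T r i.2.1 r) → Walk T r σ r' → Fr T r' F q →
      Fr T r ((r, L, σ) :: F) q

/-- the items of a frame -/
def frItems {Q : Type} {d : ℕ} : List (Ent Q d) → List (Itm d)
  | [] => []
  | e :: F => e.2.1 ++ (e.2.2, [], 0) :: frItems F

/-- total effect of a frame -/
def frSum {Q : Type} {d : ℕ} (F : List (Ent Q d)) : Vec d := (unroll (frItems F)).sum

/-- size of a frame -/
def frSize {Q : Type} {d : ℕ} (F : List (Ent Q d)) : ℕ := schemeSize ((frItems F).map isk)

/-! ### Constants -/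

/-- length of the long loops -/
def cW (n A : ℕ) : ℕ := 2 * A * A * (3 * n) + 2 * ((6 * A * A * A + 6 * A * A) * n)

/-- size of the schemes between deep configurations, `A = n M` -/
def cS (n M : ℕ) : ℕ :=
  n * (n + 1) + (2 * (n * M) + 1) ^ 2 * ((2 * (n * M) * (n * M) + n * M) * n + 1) +
    2 * ((2 * (6 * (n * M) * (n * M)) * (n * M) + 2 * (n * M)) * n + 1) +
    2 * (cW n (n * M) + 1)

/-- threshold: deep configurations have moving coordinates `≥ cB` -/
def cB (n M : ℕ) : ℕ := cS n M * M

/-- threshold for corners -/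
def cB' (n M : ℕ) : ℕ := cB n M + M

/-- bound for a wall coordinate on a near-wall piece -/
def cC (n M : ℕ) : ℕ := cB' n M + 2 * (n * M + n * M * (cB' n M + n * M))

/-- size of the schemes of near-wall pieces -/
def cNW (n d M : ℕ) : ℕ := (n * (cC n M + 1)) * (cZ (n * (cC n M + 1)) d M + 2)

/-- size of the schemes of corner-free pieces -/
def cCF (n d M : ℕ) : ℕ := 2 * cNW n d M + cS n M + 4

/-- size of the schemes in one strongly connected component -/
def cZ2 (n d M : ℕ) : ℕ :=
  cZ n d M + (n * (d * d * (cB' n M * cB' n M)) + 1) * (cCF n d M + 4)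

/-- size of the schemes for the whole run -/
def cTot (n d M : ℕ) : ℕ := n * (cZ2 n d M + 2)

end Pool.Agent.EE2
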