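import Mathlib

set_option autoImplicit false

namespace Pool.Agent.EE2

open Finset

/-- one exchange step along an integer relation supported on big elements -/
theorem exch_step {D : ℕ} (R : Finset (ℤ × ℤ)) (m : ℤ × ℤ → ℕ) (lam : ℤ × ℤ → ℤ)
    (h1 : ∀ e, lam e ≠ 0 → e ∈ R ∧ D < m e) (h2 : ∀ e, lam e ≤ D) (h3 : ∃ e, 0 < lam e)
    (h4 : ∑ e ∈ R, lam e * e.1 = 0) (h5 : ∑ e ∈ R, lam e * e.2 = 0) :
    ∃ m' : ℤ × ℤ → ℕ, (∑ e ∈ R, (m' e : ℤ) * e.1 = ∑ e ∈ R, (m e : ℤ) * e.1) ∧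
      (∑ e ∈ R, (m' e : ℤ) * e.2 = ∑ e ∈ R, (m e : ℤ) * e.2) ∧
      (R.filter fun e => D < m' e).card < (R.filter fun e => D < m e).card := by
  classical
  obtain ⟨e0, he0⟩ := h3
  have hne : (R.filter fun e => 0 < lam e).Nonempty :=
    ⟨e0, mem_filter.2 ⟨(h1 e0 he0.ne').1, he0⟩⟩
  obtain ⟨s, hs, hmin⟩ := exists_min_image (R.filter fun e => 0 < lam e)
    (fun e => (m e : ℤ) / lam e) hne
  obtain ⟨hsR, hsp⟩ := mem_filter.1 hs
  have ht0 : 0 ≤ (m s : ℤ) / lam s := Int.ediv_nonneg (by positivity) hsp.le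
  have hnn : ∀ e, 0 ≤ (m e : ℤ) - (m s : ℤ) / lam s * lam e := by
    intro e
    by_cases hp : 0 < lam e
    · have heR := (h1 e hp.ne').1
      have h := hmin e (mem_filter.2 ⟨heR, hp⟩)
      have h6 : (m s : ℤ) / lam s * lam e ≤ ((m e : ℤ) / lam e) * lam e :=
        mul_le_mul_of_nonneg_right h hp.le
      have h7 := Int.ediv_mul_le (m e : ℤ) hp.ne'
      linarith
    · have h6 : (m s : ℤ) / lam s * lam e ≤ 0 :=
        mul_nonpos_of_nonneg_of_nonpos ht0 (not_lt.1 hp)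
      have h7 : (0 : ℤ) ≤ m e := by positivity
      linarith
  have hc : ∀ e, ((((m e : ℤ) - (m s : ℤ) / lam s * lam e).toNat : ℕ) : ℤ) =
      (m e : ℤ) - (m s : ℤ) / lam s * lam e := fun e => Int.toNat_of_nonneg (hnn e)
  refine ⟨fun e => ((m e : ℤ) - (m s : ℤ) / lam s * lam e).toNat, ?_, ?_, ?_⟩
  · have h : ∀ e ∈ R, ((((m e : ℤ) - (m s : ℤ) / lam s * lam e).toNat : ℕ) : ℤ) * e.1 =
        (m e : ℤ) * e.1 - (m s : ℤ) / lam s * (lam e * e.1) := by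
      intro e _
      rw [hc e]; ring
    rw [sum_congr rfl h, sum_sub_distrib, ← mul_sum, h4, mul_zero, sub_zero]
  · have h : ∀ e ∈ R, ((((m e : ℤ) - (m s : ℤ) / lam s * lam e).toNat : ℕ) : ℤ) * e.2 =
        (m e : ℤ) * e.2 - (m s : ℤ) / lam s * (lam e * e.2) := by
      intro e _
      rw [hc e]; ring
    rw [sum_congr rfl h, sum_sub_distrib, ← mul_sum, h5, mul_zero, sub_zero]
  · apply card_lt_card
    rw [ssubset_iff_of_subset]
    · refine ⟨s, mem_filter.2 ⟨hsR, (h1 s hsp.ne').2⟩, ?_⟩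
      intro hmem
      have hbig := (mem_filter.1 hmem).2
      have h8 : (m s : ℤ) - (m s : ℤ) / lam s * lam s = (m s : ℤ) % lam s := by
        rw [Int.emod_def]; ring
      have h9 := Int.emod_lt_of_pos (m s : ℤ) hsp
      have h10 := h2 s
      have h11 : (D : ℤ) < ((((m s : ℤ) - (m s : ℤ) / lam s * lam s).toNat : ℕ) : ℤ) := by
        exact_mod_cast hbig
      rw [hc s, h8] at h11
      linarith
    · intro e he
      rw [mem_filter] at he ⊢
      refine ⟨he.1, ?_⟩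
      by_cases hl : lam e = 0
      · simpa [hl] using he.2
      · exact (h1 e hl).2

/-- the same up to sign -/
theorem exch_step' {D : ℕ} (R : Finset (ℤ × ℤ)) (m : ℤ × ℤ → ℕ) (lam : ℤ × ℤ → ℤ)
    (h1 : ∀ e, lam e ≠ 0 → e ∈ R ∧ D < m e) (h2 : ∀ e, |lam e| ≤ D) (h3 : ∃ e, lam e ≠ 0)
    (h4 : ∑ e ∈ R, lam e * e.1 = 0) (h5 : ∑ e ∈ R, lam e * e.2 = 0) :
    ∃ m' : ℤ × ℤ → ℕ, (∑ e ∈ R, (m' e : ℤ) * e.1 = ∑ e ∈ R, (m e : ℤ) * e.1) ∧
      (∑ e ∈ R, (m' e : ℤ) * e.2 = ∑ e ∈ R, (m e : ℤ) * e.2) ∧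
      (R.filter fun e => D < m' e).card < (R.filter fun e => D < m e).card := by
  obtain ⟨e, he⟩ := h3
  rcases lt_or_gt_of_ne he with h | h
  · refine exch_step R m (fun e => - lam e) (fun e he => h1 e (by simpa using he))
      (fun e => (neg_le_abs _).trans (h2 e)) ⟨e, by simpa using h⟩ ?_ ?_
    · simp only [neg_mul, sum_neg_distrib, h4, neg_zero]
    · simp only [neg_mul, sum_neg_distrib, h5, neg_zero]
  · exact exch_step R m lam h1 (fun e => (le_abs_self _).trans (h2 e)) ⟨e, h⟩ h4 h5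

theorem exch_det_abs {A : ℕ} {a b c d : ℤ} (ha : |a| ≤ A) (hb : |b| ≤ A) (hc : |c| ≤ A)
    (hd : |d| ≤ A) : |a * b - c * d| ≤ 2 * A * A := by
  have hA : (0 : ℤ) ≤ A := by positivity
  have h1 : |a * b| ≤ A * A := by
    rw [abs_mul]; exact mul_le_mul ha hb (abs_nonneg _) hA
  have h2 : |c * d| ≤ A * A := by
    rw [abs_mul]; exact mul_le_mul hc hd (abs_nonneg _) hA
  calc |a * b - c * d| ≤ |a * b| + |c * d| := abs_sub _ _
    _ ≤ 2 * A * A := by linarith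

/-- ROW Exch -/
theorem exchange2 {A : ℕ} (R : Finset (ℤ × ℤ)) (hR : ∀ e ∈ R, |e.1| ≤ A ∧ |e.2| ≤ A)
    (m : ℤ × ℤ → ℕ) : ∃ m' : ℤ × ℤ → ℕ,
      (∑ e ∈ R, (m' e : ℤ) * e.1 = ∑ e ∈ R, (m e : ℤ) * e.1) ∧
      (∑ e ∈ R, (m' e : ℤ) * e.2 = ∑ e ∈ R, (m e : ℤ) * e.2) ∧
      ((∃ e₁, ∀ e ∈ R, e ≠ e₁ → m' e ≤ 2 * A * A + A) ∨
        (∃ e₁ ∈ R, ∃ e₂ ∈ R, e₁.1 * e₂.2 - e₁.2 * e₂.1 ≠ 0 ∧
          ∀ e ∈ R, e ≠ e₁ → e ≠ e₂ → m' e ≤ 2 * A * A + A)) := by
  classical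
  have key : ∀ (n : ℕ) (m : ℤ × ℤ → ℕ), (R.filter fun e => 2 * A * A + A < m e).card = n →
      ∃ m' : ℤ × ℤ → ℕ,
      (∑ e ∈ R, (m' e : ℤ) * e.1 = ∑ e ∈ R, (m e : ℤ) * e.1) ∧
      (∑ e ∈ R, (m' e : ℤ) * e.2 = ∑ e ∈ R, (m e : ℤ) * e.2) ∧
      ((∃ e₁, ∀ e ∈ R, e ≠ e₁ → m' e ≤ 2 * A * A + A) ∨
        (∃ e₁ ∈ R, ∃ e₂ ∈ R, e₁.1 * e₂.2 - e₁.2 * e₂.1 ≠ 0 ∧
          ∀ e ∈ R, e ≠ e₁ → e ≠ e₂ → m' e ≤ 2 * A * A + A)) := by
    intro n
    induction n using Nat.strong_induction_on with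
    | _ n ih =>
    intro m hn
    have fin : (∃ m₁ : ℤ × ℤ → ℕ, (∑ e ∈ R, (m₁ e : ℤ) * e.1 = ∑ e ∈ R, (m e : ℤ) * e.1) ∧
        (∑ e ∈ R, (m₁ e : ℤ) * e.2 = ∑ e ∈ R, (m e : ℤ) * e.2) ∧
        (R.filter fun e => 2 * A * A + A < m₁ e).card <
          (R.filter fun e => 2 * A * A + A < m e).card) →
        ∃ m' : ℤ × ℤ → ℕ,
        (∑ e ∈ R, (m' e : ℤ) * e.1 = ∑ e ∈ R, (m e : ℤ) * e.1) ∧
        (∑ e ∈ R, (m' e : ℤ) * e.2 = ∑ e ∈ R, (m e : ℤ) * e.2) ∧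
        ((∃ e₁, ∀ e ∈ R, e ≠ e₁ → m' e ≤ 2 * A * A + A) ∨
          (∃ e₁ ∈ R, ∃ e₂ ∈ R, e₁.1 * e₂.2 - e₁.2 * e₂.1 ≠ 0 ∧
            ∀ e ∈ R, e ≠ e₁ → e ≠ e₂ → m' e ≤ 2 * A * A + A)) := by
      rintro ⟨m₁, ha, hb, hc⟩
      obtain ⟨m', ha', hb', hc'⟩ := ih _ (hn ▸ hc) m₁ rfl
      exact ⟨m', ha'.trans ha, hb'.trans hb, hc'⟩
    have hAA : (A : ℤ) ≤ ((2 * A * A + A : ℕ) : ℤ) := by
      push_cast; nlinarith [Int.natCast_nonneg A]
    have hAA2 : (2 * A * A : ℤ) ≤ ((2 * A * A + A : ℕ) : ℤ) := by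
      push_cast; linarith [Int.natCast_nonneg A]
    have hA0 : (0 : ℤ) ≤ ((2 * A * A + A : ℕ) : ℤ) := by positivity
    by_cases hpar : ∃ e₁ ∈ R, ∃ e₂ ∈ R, e₁ ≠ e₂ ∧ 2 * A * A + A < m e₁ ∧ 2 * A * A + A < m e₂ ∧
        e₁.1 * e₂.2 - e₁.2 * e₂.1 = 0
    · obtain ⟨e₁, h₁, e₂, h₂, hne, hb₁, hb₂, hdet⟩ := hpar
      apply fin
      -- a relation `a e₁ + b e₂ = 0`
      obtain ⟨a, b, ha, hb, hab, hs1, hs2⟩ : ∃ a b : ℤ, |a| ≤ A ∧ |b| ≤ A ∧ (a ≠ 0 ∨ b ≠ 0) ∧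
          a * e₁.1 + b * e₂.1 = 0 ∧ a * e₁.2 + b * e₂.2 = 0 := by
        by_cases hz : e₁.1 = 0 ∧ e₂.1 = 0
        · refine ⟨e₂.2, -e₁.2, (hR _ h₂).2, by simpa using (hR _ h₁).2, ?_, ?_, by ring⟩
          · by_contra hcon
            push Not at hcon
            apply hne
            apply Prod.ext
            · rw [hz.1, hz.2]
            · have h3 : e₁.2 = 0 := by simpa using hcon.2
              rw [h3, hcon.1]
          · rw [hz.1, hz.2]; ring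
        · refine ⟨e₂.1, -e₁.1, (hR _ h₂).1, by simpa using (hR _ h₁).1, ?_, by ring, ?_⟩
          · by_contra hcon
            push Not at hcon
            apply hz
            exact ⟨by simpa using hcon.2, hcon.1⟩
          · linear_combination -hdet
      refine exch_step' R m (fun e => if e = e₁ then a else if e = e₂ then b else 0) ?_ ?_ ?_ ?_ ?_
      · intro e he
        by_cases h : e = e₁
        · exact h ▸ ⟨h₁, hb₁⟩
        · by_cases h' : e = e₂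
          · exact h' ▸ ⟨h₂, hb₂⟩
          · exact absurd (by simp [h, h']) he
      · intro e
        by_cases h : e = e₁
        · simp only [h, if_true]; exact ha.trans hAA
        · by_cases h' : e = e₂
          · have h'' : e₂ ≠ e₁ := hne.symm
            simp only [h', h'', if_false, if_true]; exact hb.trans hAA
          · simp only [h, h', if_false, abs_zero]; exact hA0
      · rcases hab with h | h
        · exact ⟨e₁, by simpa using h⟩
        · exact ⟨e₂, by simpa [hne.symm] using h⟩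
      · have h : ∀ e ∈ R, (if e = e₁ then a else if e = e₂ then b else 0) * e.1 =
            (if e = e₁ then a * e.1 else 0) + (if e = e₂ then b * e.1 else 0) := by
          intro e _
          by_cases h : e = e₁
          · simp [h, hne]
          · by_cases h' : e = e₂ <;> simp [h, h', hne.symm]
        rw [sum_congr rfl h, sum_add_distrib, sum_ite_eq' R e₁, sum_ite_eq' R e₂, if_pos h₁,
          if_pos h₂]
        exact hs1
      · have h : ∀ e ∈ R, (if e = e₁ then a else if e = e₂ then b else 0) * e.2 =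
            (if e = e₁ then a * e.2 else 0) + (if e = e₂ then b * e.2 else 0) := by
          intro e _
          by_cases h : e = e₁
          · simp [h, hne]
          · by_cases h' : e = e₂ <;> simp [h, h', hne.symm]
        rw [sum_congr rfl h, sum_add_distrib, sum_ite_eq' R e₁, sum_ite_eq' R e₂, if_pos h₁,
          if_pos h₂]
        exact hs2
    by_cases htr : ∃ e₁ ∈ R, ∃ e₂ ∈ R, ∃ e₃ ∈ R, e₁ ≠ e₂ ∧ e₁ ≠ e₃ ∧ e₂ ≠ e₃ ∧
        2 * A * A + A < m e₁ ∧ 2 * A * A + A < m e₂ ∧ 2 * A * A + A < m e₃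
    · obtain ⟨e₁, h₁, e₂, h₂, e₃, h₃, h12, h13, h23, hb₁, hb₂, hb₃⟩ := htr
      apply fin
      have hdet : e₁.1 * e₂.2 - e₁.2 * e₂.1 ≠ 0 := fun h =>
        hpar ⟨e₁, h₁, e₂, h₂, h12, hb₁, hb₂, h⟩
      have hsum : ∀ f : ℤ × ℤ → ℤ, ∀ a b c : ℤ, ∑ e ∈ R,
          (if e = e₁ then a else if e = e₂ then b else if e = e₃ then c else 0) * f e =
          a * f e₁ + b * f e₂ + c * f e₃ := by
        intro f a b c
        have h : ∀ e ∈ R, (if e = e₁ then a else if e = e₂ then b else if e = e₃ then c else 0) *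
            f e = (if e = e₁ then a * f e else 0) + (if e = e₂ then b * f e else 0) +
              (if e = e₃ then c * f e else 0) := by
          intro e _
          by_cases h : e = e₁
          · subst h; simp [h12, h13]
          · by_cases h' : e = e₂
            · subst h'; simp [h12.symm, h23]
            · by_cases h'' : e = e₃
              · subst h''; simp [h, h']
              · simp [h, h', h'']
        rw [sum_congr rfl h, sum_add_distrib, sum_add_distrib, sum_ite_eq' R e₁, sum_ite_eq' R e₂,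
          sum_ite_eq' R e₃, if_pos h₁, if_pos h₂, if_pos h₃]
      refine exch_step' R m (fun e => if e = e₁ then e₂.1 * e₃.2 - e₂.2 * e₃.1 else
        if e = e₂ then e₃.1 * e₁.2 - e₃.2 * e₁.1 else
        if e = e₃ then e₁.1 * e₂.2 - e₁.2 * e₂.1 else 0) ?_ ?_ ?_ ?_ ?_
      · intro e he
        by_cases h : e = e₁
        · exact h ▸ ⟨h₁, hb₁⟩
        · by_cases h' : e = e₂
          · exact h' ▸ ⟨h₂, hb₂⟩
          · by_cases h'' : e = e₃
            · exact h'' ▸ ⟨h₃, hb₃⟩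
            · exact absurd (by simp [h, h', h'']) he
      · intro e
        by_cases h : e = e₁
        · simp only [h, if_true]
          exact (exch_det_abs (hR _ h₂).1 (hR _ h₃).2 (hR _ h₂).2 (hR _ h₃).1).trans hAA2
        · by_cases h' : e = e₂
          · simp only [h', h12.symm, if_false, if_true]
            exact (exch_det_abs (hR _ h₃).1 (hR _ h₁).2 (hR _ h₃).2 (hR _ h₁).1).trans hAA2
          · by_cases h'' : e = e₃
            · simp only [h'', h13.symm, h23.symm, if_false, if_true]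
              exact (exch_det_abs (hR _ h₁).1 (hR _ h₂).2 (hR _ h₁).2 (hR _ h₂).1).trans hAA2
            · simp only [h, h', h'', if_false, abs_zero]; exact hA0
      · exact ⟨e₃, by simpa [h13.symm, h23.symm] using hdet⟩
      · rw [hsum (fun e => e.1)]; ring
      · rw [hsum (fun e => e.2)]; ring
    by_cases htw : ∃ e₁ ∈ R, ∃ e₂ ∈ R, e₁ ≠ e₂ ∧ 2 * A * A + A < m e₁ ∧ 2 * A * A + A < m e₂
    · obtain ⟨e₁, h₁, e₂, h₂, hne, hb₁, hb₂⟩ := htw
      refine ⟨m, rfl, rfl, Or.inr ⟨e₁, h₁, e₂, h₂, ?_, ?_⟩⟩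
      · intro hdet
        exact hpar ⟨e₁, h₁, e₂, h₂, hne, hb₁, hb₂, hdet⟩
      · intro e he hn1 hn2
        by_contra hbig
        exact htr ⟨e₁, h₁, e₂, h₂, e, he, hne, hn1.symm, hn2.symm, hb₁, hb₂, not_le.1 hbig⟩
    · refine ⟨m, rfl, rfl, Or.inl ?_⟩
      by_cases hon : ∃ e₁ ∈ R, 2 * A * A + A < m e₁
      · obtain ⟨e₁, h₁, hb⟩ := hon
        refine ⟨e₁, fun e he hn1 => ?_⟩
        by_contra hbig
        exact htw ⟨e₁, h₁, e, he, hn1.symm, hb, not_le.1 hbig⟩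
      · exact ⟨(0, 0), fun e he _ => not_lt.1 fun h => hon ⟨e, he, h⟩⟩
  exact key _ m rfl

end Pool.Agent.EE2
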