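import Pool.Agent.EEF.Defs

/-!
# EE2 / FewPh: runs with few phases
-/

set_option autoImplicit false

namespace Pool.Agent.EE2

open Pool.Agent.EEF

/-- `FewPh T K p x q y`: there is a run from `p(x)` to `q(y)` of total cost `K`, where
* `cyc`: a run whose transitions lie in some `T' ⊆ T` with the property that every counter is changed
  in one direction only by the closed walks of `T'` (for every counter `k`, either all closed walks
  of `T'` have an effect `≥ 0` on `k`, or all have an effect `≤ 0` on `k`) costs 1 altogether; in
  particular a single step costs 1, and so does a run along which every counter is monotone;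
* `planar`: a run whose transitions lie in some `T' ⊆ T` such that in every strongly connected
  component of `T'` the effects of the cycles span a space of dimension at most two costs 1
  altogether (formally: for every state `r`, the effects of the closed walks of `T'` at `r` span a
  space of dimension at most two);
* `loop`: a run labelled by a power of a word `β` which labels a closed walk costs
  `β.length + 1` altogether. -/
inductive FewPh {Q : Type} {d : ℕ} (T : VASS Q d) :
    ℕ → Q → (Fin d → ℕ) → Q → (Fin d → ℕ) → Prop
  | nil (p : Q) (x : Fin d → ℕ) : FewPh T 0 p x p x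
  | cyc {K : ℕ} {T' : VASS Q d} {p p' q : Q} {x x' y : Fin d → ℕ} {w : List (Fin d → ℤ)} :
      T' ⊆ T → (∀ k, (∀ r u, Walk T' r u r → 0 ≤ u.sum k) ∨
        (∀ r u, Walk T' r u r → u.sum k ≤ 0)) →
      Run T' p x w p' x' → FewPh T K p' x' q y → FewPh T (K + 1) p x q y
  | planar {K : ℕ} {T' : VASS Q d} {p p' q : Q} {x x' y : Fin d → ℕ} {w : List (Fin d → ℤ)} :
      T' ⊆ T → (∀ r, Module.finrank ℚ (Submodule.span ℚ
        {c : Fin d → ℚ | ∃ w, Walk T' r w r ∧ c = qv w.sum}) ≤ 2) →
      Run T' p x w p' x' → FewPh T K p' x' q y → FewPh T (K + 1) p x q y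
  | loop {K : ℕ} {p q : Q} {x x' y : Fin d → ℕ} {β : List (Fin d → ℤ)} {a : ℕ} :
      Walk T p β p → Run T p x (List.replicate a β).flatten p x' → FewPh T K p x' q y →
      FewPh T (K + (β.length + 1)) p x q y

end Pool.Agent.EE2
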