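import Pool.Agent.EE2.Defs2

/-!
# EE2 / Num: the numerical bound
-/

set_option autoImplicit false
set_option linter.unusedSectionVars false

namespace Pool.Agent.EE2

open Pool.Agent.EEF Pool.Agent.REV Finset

theorem cZ_num {n d M : ℕ} (hn : 1 ≤ n) :
    cZ n d M ≤ 50 * (n ^ 7 * (d + 1) * (M + 1) ^ 5) := by
  obtain ⟨m, hm⟩ : ∃ m, m = M + 1 := ⟨_, rfl⟩
  obtain ⟨b, hb⟩ : ∃ b, b = d + 1 := ⟨_, rfl⟩
  have hm1 : 1 ≤ m := by omega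
  have hb1 : 1 ≤ b := by omega
  have hMm : M ≤ m := by omega
  have hdb : d ≤ b := by omega
  rw [← hm, ← hb]
  have hA : cA n M ≤ 4 * n ^ 3 * m ^ 2 := by
    unfold cA
    have h1 : n * ((n * M) * (n * M)) ≤ n * ((n * m) * (n * m)) := by gcongr
    have h2 : n * ((n * m) * (n * m)) = n ^ 3 * m ^ 2 := by ring
    have h3 : n ≤ n ^ 3 * m ^ 2 := by
      calc n = n * 1 := (mul_one n).symm
        _ ≤ n ^ 3 * m ^ 2 := Nat.mul_le_mul (Nat.le_self_pow (by norm_num) n)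
          (Nat.one_le_pow _ _ hm1)
    rw [h2] at h1
    linarith
  have hone : 1 ≤ n ^ 3 * m ^ 2 := Nat.mul_pos (pow_pos hn 3) (pow_pos hm1 2)
  have hA6 : cA n M + 6 ≤ 10 * (n ^ 3 * m ^ 2) := by linarith
  have hR : n * (d * (cA n M * M)) + 1 ≤ 5 * (n ^ 4 * b * m ^ 3) := by
    have h1 : n * (d * (cA n M * M)) ≤ n * (b * ((4 * n ^ 3 * m ^ 2) * m)) := by gcongr
    have h2 : n * (b * ((4 * n ^ 3 * m ^ 2) * m)) = 4 * (n ^ 4 * b * m ^ 3) := by ring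
    have h3 : 1 ≤ n ^ 4 * b * m ^ 3 :=
      Nat.mul_pos (Nat.mul_pos (pow_pos hn 4) hb1) (pow_pos hm1 3)
    linarith
  unfold cZ
  calc (n * (d * (cA n M * M)) + 1) * (cA n M + 6)
      ≤ (5 * (n ^ 4 * b * m ^ 3)) * (10 * (n ^ 3 * m ^ 2)) := Nat.mul_le_mul hR hA6
    _ = _ := by ring

theorem cS_num {n M : ℕ} (hn : 1 ≤ n) : cS n M ≤ 58 * (n ^ 5 * (M + 1) ^ 4) := by
  obtain ⟨a, ha⟩ : ∃ a, a = n * (M + 1) := ⟨_, rfl⟩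
  obtain ⟨A, hA⟩ : ∃ A, A = n * M := ⟨_, rfl⟩
  have h1 : A + 1 ≤ a := by
    rw [hA, ha, Nat.mul_add, Nat.mul_one]
    omega
  have hna : n ≤ a := by
    rw [ha]; exact Nat.le_mul_of_pos_right n (Nat.succ_pos M)
  have ha1 : 1 ≤ a := hn.trans hna
  have e : 58 * (n ^ 5 * (M + 1) ^ 4) = 58 * (n * a ^ 4) := by rw [ha]; ring
  have p1 : n * (n + 1) ≤ 2 * (n * a ^ 4) := by
    have q1 : n + 1 ≤ 2 * a := by omega
    have q2 : a ≤ a ^ 4 := Nat.le_self_pow (by norm_num) a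
    calc n * (n + 1) ≤ n * (2 * a ^ 4) := Nat.mul_le_mul_left _ (by omega)
      _ = _ := by ring
  have p2 : (2 * A + 1) ^ 2 * ((2 * A * A + A) * n + 1) ≤ 8 * (n * a ^ 4) := by
    have q1 : (2 * A + 1) ^ 2 ≤ (2 * a) ^ 2 := Nat.pow_le_pow_left (by omega) 2
    have q2 : (2 * A * A + A) * n + 1 ≤ 2 * (A + 1) ^ 2 * n := by nlinarith
    have q3 : 2 * (A + 1) ^ 2 * n ≤ 2 * a ^ 2 * n := by gcongr
    calc _ ≤ (2 * a) ^ 2 * (2 * a ^ 2 * n) := Nat.mul_le_mul q1 (q2.trans q3)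
      _ = _ := by ring
  have h34 : n * a ^ 3 ≤ n * a ^ 4 := Nat.mul_le_mul_left _ (Nat.pow_le_pow_right ha1 (by norm_num))
  have hA3 : (A + 1) ^ 3 ≤ a ^ 3 := Nat.pow_le_pow_left h1 3
  have p3 : 2 * ((2 * (6 * A * A) * A + 2 * A) * n + 1) ≤ 24 * (n * a ^ 4) := by
    have q1 : (2 * (6 * A * A) * A + 2 * A) * n + 1 ≤
        (2 * (6 * A * A) * A + 2 * A + 1) * n := by nlinarith
    have q2 : 2 * (6 * A * A) * A + 2 * A + 1 ≤ 12 * (A + 1) ^ 3 := by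
      have : 12 * (A + 1) ^ 3 = 2 * (6 * A * A) * A + 2 * A + 1 +
          (36 * A * A + 34 * A + 11) := by ring
      omega
    have q3 : (2 * (6 * A * A) * A + 2 * A + 1) * n ≤ 12 * a ^ 3 * n :=
      Nat.mul_le_mul_right _ (q2.trans (Nat.mul_le_mul_left _ hA3))
    have q4 : 12 * a ^ 3 * n = 12 * (n * a ^ 3) := by ring
    omega
  have p4 : 2 * (cW n A + 1) ≤ 24 * (n * a ^ 4) := by
    unfold cW
    have q1 : 2 * A * A * (3 * n) + 2 * ((6 * A * A * A + 6 * A * A) * n) + 1 ≤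
        (12 * A * A * A + 18 * A * A + 1) * n := by nlinarith
    have q2 : 12 * A * A * A + 18 * A * A + 1 ≤ 12 * (A + 1) ^ 3 := by
      have : 12 * (A + 1) ^ 3 = 12 * A * A * A + 18 * A * A + 1 +
          (18 * A * A + 36 * A + 11) := by ring
      omega
    have q3 : (12 * A * A * A + 18 * A * A + 1) * n ≤ 12 * a ^ 3 * n :=
      Nat.mul_le_mul_right _ (q2.trans (Nat.mul_le_mul_left _ hA3))
    have q4 : 12 * a ^ 3 * n = 12 * (n * a ^ 3) := by ring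
    omega
  rw [e]
  unfold cS
  rw [← hA]
  omega

theorem cB'_num {n M : ℕ} (hn : 1 ≤ n) : cB' n M ≤ 59 * (n ^ 5 * (M + 1) ^ 5) := by
  have h := cS_num (M := M) hn
  obtain ⟨m, hm⟩ : ∃ m, m = M + 1 := ⟨_, rfl⟩
  have hMm : M ≤ m := by omega
  have hm1 : 1 ≤ m := by omega
  unfold cB' cB
  rw [← hm] at h ⊢
  have h1 : cS n M * M ≤ 58 * (n ^ 5 * m ^ 4) * m := Nat.mul_le_mul h hMm
  have h2 : 58 * (n ^ 5 * m ^ 4) * m = 58 * (n ^ 5 * m ^ 5) := by ring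
  have h3 : m ≤ n ^ 5 * m ^ 5 := by
    calc m = 1 * m := (one_mul m).symm
      _ ≤ n ^ 5 * m ^ 5 := Nat.mul_le_mul (Nat.one_le_pow _ _ hn)
        (Nat.le_self_pow (by norm_num) m)
  omega

theorem cC_num {n M : ℕ} (hn : 1 ≤ n) : n * (cC n M + 1) ≤ 182 * (n ^ 7 * (M + 1) ^ 6) := by
  have h := cB'_num (M := M) hn
  obtain ⟨m, hm⟩ : ∃ m, m = M + 1 := ⟨_, rfl⟩
  have hMm : M ≤ m := by omega
  have hm1 : 1 ≤ m := by omega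
  unfold cC
  rw [← hm] at h ⊢
  have h1 : n * M ≤ n * m := Nat.mul_le_mul_left _ hMm
  have h2 : n * M * (cB' n M + n * M) ≤ n * m * (59 * (n ^ 5 * m ^ 5) + n * m) :=
    Nat.mul_le_mul h1 (Nat.add_le_add h h1)
  have h3 : n * m * (59 * (n ^ 5 * m ^ 5) + n * m) = 59 * (n ^ 6 * m ^ 6) + n ^ 2 * m ^ 2 := by
    ring
  have g1 : n * m ≤ n ^ 6 * m ^ 6 :=
    Nat.mul_le_mul (Nat.le_self_pow (by norm_num) n) (Nat.le_self_pow (by norm_num) m)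
  have g2 : n ^ 2 * m ^ 2 ≤ n ^ 6 * m ^ 6 :=
    Nat.mul_le_mul (Nat.pow_le_pow_right hn (by norm_num)) (Nat.pow_le_pow_right hm1 (by norm_num))
  have g3 : n ^ 5 * m ^ 5 ≤ n ^ 6 * m ^ 6 :=
    Nat.mul_le_mul (Nat.pow_le_pow_right hn (by norm_num)) (Nat.pow_le_pow_right hm1 (by norm_num))
  have g4 : 1 ≤ n ^ 6 * m ^ 6 := Nat.mul_pos (pow_pos hn 6) (pow_pos hm1 6)
  have h4 : cB' n M + 2 * (n * M + n * M * (cB' n M + n * M)) + 1 ≤ 182 * (n ^ 6 * m ^ 6) := by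
    omega
  calc n * (cB' n M + 2 * (n * M + n * M * (cB' n M + n * M)) + 1)
      ≤ n * (182 * (n ^ 6 * m ^ 6)) := Nat.mul_le_mul_left _ h4
    _ = _ := by ring

theorem cCF_num {n d M : ℕ} (hn : 1 ≤ n) :
    cCF n d M + 4 ≤ 105 * 182 ^ 8 * (n ^ 56 * (d + 1) * (M + 1) ^ 53) := by
  have hS := cS_num (M := M) hn
  have hC := cC_num (M := M) hn
  have hk1 : 1 ≤ n * (cC n M + 1) := Nat.mul_pos hn (Nat.succ_pos _)
  have hZ := cZ_num (d := d) (M := M) hk1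
  obtain ⟨k, hk⟩ : ∃ k, k = n * (cC n M + 1) := ⟨_, rfl⟩
  obtain ⟨m, hm⟩ : ∃ m, m = M + 1 := ⟨_, rfl⟩
  obtain ⟨b, hb⟩ : ∃ b, b = d + 1 := ⟨_, rfl⟩
  have hm1 : 1 ≤ m := by omega
  have hb1 : 1 ≤ b := by omega
  unfold cCF cNW
  rw [← hk] at hZ hC hk1 ⊢
  rw [← hm] at hS hC hZ ⊢
  rw [← hb] at hZ ⊢
  have h1 : 1 ≤ k ^ 7 * b * m ^ 5 := Nat.mul_pos (Nat.mul_pos (pow_pos hk1 7) hb1) (pow_pos hm1 5)
  have h2 : k * (cZ k d M + 2) ≤ k * (52 * (k ^ 7 * b * m ^ 5)) :=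
    Nat.mul_le_mul_left _ (by omega)
  have h3 : k * (52 * (k ^ 7 * b * m ^ 5)) = 52 * (k ^ 8 * b * m ^ 5) := by ring
  have h4 : k ^ 8 * b * m ^ 5 ≤ (182 * (n ^ 7 * m ^ 6)) ^ 8 * b * m ^ 5 :=
    Nat.mul_le_mul_right _ (Nat.mul_le_mul_right _ (Nat.pow_le_pow_left hC 8))
  have h5 : (182 * (n ^ 7 * m ^ 6)) ^ 8 * b * m ^ 5 = 182 ^ 8 * (n ^ 56 * b * m ^ 53) := by ring
  have g1 : n ^ 5 * m ^ 4 ≤ n ^ 56 * b * m ^ 53 := by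
    calc n ^ 5 * m ^ 4 = n ^ 5 * 1 * m ^ 4 := by ring
      _ ≤ n ^ 56 * b * m ^ 53 := Nat.mul_le_mul
        (Nat.mul_le_mul (Nat.pow_le_pow_right hn (by norm_num)) hb1)
        (Nat.pow_le_pow_right hm1 (by norm_num))
  have g2 : 1 ≤ n ^ 56 * b * m ^ 53 :=
    Nat.mul_pos (Nat.mul_pos (pow_pos hn 56) hb1) (pow_pos hm1 53)
  obtain ⟨Z, hZ'⟩ : ∃ Z, Z = n ^ 56 * b * m ^ 53 := ⟨_, rfl⟩
  rw [← hZ'] at h5 g1 g2 ⊢
  rw [h5] at h4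
  have h6 : (104 * 182 ^ 8 + 66) * Z ≤ 105 * 182 ^ 8 * Z := Nat.mul_le_mul_right _ (by norm_num)
  have h7 : (104 * 182 ^ 8 + 66) * Z = 2 * (52 * (182 ^ 8 * Z)) + 58 * Z + 8 * Z := by ring
  omega

theorem cTot_num {n d M : ℕ} (hn : 1 ≤ n) :
    cTot n d M + 1 ≤ 2 ^ 79 * (n ^ 68 * (d + 1) ^ 3 * (M + 1) ^ 63) := by
  have hF := cCF_num (d := d) (M := M) hn
  have hB := cB'_num (M := M) hn
  have hZ := cZ_num (d := d) (M := M) hn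
  obtain ⟨m, hm⟩ : ∃ m, m = M + 1 := ⟨_, rfl⟩
  obtain ⟨b, hb⟩ : ∃ b, b = d + 1 := ⟨_, rfl⟩
  have hm1 : 1 ≤ m := by omega
  have hb1 : 1 ≤ b := by omega
  have hdb : d ≤ b := by omega
  unfold cTot cZ2
  rw [← hm] at hF hB hZ ⊢
  rw [← hb] at hF hZ ⊢
  have h1 : n * (d * d * (cB' n M * cB' n M)) ≤
      n * (b * b * ((59 * (n ^ 5 * m ^ 5)) * (59 * (n ^ 5 * m ^ 5)))) := by gcongr
  have h2 : n * (b * b * ((59 * (n ^ 5 * m ^ 5)) * (59 * (n ^ 5 * m ^ 5)))) =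
      3481 * (n ^ 11 * b ^ 2 * m ^ 10) := by ring
  have h3 : 1 ≤ n ^ 11 * b ^ 2 * m ^ 10 :=
    Nat.mul_pos (Nat.mul_pos (pow_pos hn _) (pow_pos hb1 _)) (pow_pos hm1 _)
  have h4 : (n * (d * d * (cB' n M * cB' n M)) + 1) * (cCF n d M + 4) ≤
      (3482 * (n ^ 11 * b ^ 2 * m ^ 10)) * (105 * 182 ^ 8 * (n ^ 56 * b * m ^ 53)) :=
    Nat.mul_le_mul (by omega) hF
  have h5 : (3482 * (n ^ 11 * b ^ 2 * m ^ 10)) * (105 * 182 ^ 8 * (n ^ 56 * b * m ^ 53)) =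
      (3482 * (105 * 182 ^ 8)) * (n ^ 67 * b ^ 3 * m ^ 63) := by ring
  have g1 : n ^ 7 * b * m ^ 5 ≤ n ^ 67 * b ^ 3 * m ^ 63 :=
    Nat.mul_le_mul (Nat.mul_le_mul (Nat.pow_le_pow_right hn (by norm_num))
      (Nat.le_self_pow (by norm_num) b)) (Nat.pow_le_pow_right hm1 (by norm_num))
  have g2 : 1 ≤ n ^ 67 * b ^ 3 * m ^ 63 :=
    Nat.mul_pos (Nat.mul_pos (pow_pos hn _) (pow_pos hb1 _)) (pow_pos hm1 _)
  have e1 : n * (n ^ 67 * b ^ 3 * m ^ 63) = n ^ 68 * b ^ 3 * m ^ 63 := by ring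
  obtain ⟨Z, hZ'⟩ : ∃ Z, Z = n ^ 67 * b ^ 3 * m ^ 63 := ⟨_, rfl⟩
  rw [← hZ'] at h5 g1 g2 e1
  rw [← e1]
  have h6 : cZ n d M + (n * (d * d * (cB' n M * cB' n M)) + 1) * (cCF n d M + 4) + 2 ≤
      (3482 * (105 * 182 ^ 8) + 52) * Z := by
    have : (3482 * (105 * 182 ^ 8) + 52) * Z = 3482 * (105 * 182 ^ 8) * Z + 50 * Z + 2 * Z := by
      ring
    omega
  have g3 : 1 ≤ n * Z := Nat.mul_pos hn g2
  calc n * (cZ n d M + (n * (d * d * (cB' n M * cB' n M)) + 1) * (cCF n d M + 4) + 2) + 1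
      ≤ n * ((3482 * (105 * 182 ^ 8) + 52) * Z) + n * Z :=
        Nat.add_le_add (Nat.mul_le_mul_left _ h6) g3
    _ = (3482 * (105 * 182 ^ 8) + 53) * (n * Z) := by ring
    _ ≤ 2 ^ 79 * (n * Z) := Nat.mul_le_mul_right _ (by norm_num)

/-- ROW Num -/
theorem num2 {n d M s : ℕ} (hn : 1 ≤ n) (hs : s ≤ cTot n d M) :
    45 * (s + 1) ^ 4 * (d + 1) ^ 3 * (M + 1) ^ 2 ≤ (2 * n * (d + 1) * (M + 1)) ^ 400 := by
  have h := cTot_num (d := d) (M := M) hn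
  have h1 : s + 1 ≤ 2 ^ 79 * (n ^ 68 * (d + 1) ^ 3 * (M + 1) ^ 63) := by omega
  obtain ⟨m, hm⟩ : ∃ m, m = M + 1 := ⟨_, rfl⟩
  obtain ⟨b, hb⟩ : ∃ b, b = d + 1 := ⟨_, rfl⟩
  have hm1 : 1 ≤ m := by omega
  have hb1 : 1 ≤ b := by omega
  rw [← hm, ← hb] at h1 ⊢
  obtain ⟨K, hK⟩ : ∃ K, K = 2 ^ 79 := ⟨_, rfl⟩
  obtain ⟨P, hP⟩ : ∃ P, P = 2 ^ 100 := ⟨_, rfl⟩
  have hKP : 4 * K ≤ P := by rw [hK, hP]; norm_num
  have hP4 : P ^ 4 = 2 ^ 400 := by rw [hP, ← pow_mul]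
  rw [← hK] at h1
  have e1 : 45 * (K * (n ^ 68 * b ^ 3 * m ^ 63)) ^ 4 * b ^ 3 * m ^ 2 =
      (45 * K ^ 4) * (n ^ 272 * b ^ 15 * m ^ 254) := by ring
  have e2 : 45 * K ^ 4 ≤ 2 ^ 400 := by
    rw [← hP4]
    calc 45 * K ^ 4 ≤ 256 * K ^ 4 := Nat.mul_le_mul_right _ (by norm_num)
      _ = (4 * K) ^ 4 := by ring
      _ ≤ P ^ 4 := Nat.pow_le_pow_left hKP 4
  calc 45 * (s + 1) ^ 4 * b ^ 3 * m ^ 2
      ≤ 45 * (K * (n ^ 68 * b ^ 3 * m ^ 63)) ^ 4 * b ^ 3 * m ^ 2 := by gcongr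
    _ = (45 * K ^ 4) * (n ^ 272 * b ^ 15 * m ^ 254) := e1
    _ ≤ 2 ^ 400 * (n ^ 400 * b ^ 400 * m ^ 400) := by
        refine Nat.mul_le_mul e2 (Nat.mul_le_mul (Nat.mul_le_mul ?_ ?_) ?_)
        · exact Nat.pow_le_pow_right hn (by norm_num)
        · exact Nat.pow_le_pow_right hb1 (by norm_num)
        · exact Nat.pow_le_pow_right hm1 (by norm_num)
    _ = (2 * n * b * m) ^ 400 := by
        rw [mul_pow, mul_pow, mul_pow]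
        rw [mul_assoc, mul_assoc, mul_assoc]

end Pool.Agent.EE2
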