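import Pool.Agent.EE2.Phases
import Pool.Agent.EE2.Num

/-!
# EE2 / Main: short covering runs when all components have cycle spaces of dimension at most two
-/

set_option autoImplicit false
set_option linter.unusedSectionVars false

namespace Pool.Agent.EE2

open Pool.Agent.EEF Pool.Agent.REV Finset

variable {Q : Type} {d : ℕ} {T : VASS Q d}

theorem two_main [Fintype Q] (hT : ∀ p₀, TwoAt T p₀) {s t : Q} {x y y' : Fin d → ℕ}
    {w : List (Fin d → ℤ)} (hrun : Run T s x w t y') (hy : ∀ k, y k ≤ y' k) :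
    ∃ (w' : List (Fin d → ℤ)) (y'' : Fin d → ℕ), Run T s x w' t y'' ∧ (∀ k, y k ≤ y'' k) ∧
      w'.length ≤ max 1 (supN y) *
        ((2 * Fintype.card Q * (d + 1) * (maxNorm T + 1)) ^ 400) ^ (geomDim T + 1) := by
  obtain ⟨h1, h2, h3⟩ := run_iff.1 hrun
  obtain ⟨I, e1, e2, e3, e4⟩ := two_scheme hT h1 (zv_nonneg x) h2
  obtain ⟨a, ha⟩ := exists_items I
  have hw : unroll I = schemeWord (I.map isk) a := by
    conv_lhs => rw [ha]
    rw [items_unroll]
  have hrun' : Run T s x (schemeWord (I.map isk) a) t y' := by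
    rw [← hw]
    refine run_iff.2 ⟨scheme_walk I e1, e2, ?_⟩
    rw [e3]
    exact h3
  obtain ⟨a', y'', h4, h5, h6⟩ := scheme_main e1 hrun' hy
  refine ⟨_, y'', h4, h5, h6.trans ?_⟩
  have hn : 1 ≤ Fintype.card Q := Fintype.card_pos_iff.2 ⟨s⟩
  refine mono_bound (num2 (M := maxNorm T) (d := d) hn e4) ?_ (schemeDim_le e1)
  have h9 : 0 < Fintype.card Q := hn
  positivity

theorem two_of_geomDim (h : geomDim T ≤ 2) (p : Q) : TwoAt T p := by
  refine le_trans (Submodule.finrank_mono (Submodule.span_mono ?_)) h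
  rintro c ⟨w, hw, rfl⟩
  exact ⟨p, w, hw, rfl⟩

theorem two_of_dim (h : d ≤ 2) (p : Q) : TwoAt T p := by
  refine (Submodule.finrank_le _).trans ?_
  rw [Module.finrank_fintype_fun_eq_card, Fintype.card_fin]
  exact h

/-- one component of dimension at most two, with the size of the whole system -/
theorem planar_part [Fintype Q] {p p' : Q} (h2 : TwoAt T p) {x : Vec d} {w : List (Vec d)}
    (hx : 0 ≤ x) (hp' : Reach T p' p) (hw : Walk T p w p') (hok : Ok x w) :
    Rlz T p x w.sum p' (cTot (Fintype.card Q) d (maxNorm T)) := by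
  classical
  set T' : VASS Q d := T.filter fun t => Reach T p t.1 ∧ Reach T t.2.2 p with hT'
  have hsub : T' ⊆ T := filter_subset _ _
  have hw' : ∀ {r q : Q} {u : List (Vec d)}, Walk T r u q → Reach T p r → Reach T q p →
      Walk T' r u q := by
    intro r q u hu
    induction hu with
    | nil r => intro _ _; exact .nil r
    | @cons r r' q v u h1 h3 ih =>
      intro hr hq
      exact .cons (mem_filter.2 ⟨h1, hr, Reach.trans ⟨_, h3⟩ hq⟩)
        (ih (hr.trans ⟨[v], .cons h1 (.nil _)⟩) hq)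
  refine ph_rlz_mono hsub ((two_scheme (T := T') (fun r => ?_) (hw' hw ⟨[], .nil _⟩ hp') hx
    hok).mono (ph_cTot_mono _ _ (ph_norm_mono hsub)))
  refine le_trans (Submodule.finrank_mono (Submodule.span_le.2 ?_)) h2
  rintro c ⟨u, hu, rfl⟩
  have hu' := ph_walk_mono hsub hu
  by_cases hnil : u = []
  · rw [hnil]
    exact vs_mem (.nil p)
  · cases hu with
    | nil => exact absurd rfl hnil
    | cons h1 h3 =>
      have h4 := (mem_filter.1 h1).2
      exact vs_closed ⟨h4.1, Reach.trans ⟨[_], .cons (hsub h1) (.nil _)⟩ h4.2⟩ hu'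

end Pool.Agent.EE2
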