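import Pool.Agent.EE2.Cara
import Pool.Agent.EE2.Dec
import Pool.Agent.EE2.Frame

/-!
# EE2 / Mono: runs along which every counter is monotone are captured by small path schemes
-/

set_option autoImplicit false
set_option linter.unusedSectionVars false

namespace Pool.Agent.EE2

open Pool.Agent.EEF Pool.Agent.REV Finset

variable {Q : Type} {d : ℕ} {T : VASS Q d}

private theorem mono_insert {n : ℕ} {p q : Q} : ∀ (E : List (Q × List (Vec d) × ℕ))
    {F : List (Ent Q d)}, Fr T p F q →
    (∀ e ∈ E, e.1 ∈ F.map Prod.fst ∧ Walk T e.1 e.2.1 e.1 ∧ e.2.1.length ≤ n) →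
    ∃ F', Fr T p F' q ∧ frSum F' = frSum F + (E.map fun e => e.2.2 • e.2.1.sum).sum ∧
      frSize F' ≤ frSize F + E.length * (n + 1) := by
  intro E
  induction E with
  | nil =>
    intro F hF _
    exact ⟨F, hF, by simp, by simp⟩
  | cons e E ih =>
    intro F hF hE
    obtain ⟨h1, h2, h3⟩ := hE e List.mem_cons_self
    obtain ⟨F₁, a1, a2, a3, a4, -⟩ := fr_insert hF h1 (α := []) (.nil _) h2 e.2.2
    obtain ⟨F', b1, b2, b3⟩ := ih a1 (fun e' he' => by
      rw [a2]
      exact hE e' (List.mem_cons_of_mem _ he'))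
    refine ⟨F', b1, ?_, ?_⟩
    · rw [b2, a3, List.map_cons, List.sum_cons, List.sum_nil, add_zero, add_assoc]
    · rw [List.length_nil] at a4
      rw [List.length_cons]
      calc frSize F' ≤ frSize F₁ + E.length * (n + 1) := b3
        _ ≤ frSize F + (n + 1) + E.length * (n + 1) := by omega
        _ = frSize F + (E.length + 1) * (n + 1) := by ring

private theorem mono_sub {T' : VASS Q d} (h : T' ⊆ T) {p q : Q} {w : List (Vec d)}
    (hw : Walk T' p w q) : Walk T p w q := by
  induction hw with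
  | nil p => exact .nil p
  | cons h1 _ ih => exact .cons (h h1) ih

theorem scheme_sub {T' : VASS Q d} (h : T' ⊆ T) {p q : Q}
    {L : List (List (Vec d) × List (Vec d))} (hL : IsScheme T' p L q) : IsScheme T p L q := by
  induction hL with
  | nil p => exact .nil p
  | cons h1 h2 _ ih => exact .cons (mono_sub h h1) (mono_sub h h2) ih

open Classical in
private theorem mono_used {w₀ : List (Vec d)} {p q : Q} {w : List (Vec d)} (hw : Walk T p w q)
    (h : ∀ v ∈ w, v ∈ w₀) : Walk (T.filter fun t => t.2.1 ∈ w₀) p w q := by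
  induction hw with
  | nil p => exact .nil p
  | cons h1 _ ih =>
    refine .cons (mem_filter.2 ⟨h1, h _ List.mem_cons_self⟩) (ih fun v hv => ?_)
    exact h v (List.mem_cons_of_mem _ hv)

private theorem mono_sum_sign {w : List (Vec d)} {k : Fin d} (h : ∀ v ∈ w, 0 ≤ v k) :
    0 ≤ w.sum k := by
  induction w with
  | nil => simp
  | cons v w ih =>
    rw [List.sum_cons, Pi.add_apply]
    exact add_nonneg (h v List.mem_cons_self) (ih fun u hu => h u (List.mem_cons_of_mem _ hu))

private theorem mono_sum_sign' {w : List (Vec d)} {k : Fin d} (h : ∀ v ∈ w, v k ≤ 0) :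
    w.sum k ≤ 0 := by
  induction w with
  | nil => simp
  | cons v w ih =>
    rw [List.sum_cons, Pi.add_apply]
    exact add_nonpos (h v List.mem_cons_self) (ih fun u hu => h u (List.mem_cons_of_mem _ hu))

/-- size of the schemes of monotone pieces -/
def cMono (n g M : ℕ) : ℕ := n * (n + 1) + 10 * (g + 1) * (g + 1 + n * M) * (n + 1)

/-- every walk of a subsystem is simulated, up to the order of the steps, by a small path scheme of
this subsystem -/
theorem core_part [Fintype Q] {T' : VASS Q d} (hsub : T' ⊆ T) {p q : Q} {w : List (Vec d)}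
    (hw' : Walk T' p w q) : ∃ I : List (Itm d), IsScheme T' p (I.map isk) q ∧
      (unroll I).sum = w.sum ∧
      schemeSize (I.map isk) ≤ cMono (Fintype.card Q) (geomDim T) (maxNorm T) := by
  classical
  obtain ⟨F, C, hF, hp, hsz, -, hC, hsum⟩ := decomp hw'
  obtain ⟨S, hS⟩ : ∃ S : List (Vec d), S = C.map fun c => c.2.sum := ⟨_, rfl⟩
  have hrep : ∀ v ∈ S.toFinset, ∃ c : Q × List (Vec d), c ∈ C ∧ c.2.sum = v := by
    intro v hv
    rw [List.mem_toFinset, hS, List.mem_map] at hv
    exact hv
  have hR : ∀ v ∈ S.toFinset, ∀ k, |v k| ≤ (Fintype.card Q * maxNorm T : ℕ) := by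
    intro v hv k
    obtain ⟨c, hc, rfl⟩ := hrep v hv
    obtain ⟨-, h1, h2⟩ := hC c hc
    refine (walk_le (mono_sub hsub h1) k).trans ?_
    exact_mod_cast Nat.mul_le_mul_right _ h2
  have hg : Module.finrank ℚ (Submodule.span ℚ {c : Fin d → ℚ | ∃ v ∈ S.toFinset, c = qv v}) ≤
      geomDim T := by
    refine Submodule.finrank_mono (Submodule.span_mono ?_)
    rintro c ⟨v, hv, rfl⟩
    obtain ⟨c, hc, rfl⟩ := hrep v hv
    exact ⟨c.1, c.2, mono_sub hsub (hC c hc).2.1, rfl⟩
  obtain ⟨m', e1, -, e3⟩ := cara S.toFinset hR hg (fun v => S.count v)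
  have : Nonempty (Q × List (Vec d)) := ⟨(p, [])⟩
  choose! ρ hρ using hrep
  obtain ⟨E, hE⟩ : ∃ E : List (Q × List (Vec d) × ℕ), E =
    ((S.toFinset.filter fun v => m' v ≠ 0).toList).map fun v => ((ρ v).1, (ρ v).2, m' v) :=
    ⟨_, rfl⟩
  obtain ⟨F', f1, f2, f3⟩ := mono_insert (n := Fintype.card Q) E hF (by
    intro e he
    rw [hE, List.mem_map] at he
    obtain ⟨v, hv, rfl⟩ := he
    rw [mem_toList, mem_filter] at hv
    exact hC _ (hρ v hv.1).1)
  have hEs : (E.map fun e => e.2.2 • e.2.1.sum).sum = S.sum := by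
    rw [hE, List.map_map, Finset.sum_map_toList]
    have h1 : ∀ v ∈ S.toFinset.filter (fun v => m' v ≠ 0),
        ((fun e : Q × List (Vec d) × ℕ => e.2.2 • e.2.1.sum) ∘
          fun v => ((ρ v).1, (ρ v).2, m' v)) v = m' v • v := by
      intro v hv
      rw [mem_filter] at hv
      simp only [Function.comp]
      rw [(hρ v hv.1).2]
    rw [sum_congr rfl h1, Finset.sum_filter_of_ne, e1, ← Finset.sum_list_count]
    intro v _ hne h0
    rw [h0, zero_smul] at hne
    exact hne rfl
  have hEl : E.length < cE (geomDim T) (Fintype.card Q * maxNorm T) := by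
    rw [hE, List.length_map, Finset.length_toList]
    exact e3
  obtain ⟨g1, -⟩ := fr_scheme f1
  refine ⟨frItems F', g1, ?_, ?_⟩
  · have h1 : (unroll (frItems F')).sum = frSum F' := rfl
    rw [h1, f2, hEs, hS, hsum]
  · have h1 : schemeSize ((frItems F').map isk) = frSize F' := rfl
    rw [h1]
    unfold cMono
    have h3 : cE (geomDim T) (Fintype.card Q * maxNorm T) =
      10 * (geomDim T + 1) * (geomDim T + 1 + Fintype.card Q * maxNorm T) := rfl
    rw [← h3]
    have h2 : E.length * (Fintype.card Q + 1) ≤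
        cE (geomDim T) (Fintype.card Q * maxNorm T) * (Fintype.card Q + 1) :=
      Nat.mul_le_mul_right _ hEl.le
    omega

/-- runs along which every counter is monotone -/
theorem mono_part [Fintype Q] {p q : Q} {x : Vec d} {w : List (Vec d)} (hx : 0 ≤ x)
    (hw : Walk T p w q) (hok : Ok x w)
    (hm : ∀ k, (∀ v ∈ w, 0 ≤ v k) ∨ (∀ v ∈ w, v k ≤ 0)) :
    Rlz T p x w.sum q (cMono (Fintype.card Q) (geomDim T) (maxNorm T)) := by
  classical
  have hy : 0 ≤ x + w.sum := Ok_end hx hok
  obtain ⟨T', hT'⟩ : ∃ T' : VASS Q d, T' = T.filter fun t => t.2.1 ∈ w := ⟨_, rfl⟩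
  have hsub : T' ⊆ T := by rw [hT']; exact filter_subset _ _
  have hw' : Walk T' p w q := by
    have := mono_used hw (w₀ := w) fun v hv => hv
    rw [hT']
    convert this
  have hlet : ∀ {a b : Q} {v : Vec d}, (a, v, b) ∈ T' → v ∈ w := by
    intro a b v h
    rw [hT', mem_filter] at h
    exact h.2
  obtain ⟨I, g1, htot, hsize⟩ := core_part hsub hw'
  refine ⟨I, scheme_sub hsub g1, ?_, htot, hsize⟩
  have hlw : ∀ v ∈ unroll I, v ∈ w := by
    intro v hv
    obtain ⟨a, b, hab⟩ := (scheme_walk _ g1).letters v hv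
    exact hlet hab
  refine Ok_of_prefix fun u u' hu k => ?_
  have hx' := hx k
  have hy' := hy k
  simp only [Pi.zero_apply, Pi.add_apply] at hx' hy' ⊢
  rw [hu] at hlw
  rcases hm k with h | h
  · have h1 : 0 ≤ u.sum k := mono_sum_sign fun v hv => h v (hlw v (List.mem_append_left _ hv))
    linarith
  · have h1 : u'.sum k ≤ 0 :=
      mono_sum_sign' fun v hv => h v (hlw v (List.mem_append_right _ hv))
    have h2 : w.sum k = u.sum k + u'.sum k := by
      rw [← htot, hu, List.sum_append, Pi.add_apply]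
    linarith

end Pool.Agent.EE2
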