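import Pool.Agent.EE2.Defs2

/-!
# EE2 / Nwb: near-wall pieces without corners stay in a strip
-/

set_option autoImplicit false
set_option linter.unusedSectionVars false

namespace Pool.Agent.EE2

open Pool.Agent.EEF Pool.Agent.REV Finset

variable {Q : Type} {d : ℕ} {T : VASS Q d}

/-- a property of all prefixes -/
theorem nwb_upgrade {P P' : Q → Vec d → Prop} {p q : Q} {x : Vec d} {w : List (Vec d)}
    (h : PW T P p x w q)
    (hP : ∀ u u' r, w = u ++ u' → PW T P p x u r → P' r (x + u.sum)) : PW T P' p x w q := by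
  induction h with
  | @nil p x h0 =>
    have := hP [] [] p rfl (.nil h0)
    exact .nil (by simpa using this)
  | @cons p p' q v x w h0 h1 h2 ih =>
    have h3 := hP [] (v :: w) p rfl (.nil h0)
    refine .cons (by simpa using h3) h1 (ih fun u u' r e hu => ?_)
    have h4 := hP (v :: u) u' r (by rw [e, List.cons_append]) (.cons h0 h1 hu)
    rwa [List.sum_cons, ← add_assoc] at h4

/-- proportional coordinates on closed walks in the component -/
theorem nwb_closed {p₀ : Q} {i j : Fin d} (h : Par T p₀ i j) {r r' : Q} (hr : InS T p₀ r)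
    (hr' : InS T p₀ r') {u u' : List (Vec d)} (hu : Walk T r u r) (hu' : Walk T r' u' r') :
    u.sum i * u'.sum j = u'.sum i * u.sum j := by
  obtain ⟨a, ha⟩ := hr.1
  obtain ⟨b, hb⟩ := hr.2
  obtain ⟨a', ha'⟩ := hr'.1
  obtain ⟨b', hb'⟩ := hr'.2
  have e1 := h _ _ ((ha.append hu).append hb) ((ha'.append hu').append hb')
  have e2 := h _ _ (ha.append hb) ((ha'.append hu').append hb')
  have e3 := h _ _ ((ha.append hu).append hb) (ha'.append hb')
  have e4 := h _ _ (ha.append hb) (ha'.append hb')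
  simp only [List.sum_append, Pi.add_apply] at e1 e2 e3 e4
  linear_combination e1 - e2 - e3 + e4

/-- a short closed walk moving the coordinate `i` -/
theorem nwb_kap [Fintype Q] {p₀ : Q} {i : Fin d} (hi : Mov T p₀ i) :
    ∃ r κ, InS T p₀ r ∧ Walk T r κ r ∧ κ.length ≤ Fintype.card Q ∧ κ.sum i ≠ 0 := by
  obtain ⟨u, hu, hne⟩ := hi
  obtain ⟨S, f, f0, f1, hS, hf⟩ := hu.visited
  have hw0 : WalkIn T S p₀ u p₀ := by
    have := hf 0 u.length (Nat.zero_le _) le_rfl
    rw [f0, f1, List.drop_zero, Nat.sub_zero, List.take_length] at this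
    exact this
  have hin : ∀ s ∈ S, InS T p₀ s := by
    intro s hs
    obtain ⟨k, hk, rfl⟩ := hS s hs
    have h1 := hf 0 k (Nat.zero_le _) hk
    have h2 := hf k u.length hk le_rfl
    rw [f0] at h1
    rw [f1] at h2
    exact ⟨⟨_, h1.walk⟩, ⟨_, h2.walk⟩⟩
  rcases lt_or_gt_of_ne hne with h0 | h0
  · obtain ⟨r, κ, h1, h2, h3⟩ := short_pos (-(Pi.evalAddMonoidHom _ i : Vec d →+ ℤ)) _ le_rfl hw0
      (by rw [AddMonoidHom.neg_apply, Pi.evalAddMonoidHom_apply]; linarith)
    rw [AddMonoidHom.neg_apply, Pi.evalAddMonoidHom_apply] at h3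
    exact ⟨r, κ, hin r h1.start, h1.walk, h2, by intro h4; rw [h4] at h3; simp at h3⟩
  · obtain ⟨r, κ, h1, h2, h3⟩ := short_pos (Pi.evalAddMonoidHom _ i : Vec d →+ ℤ) _ le_rfl hw0
      (by rw [Pi.evalAddMonoidHom_apply]; linarith)
    rw [Pi.evalAddMonoidHom_apply] at h3
    exact ⟨r, κ, hin r h1.start, h1.walk, h2, h3.ne'⟩

theorem nwb_ar {a b Di Dj A X : ℤ} (hab : 0 < a * b) (h : a * Dj = b * Di) (hX : 0 ≤ X)
    (hj : Dj ≤ X) (ha : |a| ≤ A) : Di ≤ A * X := by
  have hA : 0 ≤ A := (abs_nonneg a).trans ha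
  obtain ⟨ha1, ha2⟩ := abs_le.1 ha
  by_cases hD : Di ≤ 0
  · exact hD.trans (mul_nonneg hA hX)
  · push Not at hD
    rcases pos_and_pos_or_neg_and_neg_of_mul_pos hab with ⟨h1, h2⟩ | ⟨h1, h2⟩
    · have hDj : 0 < Dj := by
        by_contra hc
        push Not at hc
        have h3 := mul_pos h2 hD
        have h4 := mul_nonpos_of_nonneg_of_nonpos h1.le hc
        linarith
      have h5 : Di ≤ b * Di := by nlinarith
      have h6 : a * Dj ≤ A * Dj := mul_le_mul_of_nonneg_right ha2 hDj.le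
      have h7 : A * Dj ≤ A * X := mul_le_mul_of_nonneg_left hj hA
      linarith
    · have hDj : 0 < Dj := by
        by_contra hc
        push Not at hc
        have h3 := mul_neg_of_neg_of_pos h2 hD
        have h4 := mul_nonneg_of_nonpos_of_nonpos h1.le hc
        linarith
      have h5 : Di ≤ (-b) * Di := by nlinarith
      have h6 : (-a) * Dj ≤ A * Dj := mul_le_mul_of_nonneg_right (by linarith) hDj.le
      have h7 : A * Dj ≤ A * X := mul_le_mul_of_nonneg_left hj hA
      linarith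

/-- all near coordinates are proportional to a near coordinate at the start -/
theorem nwb_par {p₀ : Q} {B : ℕ} {p r : Q} {x : Vec d} {u : List (Vec d)}
    (h : PW T (fun r y => InS T p₀ r ∧ 0 ≤ y ∧ Near T p₀ B y ∧
      ¬ Corner T p₀ (B + maxNorm T) y) p x u r) :
    ∀ i, Mov T p₀ i → x i < B → ∀ j, Mov T p₀ j → (x + u.sum) j < B → Par T p₀ i j := by
  induction h with
  | @nil p x h0 =>
    intro i _ hi j _ hj
    by_contra hc
    refine h0.2.2.2 ⟨i, j, hc, ?_, ?_⟩
    · push_cast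
      have : (0 : ℤ) ≤ maxNorm T := Int.natCast_nonneg _
      linarith
    · push_cast
      have : (0 : ℤ) ≤ maxNorm T := Int.natCast_nonneg _
      simp only [List.sum_nil, add_zero] at hj
      linarith
  | @cons p p' q v x w h0 h1 h2 ih =>
    intro i hmi hi j hmj hj
    obtain ⟨-, -, ⟨j', hm', hj'⟩, hnc⟩ := h2.start
    have h3 : Par T p₀ i j' := by
      by_contra hc
      refine hnc ⟨i, j', hc, ?_, ?_⟩
      · have h4 := (abs_le.1 (abs_le_maxNorm h1 i)).2
        push_cast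
        rw [Pi.add_apply]
        linarith
      · push_cast
        have : (0 : ℤ) ≤ maxNorm T := Int.natCast_nonneg _
        linarith
    refine par_trans hm' h3 (ih j' hm' hj' j hmj ?_)
    rwa [List.sum_cons, ← add_assoc] at hj

/-- ROW Nwb -/
theorem nw_bound [Fintype Q] {p₀ : Q} (B : ℕ) {p q : Q} {x : Vec d} {w : List (Vec d)}
    (h : PW T (fun r y => InS T p₀ r ∧ 0 ≤ y ∧ Near T p₀ B y ∧
      ¬ Corner T p₀ (B + maxNorm T) y) p x w q) {A : ℕ} (hA : A = Fintype.card Q * maxNorm T) :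
    ∃ i, Mov T p₀ i ∧ PW T (fun r y => InS T p₀ r ∧ 0 ≤ y ∧
      y i ≤ ((B + maxNorm T) + 2 * (A + A * ((B + maxNorm T) + A)) : ℕ)) p x w q := by
  obtain ⟨-, -, ⟨i, hmi, hxi⟩, -⟩ := h.start
  refine ⟨i, hmi, nwb_upgrade h fun u u' r e hu => ?_⟩
  obtain ⟨rk, κ, hrk, hκ, hκl, hκi⟩ := nwb_kap hmi
  have hlen : ∀ {r r' : Q} {c : List (Vec d)}, Walk T r c r' → c.length ≤ Fintype.card Q →
      ∀ k, |c.sum k| ≤ (A : ℤ) := by
    intro r r' c hc hl k
    refine (walk_le hc k).trans ?_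
    rw [hA]
    exact_mod_cast Nat.mul_le_mul_right _ hl
  have hA0 : (0 : ℤ) ≤ A := Int.natCast_nonneg _
  have hM0 : (0 : ℤ) ≤ maxNorm T := Int.natCast_nonneg _
  have hB0 : (0 : ℤ) ≤ B := Int.natCast_nonneg _
  -- the sign of a near coordinate
  have hκj : ∀ j, Mov T p₀ j → Par T p₀ i j → κ.sum j ≠ 0 := by
    rintro j ⟨c, hc, hcj⟩ hp h0
    have := nwb_closed hp hrk (inS_refl T p₀) hκ hc
    rw [h0, mul_zero] at this
    exact (mul_ne_zero hκi hcj) this
  -- the two estimates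
  have hsame : ∀ {s t : Q} {y : Vec d} {c : List (Vec d)} {j : Fin d}, InS T p₀ s →
      InS T p₀ t → Walk T s c t → Par T p₀ i j → 0 < κ.sum i * κ.sum j → 0 ≤ y j →
      0 ≤ (y + c.sum) j → (y + c.sum) i ≤ y i + A + A * ((y + c.sum) j + A) := by
    intro s t y c j hs ht hc hp hsg h0 h1
    obtain ⟨τ, hτ, hτl⟩ := inS_path ht hs
    have h2 := nwb_closed hp hrk hs hκ (hc.append hτ)
    have h3 := abs_le.1 (hlen hτ hτl i)
    have h4 := abs_le.1 (hlen hτ hτl j)
    rw [List.sum_append] at h2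
    simp only [Pi.add_apply] at h2 h1 ⊢
    have h5 := nwb_ar (a := κ.sum i) (b := κ.sum j) (Di := c.sum i + τ.sum i)
      (Dj := c.sum j + τ.sum j) (A := A) (X := y j + c.sum j + A) hsg (by rw [h2]; ring)
      (by linarith) (by linarith) (hlen hκ hκl i)
    linarith
  have hopp : ∀ {s t : Q} {y : Vec d} {c : List (Vec d)} {j : Fin d}, InS T p₀ s →
      InS T p₀ t → Walk T s c t → Par T p₀ i j → κ.sum i * κ.sum j < 0 → 0 ≤ y j →
      0 ≤ (y + c.sum) j → (y + c.sum) i ≤ y i + A + A * (y j + A) := by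
    intro s t y c j hs ht hc hp hsg h0 h1
    obtain ⟨τ, hτ, hτl⟩ := inS_path ht hs
    have h2 := nwb_closed hp hrk hs hκ (hc.append hτ)
    have h3 := abs_le.1 (hlen hτ hτl i)
    have h4 := abs_le.1 (hlen hτ hτl j)
    rw [List.sum_append] at h2
    simp only [Pi.add_apply] at h2 h1 ⊢
    have h5 := nwb_ar (a := -κ.sum i) (b := κ.sum j) (Di := c.sum i + τ.sum i)
      (Dj := -(c.sum j + τ.sum j)) (A := A) (X := y j + A) (by linarith)
      (by linear_combination h2)
      (by linarith) (by linarith) (by rw [abs_neg]; exact hlen hκ hκl i)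
    linarith
  -- bound at configurations with a near coordinate of the same sign
  have hC1 : ∀ {t : Q} {c : List (Vec d)},
      PW T (fun r y => InS T p₀ r ∧ 0 ≤ y ∧ Near T p₀ B y ∧
        ¬ Corner T p₀ (B + maxNorm T) y) p x c t →
      (∀ j, Mov T p₀ j → (x + c.sum) j < B → 0 < κ.sum i * κ.sum j) →
      (x + c.sum) i ≤ B + A + A * (B + A) := by
    intro t c hc hsg
    obtain ⟨hin, h0, ⟨j, hmj, hj⟩, -⟩ := hc.stop
    have hp := nwb_par hc i hmi hxi j hmj hj
    have h1 := hsame (y := x) hc.start.1 hin hc.walk hp (hsg j hmj hj) (hc.start.2.1 j) (h0 j)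
    have h2 : (A : ℤ) * ((x + c.sum) j + A) ≤ A * (B + A) :=
      mul_le_mul_of_nonneg_left (by linarith) hA0
    linarith
  obtain ⟨hin, h0, -, -⟩ := hu.stop
  refine ⟨hin, h0, ?_⟩
  have hfin : ((B + A + A * (B + A) : ℤ) + maxNorm T) + A + A * (B + A) ≤
      (((B + maxNorm T) + 2 * (A + A * ((B + maxNorm T) + A)) : ℕ) : ℤ) := by
    push_cast
    nlinarith [mul_nonneg hA0 hM0]
  have hAB : (0 : ℤ) ≤ A * (B + A) := mul_nonneg hA0 (by linarith)
  rcases hu.firstBad (fun _ y => ∀ j, Mov T p₀ j → y j < B → 0 < κ.sum i * κ.sum j) with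
    h1 | ⟨u₁, u₂, r₁, e1, h2, h3, h4, h5⟩
  · have := hC1 hu h1.stop.2
    refine le_trans ?_ hfin
    linarith
  · push Not at h3
    obtain ⟨j, hmj, hj, hsg⟩ := h3
    have hu1 : PW T (fun r y => InS T p₀ r ∧ 0 ≤ y ∧ Near T p₀ B y ∧
        ¬ Corner T p₀ (B + maxNorm T) y) p x u₁ r₁ := by
      rcases h5 with ⟨rfl, rfl⟩ | ⟨u₀, v, r₀, rfl, h6, h7⟩
      · exact .nil (by simpa using h2)
      · refine (h6.mono fun _ _ h => h.1).append (.cons h6.stop.1 h7 (.nil ?_))
        rw [List.sum_append, List.sum_singleton, ← add_assoc] at h2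
        exact h2
    have hp := nwb_par hu1 i hmi hxi j hmj hj
    have hsg' : κ.sum i * κ.sum j < 0 :=
      lt_of_le_of_ne hsg (mul_ne_zero hκi (hκj j hmj hp))
    have hy : (x + u₁.sum) i ≤ (B + A + A * (B + A) : ℤ) + maxNorm T := by
      rcases h5 with ⟨rfl, rfl⟩ | ⟨u₀, v, r₀, rfl, h6, h7⟩
      · simp only [List.sum_nil, add_zero]
        linarith
      · have h8 := hC1 (h6.mono fun _ _ h => h.1) h6.stop.2
        have h9 := (abs_le.1 (abs_le_maxNorm h7 i)).2
        rw [List.sum_append, List.sum_singleton, ← add_assoc, Pi.add_apply]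
        linarith
    have e2 : x + u.sum = (x + u₁.sum) + u₂.sum := by rw [e1, List.sum_append, add_assoc]
    have h8 := hopp (y := x + u₁.sum) h2.1 hin h4.walk hp hsg' (h2.2.1 j)
      (by rw [← e2]; exact h0 j)
    rw [← e2] at h8
    have h9 : (A : ℤ) * ((x + u₁.sum) j + A) ≤ A * (B + A) :=
      mul_le_mul_of_nonneg_left (by linarith) hA0
    refine le_trans ?_ hfin
    linarith

end Pool.Agent.EE2
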