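import Pool.Agent.EE2.FewPh
import Pool.Agent.EE2.Cyc
import Pool.Agent.EE2.Main

/-!
# EE2 / Phas2: short covering runs when some covering run has few phases
-/

set_option autoImplicit false
set_option linter.unusedSectionVars false

namespace Pool.Agent.EE2

open Pool.Agent.EEF Pool.Agent.REV Finset

variable {Q : Type} {d : ℕ} {T : VASS Q d}

/-- size of one piece -/
def cPc (n d g M : ℕ) : ℕ := cTot n d M + cCyc n d g M

private theorem ph_pos {n d g M : ℕ} (hn : 1 ≤ n) : 1 ≤ cPc n d g M := by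
  have h : 1 ≤ cTot n d M := by
    unfold cTot
    exact Nat.mul_pos hn (by omega)
  unfold cPc
  omega

private theorem ph_append {p q r : Q} {x x' y : Fin d → ℕ} {s s' : ℕ}
    (h : Rlz T p (zv x) (zv x' - zv x) q s) (h' : Rlz T q (zv x') (zv y - zv x') r s') :
    Rlz T p (zv x) (zv y - zv x) r (s + s') := by
  have h1 := h.append (e' := zv y - zv x') (r := r) (s' := s') (by
    have e : zv x + (zv x' - zv x) = zv x' := by abel
    rw [e]
    exact h')
  have e : zv x' - zv x + (zv y - zv x') = zv y - zv x := by abel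
  rwa [e] at h1

theorem fewPh_rlz [Fintype Q] {K : ℕ} {p q : Q} {x y : Fin d → ℕ} (h : FewPh T K p x q y) :
    Rlz T p (zv x) (zv y - zv x) q
      (K * cPc (Fintype.card Q) d (geomDim T) (maxNorm T)) := by
  obtain ⟨C, hC⟩ : ∃ C, C = cPc (Fintype.card Q) d (geomDim T) (maxNorm T) := ⟨_, rfl⟩
  rw [← hC]
  have hC1 : cTot (Fintype.card Q) d (maxNorm T) ≤ C := by
    rw [hC]; unfold cPc; omega
  have hC2 : cCyc (Fintype.card Q) d (geomDim T) (maxNorm T) ≤ C := by
    rw [hC]; unfold cPc; omega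
  induction h with
  | nil p x =>
    rw [sub_self]
    exact (Rlz.nil p _).mono (Nat.zero_le _)
  | @cyc K T' p p' q x x' y w h0 h1 h2 _ ih =>
    obtain ⟨a1, a2, a3⟩ := run_iff.1 h2
    have h3 := (cyc_part h0 h1 (zv_nonneg x) a1 a2).mono hC2
    have e : w.sum = zv x' - zv x := by rw [a3]; abel
    rw [e] at h3
    refine (ph_append h3 ih).mono (le_of_eq ?_)
    ring
  | @planar K T' p p' q x x' y w h0 h1 h2 _ ih =>
    obtain ⟨a1, a2, a3⟩ := run_iff.1 h2
    have h3 := (ph_rlz_mono h0 (two_scheme (T := T') h1 a1 (zv_nonneg x) a2)).mono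
      ((ph_cTot_mono (Fintype.card Q) d (ph_norm_mono h0)).trans hC1)
    have e : w.sum = zv x' - zv x := by rw [a3]; abel
    rw [e] at h3
    refine (ph_append h3 ih).mono (le_of_eq ?_)
    ring
  | @loop K p q x x' y β a h1 h2 _ ih =>
    obtain ⟨a1, a2, a3⟩ := run_iff.1 h2
    have hn : 1 ≤ Fintype.card Q := Fintype.card_pos_iff.2 ⟨p⟩
    have hC0 : 1 ≤ C := by rw [hC]; exact ph_pos hn
    have h3 : Rlz T p (zv x) (zv x' - zv x) p (β.length + 1) := by
      refine ⟨[([], β, a)], .cons (.nil _) h1 (.nil _), ?_, ?_, ?_⟩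
      · rw [unroll_cons, unroll_nil, wrd, List.nil_append, List.append_nil]
        exact a2
      · rw [unroll_cons, unroll_nil, wrd, List.nil_append, List.append_nil, a3]
        have e : rep a β = (List.replicate a β).flatten := rfl
        rw [e]
        abel
      · simp [schemeSize, isk]
    refine (ph_append h3 ih).mono ?_
    have h4 : β.length + 1 ≤ (β.length + 1) * C := Nat.le_mul_of_pos_right _ hC0
    calc β.length + 1 + K * C ≤ (β.length + 1) * C + K * C := by omega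
      _ = (K + (β.length + 1)) * C := by ring

theorem num_ph {n d M g K s : ℕ} (hn : 1 ≤ n) (hg : g ≤ d) (hs : s ≤ K * cPc n d g M) :
    45 * (s + 1) ^ 4 * (d + 1) ^ 3 * (M + 1) ^ 2 ≤
      (K + 1) ^ 4 * (2 * n * (d + 1) * (M + 1)) ^ 496 := by
  obtain ⟨N, hN⟩ : ∃ N, N = 2 * n * (d + 1) * (M + 1) := ⟨_, rfl⟩
  have h1 := num2 (n := n) (d := d) (M := M) hn (le_refl (cTot n d M))
  have h2 := num_cyc (n := n) (d := d) (g := g) (M := M) hn hg
  rw [← hN] at h1 h2 ⊢
  have h3 : s + 1 ≤ (K + 1) * ((cTot n d M + 1) * (cCyc n d g M + 1)) := by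
    have e : (K + 1) * ((cTot n d M + 1) * (cCyc n d g M + 1)) =
        K * (cTot n d M + cCyc n d g M) + (K * (cTot n d M * cCyc n d g M) + K +
          (cTot n d M * cCyc n d g M + cTot n d M + cCyc n d g M) + 1) := by ring
    rw [e]
    unfold cPc at hs
    have h4 : 0 ≤ K * (cTot n d M * cCyc n d g M) := Nat.zero_le _
    have h5 : 0 ≤ cTot n d M * cCyc n d g M := Nat.zero_le _
    omega
  calc 45 * (s + 1) ^ 4 * (d + 1) ^ 3 * (M + 1) ^ 2
      ≤ 45 * ((K + 1) * ((cTot n d M + 1) * (cCyc n d g M + 1))) ^ 4 * (d + 1) ^ 3 *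
        (M + 1) ^ 2 := by gcongr
    _ = (K + 1) ^ 4 * ((45 * (cTot n d M + 1) ^ 4 * (d + 1) ^ 3 * (M + 1) ^ 2) *
        (cCyc n d g M + 1) ^ 4) := by ring
    _ ≤ (K + 1) ^ 4 * (N ^ 400 * (N ^ 24) ^ 4) := by gcongr
    _ = (K + 1) ^ 4 * N ^ 496 := by
      rw [← pow_mul, ← pow_add]

/-- **Short covering runs for runs with few phases.** -/
theorem fewPh_main [Fintype Q] {K : ℕ} {s t : Q} {x y y' : Fin d → ℕ}
    (h : FewPh T K s x t y') (hy : ∀ k, y k ≤ y' k) :
    ∃ (w' : List (Fin d → ℤ)) (y'' : Fin d → ℕ), Run T s x w' t y'' ∧ (∀ k, y k ≤ y'' k) ∧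
      w'.length ≤ max 1 (supN y) *
        ((K + 1) ^ 4 * (2 * Fintype.card Q * (d + 1) * (maxNorm T + 1)) ^ 496) ^
          (geomDim T + 1) := by
  obtain ⟨I, e1, e2, e3, e4⟩ := fewPh_rlz h
  obtain ⟨a, ha⟩ := exists_items I
  have hw : unroll I = schemeWord (I.map isk) a := by
    conv_lhs => rw [ha]
    rw [items_unroll]
  have hrun' : Run T s x (schemeWord (I.map isk) a) t y' := by
    rw [← hw]
    refine run_iff.2 ⟨scheme_walk I e1, e2, ?_⟩
    rw [e3]
    abel
  obtain ⟨a', y'', h4, h5, h6⟩ := scheme_main e1 hrun' hy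
  refine ⟨_, y'', h4, h5, h6.trans ?_⟩
  have hn : 1 ≤ Fintype.card Q := Fintype.card_pos_iff.2 ⟨s⟩
  have hg : geomDim T ≤ d := by
    refine (Submodule.finrank_le _).trans ?_
    rw [Module.finrank_fintype_fun_eq_card, Fintype.card_fin]
  refine mono_bound (num_ph hn hg e4) ?_ (schemeDim_le e1)
  have h9 : 0 < Fintype.card Q := hn
  positivity

end Pool.Agent.EE2
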