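import Pool.Agent.EE2.Defs2

/-!
# EE2 / Prod: pieces with one bounded moving coordinate (product with the values of this
coordinate is a thin system)
-/

set_option autoImplicit false
set_option linter.unusedSectionVars false

namespace Pool.Agent.EE2

open Pool.Agent.EEF Pool.Agent.REV Finset

variable {Q : Type} {d : ℕ} {T : VASS Q d}

open Classical in
/-- the product system -/
noncomputable def prodT (T : VASS Q d) (p₀ : Q) (i : Fin d) (C : ℕ) :
    VASS (Q × Fin (C + 1)) d :=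
  ((T ×ˢ (univ : Finset (Fin (C + 1) × Fin (C + 1)))).filter
    (fun t => InS T p₀ t.1.1 ∧ InS T p₀ t.1.2.2 ∧
      ((t.2.2 : ℕ) : ℤ) = ((t.2.1 : ℕ) : ℤ) + t.1.2.1 i)).image
    (fun t => ((t.1.1, t.2.1), t.1.2.1, (t.1.2.2, t.2.2)))

theorem mem_prodT {p₀ : Q} {i : Fin d} {C : ℕ} {a b : Q} {m m' : Fin (C + 1)} {v : Vec d} :
    ((a, m), v, (b, m')) ∈ prodT T p₀ i C ↔
      (a, v, b) ∈ T ∧ InS T p₀ a ∧ InS T p₀ b ∧ ((m' : ℕ) : ℤ) = ((m : ℕ) : ℤ) + v i := by
  classical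
  unfold prodT
  rw [mem_image]
  constructor
  · rintro ⟨⟨⟨a', v', b'⟩, m1, m2⟩, ht, he⟩
    rw [mem_filter, mem_product] at ht
    obtain ⟨⟨h1, -⟩, h2, h3, h4⟩ := ht
    simp only [Prod.mk.injEq] at he
    obtain ⟨⟨rfl, rfl⟩, rfl, rfl, rfl⟩ := he
    exact ⟨h1, h2, h3, h4⟩
  · rintro ⟨h1, h2, h3, h4⟩
    refine ⟨((a, v, b), m, m'), ?_, rfl⟩
    rw [mem_filter, mem_product]
    exact ⟨⟨h1, mem_univ _⟩, h2, h3, h4⟩

theorem prodT_walk {p₀ : Q} {i : Fin d} {C : ℕ} {P R : Q × Fin (C + 1)} {w : List (Vec d)}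
    (h : Walk (prodT T p₀ i C) P w R) :
    Walk T P.1 w R.1 ∧ ((R.2 : ℕ) : ℤ) = ((P.2 : ℕ) : ℤ) + w.sum i := by
  induction h with
  | nil P => exact ⟨.nil _, by simp⟩
  | @cons P P' R v w h1 _ ih =>
    obtain ⟨a, m⟩ := P
    obtain ⟨b, m'⟩ := P'
    obtain ⟨h3, -, -, h4⟩ := mem_prodT.1 h1
    refine ⟨.cons h3 ih.1, ?_⟩
    rw [ih.2, List.sum_cons, Pi.add_apply]
    simp only
    rw [h4]
    ring

theorem prodT_start {p₀ : Q} {i : Fin d} {C : ℕ} {P R : Q × Fin (C + 1)} {v : Vec d}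
    {w : List (Vec d)} (h : Walk (prodT T p₀ i C) P (v :: w) R) : InS T p₀ P.1 := by
  cases h with
  | @cons _ P' _ _ _ h1 _ =>
    obtain ⟨a, m⟩ := P
    obtain ⟨b, m'⟩ := P'
    exact (mem_prodT.1 h1).2.1

theorem prodT_thin {p₀ : Q} (h2 : TwoAt T p₀) {i : Fin d} (hi : Mov T p₀ i) (C : ℕ) :
    Thin (prodT T p₀ i C) := by
  intro P
  by_cases hP : InS T p₀ P.1
  swap
  · -- only the empty closed walk
    have hle : Submodule.span ℚ {c : Fin d → ℚ | ∃ w, Walk (prodT T p₀ i C) P w P ∧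
        c = qv w.sum} ≤ ⊥ := by
      rw [Submodule.span_le]
      rintro c ⟨w, hw, rfl⟩
      cases w with
      | nil => exact qv_zero
      | cons v w => exact absurd (prodT_start hw) hP
    refine (Submodule.finrank_mono hle).trans ?_
    simp
  · -- the kernel of the coordinate `i` on the cycle space
    set K : Submodule ℚ (Fin d → ℚ) := VS T p₀ ⊓ LinearMap.ker (LinearMap.proj i) with hK
    have hle : Submodule.span ℚ {c : Fin d → ℚ | ∃ w, Walk (prodT T p₀ i C) P w P ∧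
        c = qv w.sum} ≤ K := by
      rw [Submodule.span_le]
      rintro c ⟨w, hw, rfl⟩
      obtain ⟨h3, h4⟩ := prodT_walk hw
      refine ⟨vs_closed hP h3, ?_⟩
      have h5 : w.sum i = 0 := by linarith
      change qv w.sum i = 0
      simp [qv, h5]
    have hlt : K < VS T p₀ := by
      refine lt_of_le_of_ne inf_le_left fun heq => ?_
      obtain ⟨u, hu, hne⟩ := hi
      have h3 : qv u.sum ∈ K := by rw [heq]; exact vs_mem hu
      have h4 : qv u.sum i = 0 := h3.2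
      apply hne
      simp only [qv] at h4
      exact_mod_cast h4
    have h3 := Submodule.finrank_lt_finrank_of_lt hlt
    have h4 : Module.finrank ℚ (VS T p₀) ≤ 2 := h2
    have h5 := Submodule.finrank_mono hle
    omega

theorem prodT_lift {p₀ : Q} {i : Fin d} {C : ℕ} {p q : Q} {x : Vec d} {w : List (Vec d)}
    (h : PW T (fun r y => InS T p₀ r ∧ 0 ≤ y ∧ y i ≤ C) p x w q) :
    Ok x w ∧ ∀ m : Fin (C + 1), ((m : ℕ) : ℤ) = x i →
      ∃ m' : Fin (C + 1), Walk (prodT T p₀ i C) (p, m) w (q, m') := by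
  induction h with
  | @nil p x h0 => exact ⟨trivial, fun m _ => ⟨m, .nil _⟩⟩
  | @cons p p' q v x w h0 h1 h3 ih =>
    have hs := h3.start
    refine ⟨⟨hs.2.1, ih.1⟩, fun m hm => ?_⟩
    have hn : 0 ≤ (x + v) i := hs.2.1 i
    have hC : (x + v) i ≤ C := hs.2.2
    have hlt : ((x + v) i).toNat < C + 1 := by omega
    have hm' : ((((x + v) i).toNat : ℕ) : ℤ) = (x + v) i := Int.toNat_of_nonneg hn
    obtain ⟨m'', hm''⟩ := ih.2 ⟨((x + v) i).toNat, hlt⟩ hm'
    refine ⟨m'', .cons (mem_prodT.2 ⟨h1, h0.1, hs.1, ?_⟩) hm''⟩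
    rw [hm]
    exact hm'

theorem prodT_scheme {p₀ : Q} {i : Fin d} {C : ℕ} {P R : Q × Fin (C + 1)}
    {L : List (List (Vec d) × List (Vec d))} (h : IsScheme (prodT T p₀ i C) P L R) :
    IsScheme T P.1 L R.1 := by
  induction h with
  | nil P => exact .nil _
  | cons h1 h3 _ ih => exact .cons (prodT_walk h1).1 (prodT_walk h3).1 ih

theorem prodT_norm {p₀ : Q} {i : Fin d} {C : ℕ} : maxNorm (prodT T p₀ i C) ≤ maxNorm T := by
  classical
  unfold maxNorm
  refine Finset.sup_le ?_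
  rintro ⟨⟨a, m⟩, v, b, m'⟩ ht
  obtain ⟨h1, -⟩ := mem_prodT.1 ht
  exact Finset.le_sup (f := fun t : Q × Vec d × Q => supZ t.2.1) h1

theorem prodT_cA_mono {n M M' : ℕ} (h : M ≤ M') : cA n M ≤ cA n M' := by
  unfold cA
  gcongr

theorem prodT_cZ_mono {n d M M' : ℕ} (h : M ≤ M') : cZ n d M ≤ cZ n d M' := by
  unfold cZ
  have := prodT_cA_mono (n := n) h
  gcongr

/-- ROW Prod -/
theorem nw_flat [Fintype Q] {p₀ : Q} (h2 : TwoAt T p₀) {i : Fin d} (hi : Mov T p₀ i) (C : ℕ)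
    {p q : Q} {x : Vec d} {w : List (Vec d)}
    (h : PW T (fun r y => InS T p₀ r ∧ 0 ≤ y ∧ y i ≤ C) p x w q) :
    Rlz T p x w.sum q ((Fintype.card Q * (C + 1)) *
      (cZ (Fintype.card Q * (C + 1)) d (maxNorm T) + 2)) := by
  classical
  have hs := h.start
  obtain ⟨hok, hw⟩ := prodT_lift h
  have hn : 0 ≤ x i := hs.2.1 i
  have hC : x i ≤ C := hs.2.2
  have hlt : (x i).toNat < C + 1 := by omega
  have hm : (((x i).toNat : ℕ) : ℤ) = x i := Int.toNat_of_nonneg hn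
  obtain ⟨m', hm'⟩ := hw ⟨(x i).toNat, hlt⟩ hm
  have hcard : Fintype.card (Q × Fin (C + 1)) = Fintype.card Q * (C + 1) := by
    rw [Fintype.card_prod, Fintype.card_fin]
  have h3 := thin_scheme (prodT_thin h2 hi C) (Fintype.card (Q × Fin (C + 1)))
    (S := Finset.univ) (by rw [card_univ]) hs.2.1 hm'.walkIn hok
  rw [hcard] at h3
  have h4 : Rlz (prodT T p₀ i C) (p, ⟨(x i).toNat, hlt⟩) x w.sum (q, m')
      ((Fintype.card Q * (C + 1)) *
        (cZ (Fintype.card Q * (C + 1)) d (maxNorm T) + 2)) := by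
    refine h3.mono ?_
    have := prodT_cZ_mono (n := Fintype.card Q * (C + 1)) (d := d)
      (prodT_norm (T := T) (p₀ := p₀) (i := i) (C := C))
    gcongr
  obtain ⟨I, h5, h6, h7, h8⟩ := h4
  exact ⟨I, prodT_scheme h5, h6, h7, h8⟩

end Pool.Agent.EE2
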