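import Pool.Agent.EE2.Defs2

/-!
# EE2 / Zone2: finitely many dangerous configurations
-/

set_option autoImplicit false
set_option linter.unusedSectionVars false

namespace Pool.Agent.EE2

open Pool.Agent.EEF Pool.Agent.REV Finset

variable {Q : Type} {d : ℕ} {T : VASS Q d}

/-- the last visit of a configuration -/
theorem pw_last [DecidableEq (Q × Vec d)] {R P : Q → Vec d → Prop} {D : Finset (Q × Vec d)}
    (p' : Q) (x' : Vec d) {p q : Q} {x : Vec d} {w : List (Vec d)}
    (h : PW T (fun r y => R r y ∧ (P r y ∨ (r, y) ∈ D)) p x w q) :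
    PW T (fun r y => R r y ∧ (P r y ∨ (r, y) ∈ D.erase (p', x'))) p x w q ∨
      ∃ u w', w = u ++ w' ∧ x + u.sum = x' ∧
      ((w' = [] ∧ q = p') ∨ ∃ v r w'', w' = v :: w'' ∧ (p', v, r) ∈ T ∧
        PW T (fun r y => R r y ∧ (P r y ∨ (r, y) ∈ D.erase (p', x'))) r (x' + v) w'' q) := by
  induction h with
  | @nil p x h1 =>
    by_cases hp : (p, x) = (p', x')
    · obtain ⟨rfl, rfl⟩ := Prod.mk.inj hp
      exact Or.inr ⟨[], [], rfl, by simp, Or.inl ⟨rfl, rfl⟩⟩
    · exact Or.inl (.nil ⟨h1.1, h1.2.imp id fun h => mem_erase.2 ⟨hp, h⟩⟩)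
  | @cons p p₁ q v x w h1 h3 h4 ih =>
    rcases ih with ih | ⟨u, w', e, h5, h6⟩
    · by_cases hp : (p, x) = (p', x')
      · obtain ⟨rfl, rfl⟩ := Prod.mk.inj hp
        exact Or.inr ⟨[], v :: w, rfl, by simp, Or.inr ⟨v, p₁, w, rfl, h3, ih⟩⟩
      · exact Or.inl (.cons ⟨h1.1, h1.2.imp id fun h => mem_erase.2 ⟨hp, h⟩⟩ h3 ih)
    · exact Or.inr ⟨v :: u, w', by rw [e, List.cons_append],
        by rw [List.sum_cons, ← add_assoc, h5], h6⟩

/-- ROW Zone2 -/
theorem zone2 {R P : Q → Vec d → Prop} (hR : ∀ r y, R r y → 0 ≤ y) {a : ℕ}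
    (hA : ∀ {p q : Q} {x : Vec d} {w : List (Vec d)},
      PW T (fun r y => R r y ∧ P r y) p x w q → Rlz T p x w.sum q a) :
    ∀ (m : ℕ) {D : Finset (Q × Vec d)}, D.card ≤ m →
    ∀ {p q : Q} {x : Vec d} {w : List (Vec d)},
    PW T (fun r y => R r y ∧ (P r y ∨ (r, y) ∈ D)) p x w q →
      Rlz T p x w.sum q ((m + 1) * (a + 4)) := by
  classical
  intro m
  induction m with
  | zero =>
    intro D hD p q x w h
    have hD0 : D = ∅ := Finset.card_eq_zero.1 (Nat.le_zero.1 hD)
    have h' : PW T (fun r y => R r y ∧ P r y) p x w q := h.mono fun r y hy =>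
      ⟨hy.1, hy.2.resolve_right (by rw [hD0]; exact notMem_empty _)⟩
    exact (hA h').mono (by omega)
  | succ m ih =>
    intro D hD p q x w h
    have hexp : (m + 1 + 1) * (a + 4) = (m + 1) * (a + 4) + (a + 4) := by ring
    rcases h.firstBad P with h' | ⟨w₀, w', p', rfl, h0, hnP, h2, h3⟩
    · exact (hA (h'.mono fun r y hy => ⟨hy.1.1, hy.2⟩)).mono (by rw [hexp]; omega)
    · have h1 : (p', x + w₀.sum) ∈ D := h0.2.resolve_left hnP
      have hcard : (D.erase (p', x + w₀.sum)).card ≤ m := by
        rw [card_erase_of_mem h1]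
        omega
      have hfst : Rlz T p x w₀.sum p' (a + 2) := by
        rcases h3 with ⟨rfl, rfl⟩ | ⟨w₁, v, r, rfl, h4, h5⟩
        · exact (Rlz.nil p' x).mono (Nat.zero_le _)
        · have h6 := hA (h4.mono fun r y hy => ⟨hy.1.1, hy.2⟩)
          have h7 : 0 ≤ x + w₁.sum + v := by
            have := hR _ _ h0.1
            rw [List.sum_append, List.sum_singleton, ← add_assoc] at this
            exact this
          have h8 := h6.append (Rlz.step h5 h7)
          rw [List.sum_append, List.sum_singleton]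
          exact h8
      rcases pw_last p' (x + w₀.sum) h2 with h4 | ⟨u, w'', rfl, h5, h6⟩
      · have h7 := ih hcard h4
        rw [List.sum_append]
        exact (hfst.append h7).mono (by rw [hexp]; omega)
      · have hu0 : u.sum = 0 := by
          have : x + w₀.sum + u.sum = x + w₀.sum + 0 := by rw [h5, add_zero]
          exact add_left_cancel this
        rcases h6 with ⟨rfl, rfl⟩ | ⟨v, r, w''', rfl, h7, h8⟩
        · rw [List.sum_append, List.append_nil, hu0, add_zero]
          exact hfst.mono (by rw [hexp]; omega)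
        · have h9 := ih hcard h8
          have h10 := (hfst.append (Rlz.step h7 (hR _ _ h8.start.1))).append (by
            rw [← add_assoc]
            exact h9)
          have e : (w₀ ++ (u ++ v :: w''')).sum = w₀.sum + v + w'''.sum := by
            rw [List.sum_append, List.sum_append, List.sum_cons, hu0, zero_add, add_assoc]
          rw [e]
          exact h10.mono (by rw [hexp]; omega)

end Pool.Agent.EE2
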