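import Pool.Agent.EE2.Deep
import Pool.Agent.EE2.Nwb
import Pool.Agent.EE2.Prod
import Pool.Agent.EE2.Zone2
import Pool.Agent.EE2.Corners

/-!
# EE2 / Scc2: corner-free pieces and one strongly connected component
-/

set_option autoImplicit false
set_option linter.unusedSectionVars false

namespace Pool.Agent.EE2

open Pool.Agent.EEF Pool.Agent.REV Finset

variable {Q : Type} {d : ℕ} {T : VASS Q d}

/-- the last configuration at which the property `P'` fails -/
theorem scc2_lastBad {P : Q → Vec d → Prop} (P' : Q → Vec d → Prop) {p q : Q} {x : Vec d}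
    {w : List (Vec d)} (h : PW T P p x w q) : PW T (fun r y => P r y ∧ P' r y) p x w q ∨
      ∃ u₁ u₂ r, w = u₁ ++ u₂ ∧ PW T P p x u₁ r ∧ ¬ P' r (x + u₁.sum) ∧
        ((u₂ = [] ∧ r = q) ∨ ∃ v r₀ u₃, u₂ = v :: u₃ ∧ (r, v, r₀) ∈ T ∧
          PW T (fun r y => P r y ∧ P' r y) r₀ (x + u₁.sum + v) u₃ q) := by
  induction h with
  | @nil p x h0 =>
    by_cases hP : P' p x
    · exact Or.inl (.nil ⟨h0, hP⟩)
    · exact Or.inr ⟨[], [], p, rfl, .nil h0, by simpa using hP, Or.inl ⟨rfl, rfl⟩⟩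
  | @cons p p' q v x w h0 h1 h2 ih =>
    rcases ih with ih | ⟨u₁, u₂, r, e, h3, h4, h5⟩
    · by_cases hP : P' p x
      · exact Or.inl (.cons ⟨h0, hP⟩ h1 ih)
      · exact Or.inr ⟨[], v :: w, p, rfl, .nil h0, by simpa using hP,
          Or.inr ⟨v, p', w, rfl, h1, by simpa using ih⟩⟩
    · have es : x + (v :: u₁).sum = x + v + u₁.sum := by rw [List.sum_cons, add_assoc]
      refine Or.inr ⟨v :: u₁, u₂, r, by rw [e, List.cons_append], .cons h0 h1 h3,
        by rw [es]; exact h4, ?_⟩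
      rcases h5 with h5 | ⟨v', r₀, u₃, h6, h7, h8⟩
      · exact Or.inl h5
      · exact Or.inr ⟨v', r₀, u₃, h6, h7, by rw [es]; exact h8⟩

theorem scc2_ok {P : Q → Vec d → Prop} (hP : ∀ r y, P r y → 0 ≤ y) {p q : Q} {x : Vec d}
    {w : List (Vec d)} (h : PW T P p x w q) : Ok x w := by
  induction h with
  | nil _ => trivial
  | cons _ _ h2 ih => exact ⟨hP _ _ h2.start, ih⟩

/-- near-wall pieces -/
theorem scc2_near [Fintype Q] {p₀ : Q} (h2 : TwoAt T p₀) {p q : Q} {x : Vec d}
    {w : List (Vec d)}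
    (h : PW T (fun r y => ((InS T p₀ r ∧ 0 ≤ y ∧ CG T p₀ r y) ∧
      ¬ Corner T p₀ (cB' (Fintype.card Q) (maxNorm T)) y) ∧
      Near T p₀ (cB (Fintype.card Q) (maxNorm T)) y) p x w q) :
    Rlz T p x w.sum q (cNW (Fintype.card Q) d (maxNorm T)) := by
  have h3 : PW T (fun r y => InS T p₀ r ∧ 0 ≤ y ∧
      Near T p₀ (cB (Fintype.card Q) (maxNorm T)) y ∧
      ¬ Corner T p₀ (cB (Fintype.card Q) (maxNorm T) + maxNorm T) y) p x w q :=
    h.mono fun r y hy => ⟨hy.1.1.1, hy.1.1.2.1, hy.2, hy.1.2⟩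
  obtain ⟨i, hi, h4⟩ := nw_bound _ h3 rfl
  exact nw_flat h2 hi _ h4

theorem cfree [Fintype Q] {p₀ : Q} (h2 : TwoAt T p₀) (hnt : ¬ ThinAt T p₀) {p q : Q} {x : Vec d}
    {w : List (Vec d)}
    (h : PW T (fun r y => (InS T p₀ r ∧ 0 ≤ y ∧ CG T p₀ r y) ∧
      ¬ Corner T p₀ (cB' (Fintype.card Q) (maxNorm T)) y) p x w q) :
    Rlz T p x w.sum q (cCF (Fintype.card Q) d (maxNorm T)) := by
  set n := Fintype.card Q with hn
  set M := maxNorm T with hM
  have hdef : cCF n d M = 2 * cNW n d M + cS n M + 4 := rfl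
  rcases h.firstBad (fun _ y => Near T p₀ (cB n M) y) with h3 | ⟨u₁, u₂, r, rfl, h3, h4, h5, h6⟩
  · exact Rlz.mono (s := cNW n d M) (scc2_near h2 h3) (by rw [hdef]; omega)
  · -- up to the first deep configuration
    have hfst : Rlz T p x u₁.sum r (cNW n d M + 2) := by
      rcases h6 with ⟨rfl, rfl⟩ | ⟨u₀, v, r₀, rfl, h7, h8⟩
      · exact (Rlz.nil r x).mono (Nat.zero_le _)
      · have h9 := scc2_near h2 h7
        have h10 : 0 ≤ x + u₀.sum + v := by
          have := h5.start.1.2.1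
          rw [List.sum_append, List.sum_singleton, ← add_assoc] at this
          exact this
        rw [List.sum_append, List.sum_singleton]
        exact h9.append (Rlz.step h8 h10)
    -- the last deep configuration
    rcases scc2_lastBad (fun _ y => Near T p₀ (cB n M) y) h5 with h7 | ⟨a, b, r', rfl, h7, h8, h9⟩
    · exact absurd h7.start.2 h4
    · have hdeep : Rlz T r (x + u₁.sum) a.sum r' (cS n M) :=
        deep h2 hnt h7.start.1.1 h7.stop.1.1 h7.walk h7.start.1.2.2 h4 h8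
      have h10 := hfst.append hdeep
      rcases h9 with ⟨rfl, rfl⟩ | ⟨v, r₀, u₃, rfl, h11, h12⟩
      · rw [List.sum_append, List.append_nil]
        exact h10.mono (by rw [hdef]; omega)
      · have h13 : 0 ≤ x + (u₁.sum + a.sum) + v := by
          have := h12.start.1.1.2.1
          rw [← add_assoc]
          exact this
        have h14 := h10.append (Rlz.step h11 h13)
        have h15 := scc2_near h2 h12
        have h16 := h14.append (e' := u₃.sum) (r := q) (s' := cNW n d M) (by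
          have e : x + (u₁.sum + a.sum + v) = x + u₁.sum + a.sum + v := by
            simp only [add_assoc]
          rw [e]
          exact h15)
        have e : (u₁ ++ (a ++ v :: u₃)).sum = u₁.sum + a.sum + v + u₃.sum := by
          rw [List.sum_append, List.sum_append, List.sum_cons]
          simp only [add_assoc]
        rw [e]
        exact h16.mono (by rw [hdef]; omega)

theorem scc2 [Fintype Q] {p₀ : Q} (h2 : TwoAt T p₀) {p q : Q} {x : Vec d} {w : List (Vec d)}
    (h : PW T (fun r y => InS T p₀ r ∧ 0 ≤ y ∧ CG T p₀ r y) p x w q) :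
    Rlz T p x w.sum q (cZ2 (Fintype.card Q) d (maxNorm T)) := by
  set n := Fintype.card Q with hn
  set M := maxNorm T with hM
  have hdef : cZ2 n d M = cZ n d M + (n * (d * d * (cB' n M * cB' n M)) + 1) * (cCF n d M + 4) :=
    rfl
  by_cases hnt : ThinAt T p₀
  · exact Rlz.mono (s := cZ n d M) (scc_part hnt h.start.2.1 h.start.1.1 h.stop.1.2 h.walk
      (scc2_ok (fun r y hy => hy.2.1) h)) (by rw [hdef]; omega)
  · obtain ⟨D, hD, h3⟩ := corners h2 (cB' n M) (fun r y hy => ⟨hy.1, hy.2.1⟩) h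
    have h4 := zone2 (T := T) (R := fun r y => InS T p₀ r ∧ 0 ≤ y ∧ CG T p₀ r y)
      (P := fun _ y => ¬ Corner T p₀ (cB' n M) y) (fun r y hy => hy.2.1)
      (a := cCF n d M) (fun h5 => cfree h2 hnt h5) _ hD h3
    exact Rlz.mono (s := (n * (d * d * (cB' n M * cB' n M)) + 1) * (cCF n d M + 4)) h4
      (by rw [hdef]; omega)

end Pool.Agent.EE2
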