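import Pool.Agent.EE2.Defs2

/-!
# EE2 / Used: the transitions used by a run
-/

set_option autoImplicit false
set_option linter.unusedSectionVars false

namespace Pool.Agent.EE2

open Pool.Agent.EEF Pool.Agent.REV Finset

variable {Q : Type} {d : ℕ} {T : VASS Q d}

/-- lists of consecutive transitions -/
inductive UTr {Q : Type} {d : ℕ} : Q → List (Q × Vec d × Q) → Q → Prop
  | nil (p : Q) : UTr p [] p
  | cons {p p' q : Q} {v : Vec d} {L : List (Q × Vec d × Q)} :
      UTr p' L q → UTr p ((p, v, p') :: L) q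

/-- the labels -/
def ulab {Q : Type} {d : ℕ} (L : List (Q × Vec d × Q)) : List (Vec d) := L.map fun t => t.2.1

theorem ulab_append (L L' : List (Q × Vec d × Q)) : ulab (L ++ L') = ulab L ++ ulab L' :=
  List.map_append

theorem UTr.of_walk {p q : Q} {w : List (Vec d)} (h : Walk T p w q) :
    ∃ L : List (Q × Vec d × Q), UTr p L q ∧ ulab L = w ∧ ∀ τ ∈ L, τ ∈ T := by
  induction h with
  | nil p => exact ⟨[], .nil p, rfl, by simp⟩
  | @cons p p' q v w h1 _ ih =>
    obtain ⟨L, h2, h3, h4⟩ := ih
    refine ⟨(p, v, p') :: L, .cons h2, ?_, ?_⟩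
    · simp only [ulab, List.map_cons] at h3 ⊢
      rw [h3]
    · intro τ hτ
      rw [List.mem_cons] at hτ
      rcases hτ with rfl | hτ
      · exact h1
      · exact h4 τ hτ

theorem UTr.walk {p q : Q} {L : List (Q × Vec d × Q)} (h : UTr p L q) (hL : ∀ τ ∈ L, τ ∈ T) :
    Walk T p (ulab L) q := by
  induction h with
  | nil p => exact .nil p
  | cons _ ih =>
    exact .cons (hL _ (List.mem_cons_self ..)) (ih fun τ hτ => hL τ (List.mem_cons_of_mem _ hτ))

theorem UTr.append {p q r : Q} {L L' : List (Q × Vec d × Q)} (h : UTr p L q) (h' : UTr q L' r) :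
    UTr p (L ++ L') r := by
  induction h with
  | nil p => exact h'
  | cons _ ih => exact .cons (ih h')

theorem UTr.split {L L' : List (Q × Vec d × Q)} : ∀ {p r : Q}, UTr p (L ++ L') r →
    ∃ q, UTr p L q ∧ UTr q L' r := by
  induction L with
  | nil => intro p r h; exact ⟨p, .nil p, h⟩
  | cons τ L ih =>
    intro p r h
    rw [List.cons_append] at h
    cases h with
    | cons h2 =>
      obtain ⟨q, h3, h4⟩ := ih h2
      exact ⟨q, .cons h3, h4⟩

theorem UTr.unique {p q : Q} {L : List (Q × Vec d × Q)} (h : UTr p L q) :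
    ∀ {q' : Q}, UTr p L q' → q = q' := by
  induction h with
  | nil p => intro q' h'; cases h'; rfl
  | cons _ ih => intro q' h'; cases h' with | cons h2 => exact ih h2

theorem UTr.pw {P : Q → Vec d → Prop} {L : List (Q × Vec d × Q)} : ∀ {p q : Q} {x : Vec d},
    UTr p L q → (∀ τ ∈ L, τ ∈ T) →
    (∀ L₁ L₂ r, L = L₁ ++ L₂ → UTr p L₁ r → P r (x + (ulab L₁).sum)) → PW T P p x (ulab L) q := by
  induction L with
  | nil =>
    intro p q x h _ hP
    cases h
    have := hP [] [] p rfl (.nil p)
    exact .nil (by simpa [ulab] using this)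
  | cons τ L ih =>
    intro p q x h hL hP
    cases h with
    | @cons _ p' _ v _ h2 =>
      have h0 := hP [] _ p rfl (.nil p)
      refine .cons (by simpa [ulab] using h0) (hL _ (List.mem_cons_self ..))
        (ih h2 (fun τ hτ => hL τ (List.mem_cons_of_mem _ hτ)) ?_)
      intro L₁ L₂ r e h3
      have h4 := hP ((p, v, p') :: L₁) L₂ r (by rw [e]; rfl) (.cons h3)
      have e1 : x + v + (ulab L₁).sum = x + (ulab ((p, v, p') :: L₁)).sum := by
        simp only [ulab, List.map_cons, List.sum_cons]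
        rw [add_assoc]
      rw [e1]
      exact h4

/-- non-moving coordinates: two walks with the same end points in one component -/
theorem used_nonmov_eq {r r' : Q} {u u' τ : List (Vec d)} {k : Fin d} (hk : ¬ Mov T r k)
    (hu : Walk T r u r') (hu' : Walk T r u' r') (hτ : Walk T r' τ r) : u.sum k = u'.sum k := by
  unfold Mov at hk
  push Not at hk
  have h1 := hk _ (hu.append hτ)
  have h2 := hk _ (hu'.append hτ)
  rw [List.sum_append, Pi.add_apply] at h1 h2
  linarith

/-- ROW Used -/
theorem used {s t : Q} {x : Vec d} {w : List (Vec d)} (h : Walk T s w t) (hx : 0 ≤ x)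
    (hok : Ok x w) :
    ∃ T' : VASS Q d, T' ⊆ T ∧ PW T' (fun r y => 0 ≤ y ∧ CG T' r r y) s x w t := by
  classical
  obtain ⟨L, hL, rfl, hLT⟩ := UTr.of_walk h
  refine ⟨L.toFinset, fun τ hτ => hLT τ (List.mem_toFinset.1 hτ), ?_⟩
  have hmem : ∀ τ ∈ L, τ ∈ L.toFinset := fun τ hτ => List.mem_toFinset.2 hτ
  have hnn : ∀ L₁ L₂, L = L₁ ++ L₂ → 0 ≤ x + (ulab L₁).sum := by
    intro L₁ L₂ e
    rw [e, ulab_append, Ok_append] at hok
    exact Ok_end hx hok.1
  refine hL.pw hmem ?_
  intro L₁ L₂ r e h1
  have h2 : UTr r L₂ t := by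
    rw [e] at hL
    obtain ⟨q, h3, h4⟩ := hL.split
    rw [h1.unique h3]
    exact h4
  refine ⟨hnn _ _ e, ?_⟩
  intro r' u k hS hu hk
  rcases List.eq_nil_or_concat' u with rfl | ⟨u₀, v, rfl⟩
  · have := hnn _ _ e k
    simpa using this
  · obtain ⟨a, -, hb⟩ := hu.split
    have hmem' : (a, v, r') ∈ L := by
      cases hb with
      | cons h5 h6 =>
        cases h6
        exact List.mem_toFinset.1 h5
    obtain ⟨A, B, eA⟩ := List.append_of_mem hmem'
    obtain ⟨τ, hτ⟩ := hS.2
    have e' : L = (A ++ [(a, v, r')]) ++ B := by rw [eA, List.append_assoc]; rfl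
    have hA : UTr s (A ++ [(a, v, r')]) r' := by
      rw [eA] at hL
      obtain ⟨q, h3, h4⟩ := hL.split
      cases h4
      exact h3.append (.cons (.nil _))
    have hnn' := hnn _ _ e' k
    have e2 := e.symm.trans e'
    rw [List.append_eq_append_iff] at e2
    have hsub : ∀ {Z : List (Q × Vec d × Q)}, (∀ σ ∈ Z, σ ∈ L) → ∀ σ ∈ Z, σ ∈ L.toFinset :=
      fun hZ σ hσ => hmem _ (hZ σ hσ)
    rcases e2 with ⟨Z, h5, h6⟩ | ⟨Z, h5, h6⟩
    · have h7 : UTr r Z r' := by
        rw [h5] at hA
        obtain ⟨q, h8, h9⟩ := hA.split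
        rw [h1.unique h8]
        exact h9
      have h10 : Walk L.toFinset r (ulab Z) r' := h7.walk (hsub fun σ hσ => by
        rw [e, h6]; simp [hσ])
      have h11 := used_nonmov_eq hk hu h10 hτ
      rw [h5, ulab_append, List.sum_append] at hnn'
      simp only [Pi.zero_apply, Pi.add_apply] at hnn' ⊢
      rw [h11]
      linarith
    · have h7 : UTr r' Z r := by
        rw [h5] at h1
        obtain ⟨q, h8, h9⟩ := h1.split
        rw [hA.unique h8]
        exact h9
      have h10 : Walk L.toFinset r' (ulab Z) r := h7.walk (hsub fun σ hσ => by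
        rw [e, h5]; simp [hσ])
      unfold Mov at hk
      push Not at hk
      have h11 := hk _ (hu.append h10)
      rw [List.sum_append, Pi.add_apply] at h11
      rw [h5, ulab_append, List.sum_append]
      simp only [Pi.zero_apply, Pi.add_apply] at hnn' ⊢
      linarith

end Pool.Agent.EE2
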