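import Pool.Agent.EE2.PhasesAux
import Pool.Agent.EE2.Scc2
import Pool.Agent.EE2.Used

/-!
# EE2 / Phases: all components in turn
-/

set_option autoImplicit false
set_option linter.unusedSectionVars false

namespace Pool.Agent.EE2

open Pool.Agent.EEF Pool.Agent.REV Finset

variable {Q : Type} {d : ℕ} {T : VASS Q d}

/-- ROW Phases: all components in turn (uses scc2 and used; T is the original VASS) -/
theorem two_scheme [Fintype Q] (hT : ∀ p₀, TwoAt T p₀) {s t : Q} {x : Vec d}
    {w : List (Vec d)} (hw : Walk T s w t) (hx : 0 ≤ x) (hok : Ok x w) :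
    Rlz T s x w.sum t (cTot (Fintype.card Q) d (maxNorm T)) :=
  ph_two_scheme (@fun _ _ h2 _ _ _ _ h => scc2 h2 h) (@fun _ _ _ _ _ h1 h2 h3 => used h1 h2 h3)
    hT hw hx hok

end Pool.Agent.EE2
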