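import Pool.Agent.EE2.Defs2

/-!
# EE2 / PhasesAux: all components in turn, from the theorem for one component
-/

set_option autoImplicit false
set_option linter.unusedSectionVars false

namespace Pool.Agent.EE2

open Pool.Agent.EEF Pool.Agent.REV Finset

variable {Q : Type} {d : ℕ} {T : VASS Q d}

/-! ### Monotonicity in the system -/

theorem ph_walk_mono {T' : VASS Q d} (hsub : T' ⊆ T) {p q : Q} {w : List (Vec d)}
    (h : Walk T' p w q) : Walk T p w q := by
  induction h with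
  | nil _ => exact .nil _
  | cons h1 _ ih => exact .cons (hsub h1) ih

theorem ph_scheme_mono {T' : VASS Q d} (hsub : T' ⊆ T) {p q : Q}
    {L : List (List (Vec d) × List (Vec d))} (h : IsScheme T' p L q) : IsScheme T p L q := by
  induction h with
  | nil _ => exact .nil _
  | cons h1 h2 _ ih => exact .cons (ph_walk_mono hsub h1) (ph_walk_mono hsub h2) ih

theorem ph_rlz_mono {T' : VASS Q d} (hsub : T' ⊆ T) {p q : Q} {x e : Vec d} {s : ℕ}
    (h : Rlz T' p x e q s) : Rlz T p x e q s := by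
  obtain ⟨I, h1, h2, h3, h4⟩ := h
  exact ⟨I, ph_scheme_mono hsub h1, h2, h3, h4⟩

theorem ph_two_mono {T' : VASS Q d} (hsub : T' ⊆ T) {p₀ : Q} (h : TwoAt T p₀) :
    TwoAt T' p₀ := by
  refine (Submodule.finrank_mono ?_).trans h
  refine Submodule.span_mono ?_
  rintro c ⟨w, hw, rfl⟩
  exact ⟨w, ph_walk_mono hsub hw, rfl⟩

theorem ph_norm_mono {T' : VASS Q d} (hsub : T' ⊆ T) : maxNorm T' ≤ maxNorm T :=
  Finset.sup_mono hsub

theorem ph_cZ2_mono (n d : ℕ) {M M' : ℕ} (h : M ≤ M') : cZ2 n d M ≤ cZ2 n d M' := by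
  unfold cZ2 cCF cNW cC cB' cB cS cW cZ cA
  gcongr

theorem ph_cTot_mono (n d : ℕ) {M M' : ℕ} (h : M ≤ M') : cTot n d M ≤ cTot n d M' := by
  unfold cTot
  have := ph_cZ2_mono n d h
  gcongr

/-! ### The component -/

theorem ph_mov {p r : Q} (hr : InS T p r) {k : Fin d} (h : Mov T r k) : Mov T p k := by
  obtain ⟨u, hu, hne⟩ := h
  obtain ⟨a, ha⟩ := hr.1
  obtain ⟨b, hb⟩ := hr.2
  by_contra hc
  unfold Mov at hc
  push Not at hc
  have h1 := hc _ ((ha.append hu).append hb)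
  have h2 := hc _ (ha.append hb)
  simp only [List.sum_append, Pi.add_apply] at h1 h2
  exact hne (by linarith)

theorem ph_cg {p r : Q} (hr : InS T p r) {y : Vec d} (h : CG T r r y) : CG T p r y := by
  intro r' u k hr' hu hk
  exact h r' u k ⟨⟨u, hu⟩, hr'.2.trans hr.1⟩ hu fun hm => hk (ph_mov hr hm)

/-! ### Leaving a component -/

variable {P : Q → Vec d → Prop}

theorem ph_all {p : Q} {r q : Q} {x : Vec d} {w : List (Vec d)} (h : PW T P r x w q)
    (hr : Reach T p r) (hq : Reach T q p) : PW T (fun r y => P r y ∧ InS T p r) r x w q := by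
  induction h with
  | nil h0 => exact .nil ⟨h0, hr, hq⟩
  | @cons r r' q v x w h0 h1 h2 ih =>
    exact .cons ⟨h0, hr, Reach.trans ⟨_, .cons h1 h2.walk⟩ hq⟩ h1
      (ih (hr.trans ⟨[v], .cons h1 (.nil _)⟩) hq)

theorem ph_conv [DecidableEq Q] {S : Finset Q} {p : Q} {r q : Q} {x : Vec d}
    {w : List (Vec d)} (h : PW T (fun r y => P r y ∧ r ∈ S) r x w q) (hr : ¬ Reach T r p) :
    PW T (fun r y => P r y ∧ r ∈ S.erase p) r x w q := by
  induction h with
  | @nil r x h0 =>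
    refine .nil ⟨h0.1, mem_erase.2 ⟨?_, h0.2⟩⟩
    rintro rfl
    exact hr ⟨[], .nil _⟩
  | @cons r r' q v x w h0 h1 h2 ih =>
    refine .cons ⟨h0.1, mem_erase.2 ⟨?_, h0.2⟩⟩ h1 (ih fun h3 => hr ?_)
    · rintro rfl
      exact hr ⟨[], .nil _⟩
    · exact Reach.trans ⟨[v], .cons h1 (.nil _)⟩ h3

theorem ph_leave [DecidableEq Q] {S : Finset Q} {p : Q} {q : Q} (hq : ¬ Reach T q p) {r : Q}
    {x : Vec d} {w : List (Vec d)} (h : PW T (fun r y => P r y ∧ r ∈ S) r x w q)
    (hr : InS T p r) : ∃ u v p₂ p₃ w',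
    w = u ++ v :: w' ∧ PW T (fun r y => P r y ∧ InS T p r) r x u p₂ ∧ (p₂, v, p₃) ∈ T ∧
      PW T (fun r y => P r y ∧ r ∈ S.erase p) p₃ (x + u.sum + v) w' q := by
  induction h with
  | nil h0 => exact absurd hr.2 hq
  | @cons r r' q v x w h0 h1 h2 ih =>
    by_cases hr' : Reach T r' p
    · obtain ⟨u, v', p₂, p₃, w', e, h3, h4, h5⟩ :=
        ih hq ⟨hr.1.trans ⟨[v], .cons h1 (.nil _)⟩, hr'⟩
      refine ⟨v :: u, v', p₂, p₃, w', by rw [e, List.cons_append], .cons ⟨h0.1, hr⟩ h1 h3, h4,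
        ?_⟩
      rw [List.sum_cons, ← add_assoc]
      exact h5
    · refine ⟨[], v, r, r', w, rfl, .nil ⟨h0.1, hr⟩, h1, ?_⟩
      rw [List.sum_nil, add_zero]
      exact ph_conv h2 hr'

/-- all components in turn -/
theorem ph_main [Fintype Q] {C : ℕ}
    (hscc : ∀ {p₀ p q : Q} {x : Vec d} {w : List (Vec d)},
      PW T (fun r y => InS T p₀ r ∧ 0 ≤ y ∧ CG T p₀ r y) p x w q → Rlz T p x w.sum q C) :
    ∀ (n : ℕ) {S : Finset Q}, S.card ≤ n → ∀ {p q : Q} {x : Vec d} {w : List (Vec d)},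
    PW T (fun r y => (0 ≤ y ∧ CG T r r y) ∧ r ∈ S) p x w q →
    Rlz T p x w.sum q (n * (C + 2)) := by
  classical
  intro n
  induction n with
  | zero =>
    intro S hS p q x w h
    have : S = ∅ := Finset.card_eq_zero.1 (Nat.le_zero.1 hS)
    have h' := h.start.2
    rw [this] at h'
    simp at h'
  | succ n ih =>
    intro S hS p q x w h
    have hexp : (n + 1) * (C + 2) = n * (C + 2) + (C + 2) := by ring
    have hpp : Reach T p p := ⟨[], .nil p⟩
    by_cases hq : Reach T q p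
    · have h1 := ph_all (p := p) h hpp hq
      exact (hscc (p₀ := p) (h1.mono fun r y hy =>
        ⟨hy.2, hy.1.1.1, ph_cg hy.2 hy.1.1.2⟩)).mono (by rw [hexp]; omega)
    · obtain ⟨u, v, p₂, p₃, w', rfl, h1, h3, h4⟩ := ph_leave hq h ⟨hpp, hpp⟩
      have h5 := hscc (p₀ := p) (h1.mono fun r y hy => ⟨hy.2, hy.1.1, ph_cg hy.2 hy.1.2⟩)
      have hcard : (S.erase p).card ≤ n := by
        rw [card_erase_of_mem h.start.2]
        omega
      have h6 := ih hcard h4
      have h7 := (h5.append (Rlz.step h3 h4.start.1.1)).append (by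
        rw [← add_assoc]
        exact h6)
      have e : (u ++ v :: w').sum = u.sum + v + w'.sum := by
        rw [List.sum_append, List.sum_cons, add_assoc]
      rw [e]
      exact h7.mono (by rw [hexp]; omega)

/-- the theorem of row Phases from the theorems of the rows Scc2 and Used -/
theorem ph_two_scheme [Fintype Q]
    (scc2' : ∀ {T : VASS Q d} {p₀ : Q}, TwoAt T p₀ → ∀ {p q : Q} {x : Vec d}
      {w : List (Vec d)}, PW T (fun r y => InS T p₀ r ∧ 0 ≤ y ∧ CG T p₀ r y) p x w q →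
      Rlz T p x w.sum q (cZ2 (Fintype.card Q) d (maxNorm T)))
    (used' : ∀ {T : VASS Q d} {s t : Q} {x : Vec d} {w : List (Vec d)}, Walk T s w t →
      0 ≤ x → Ok x w →
      ∃ T' : VASS Q d, T' ⊆ T ∧ PW T' (fun r y => 0 ≤ y ∧ CG T' r r y) s x w t)
    (hT : ∀ p₀, TwoAt T p₀) {s t : Q} {x : Vec d}
    {w : List (Vec d)} (hw : Walk T s w t) (hx : 0 ≤ x) (hok : Ok x w) :
    Rlz T s x w.sum t (cTot (Fintype.card Q) d (maxNorm T)) := by
  obtain ⟨T', hsub, h⟩ := used' hw hx hok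
  have h1 := ph_main (T := T') (C := cZ2 (Fintype.card Q) d (maxNorm T'))
    (fun {p₀ p q x w} h => scc2' (ph_two_mono hsub (hT p₀)) h) (Fintype.card Q)
    (S := Finset.univ) (by rw [card_univ])
    (h.mono fun r y hy => ⟨hy, mem_univ r⟩)
  exact (ph_rlz_mono hsub h1).mono (ph_cTot_mono _ _ (ph_norm_mono hsub))

end Pool.Agent.EE2
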